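import Pool.Agent.H110R3.BP.Defs
import Pool.Agent.H207R2.BL.Chrom

/-!
Chromatic polynomials of bipartite plane graphs at real numbers at least four: all proofs.
-/

set_option autoImplicit false
set_option linter.unusedVariables false

namespace Pool.Agent.H110R3.BP

section
open Polynomial Pool.Agent.H207R2.BL

-- G1
theorem ivt_lt (g1 g2 : ℝ → ℝ) (h1 : Continuous g1) (h2 : Continuous g2) (s t : ℝ)
    (hne : ∀ r ∈ Set.uIcc s t, g1 r ≠ g2 r) (h : g1 s < g2 s) : g1 t < g2 t := by
  by_contra hc
  push Not at hc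
  have hcont : ContinuousOn (fun r => g2 r - g1 r) (Set.uIcc s t) := (h2.sub h1).continuousOn
  have h3 := intermediate_value_uIcc hcont
  have h4 : (0 : ℝ) ∈ Set.uIcc (g2 s - g1 s) (g2 t - g1 t) := by
    rw [Set.mem_uIcc]
    right
    constructor <;> linarith
  obtain ⟨r, hr, hr0⟩ := h3 h4
  exact hne r hr (by simp only at hr0; linarith)

-- G2
theorem lt_right {V : Type} {G : SimpleGraph V} {x y : V → ℝ} {g : V → V → ℝ → ℝ}
    (h : Mono G x y g) (e e' : V × V) (a t : ℝ) (hat : a ≤ t) (he : G.Adj e.1 e.2)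
    (he' : G.Adj e'.1 e'.2) (h1 : x e.1 ≤ a) (h2 : t < x e.2) (h1' : x e'.1 ≤ a)
    (h2' : t < x e'.2) (hlt : g e.1 e.2 a < g e'.1 e'.2 a) : g e.1 e.2 t < g e'.1 e'.2 t := by
  refine ivt_lt _ _ (h.cont _ _) (h.cont _ _) a t ?_ hlt
  intro r hr
  rw [Set.uIcc_of_le hat] at hr
  rcases eq_or_lt_of_le hr.1 with h3 | h3
  · rw [← h3]; exact hlt.ne
  · refine h.disj e.1 e.2 e'.1 e'.2 r he he' ?_ (h1.trans_lt h3) (hr.2.trans_lt h2)
      (h1'.trans_lt h3) (hr.2.trans_lt h2')
    intro hee
    have h4 : e.1 = e'.1 := congrArg Prod.fst hee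
    have h5 : e.2 = e'.2 := congrArg Prod.snd hee
    rw [h4, h5] at hlt
    exact lt_irrefl _ hlt

-- G3
theorem lt_left {V : Type} {G : SimpleGraph V} {x y : V → ℝ} {g : V → V → ℝ → ℝ}
    (h : Mono G x y g) (e e' : V × V) (a t : ℝ) (hat : t ≤ a) (he : G.Adj e.1 e.2)
    (he' : G.Adj e'.1 e'.2) (h1 : x e.1 < t) (h2 : a ≤ x e.2) (h1' : x e'.1 < t)
    (h2' : a ≤ x e'.2) (hlt : g e.1 e.2 a < g e'.1 e'.2 a) : g e.1 e.2 t < g e'.1 e'.2 t := by
  refine ivt_lt _ _ (h.cont _ _) (h.cont _ _) a t ?_ hlt
  intro r hr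
  rw [Set.uIcc_of_ge hat] at hr
  rcases eq_or_lt_of_le hr.2 with h3 | h3
  · rw [h3]; exact hlt.ne
  · refine h.disj e.1 e.2 e'.1 e'.2 r he he' ?_ (h1.trans_le hr.1) (h3.trans_le h2)
      (h1'.trans_le hr.1) (h3.trans_le h2')
    intro hee
    have h4 : e.1 = e'.1 := congrArg Prod.fst hee
    have h5 : e.2 = e'.2 := congrArg Prod.snd hee
    rw [h4, h5] at hlt
    exact lt_irrefl _ hlt

end

section
open Polynomial Pool.Agent.H207R2.BL

-- G4 (existence of the sorted list for any finite predicate)
theorem exists_sorted {α : Type} [Finite α] (P : α → Prop) (r : α → ℝ)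
    (hr : ∀ a b, P a → P b → r a = r b → a = b) :
    ∃ l : List α, (∀ a, a ∈ l ↔ P a) ∧ l.Pairwise (fun a b => r a < r b) := by
  classical
  haveI := Fintype.ofFinite α
  let s : Finset α := Finset.univ.filter P
  let l := s.toList.insertionSort (fun a b => r a ≤ r b)
  have hmem : ∀ a, a ∈ l ↔ P a := by
    intro a
    simp [l, s, List.mem_insertionSort]
  haveI : Std.Total (fun a b : α => r a ≤ r b) := ⟨fun a b => le_total _ _⟩
  haveI : IsTrans α (fun a b : α => r a ≤ r b) := ⟨fun a b c h1 h2 => le_trans h1 h2⟩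
  have hs : l.Pairwise (fun a b => r a ≤ r b) := List.pairwise_insertionSort _ _
  have hn : l.Nodup := (List.perm_insertionSort _ _).nodup_iff.2 s.nodup_toList
  refine ⟨l, hmem, ?_⟩
  have h2 := hs.and hn
  refine (List.pairwise_iff_get.2 ?_)
  intro i j hij
  have h3 := (List.pairwise_iff_get.1 h2) i j hij
  refine lt_of_le_of_ne h3.1 ?_
  intro he
  exact h3.2 (hr _ _ ((hmem _).1 (List.get_mem _ _)) ((hmem _).1 (List.get_mem _ _)) he)

end

section

-- G5 (splitting a sorted list by a rank)
theorem split_rank {α : Type} (R : α → α → Prop) (l : List α) (hl : l.Pairwise R)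
    (hasym : ∀ a b, R a b → ¬ R b a) (rk : α → ℕ) (hrk : ∀ a ∈ l, rk a ≤ 2)
    (hR : ∀ a ∈ l, ∀ b ∈ l, rk a < rk b → R a b) :
    l = l.filter (fun a => decide (rk a = 0)) ++ l.filter (fun a => decide (rk a = 1)) ++
      l.filter (fun a => decide (rk a = 2)) := by
  induction l with
  | nil => simp
  | cons a t ih =>
    rw [List.pairwise_cons] at hl
    have ih' := ih hl.2 (fun b hb => hrk b (List.mem_cons_of_mem _ hb))
      (fun b hb c hc => hR b (List.mem_cons_of_mem _ hb) c (List.mem_cons_of_mem _ hc))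
    have hge : ∀ b ∈ t, rk a ≤ rk b := by
      intro b hb
      by_contra h
      push Not at h
      exact hasym _ _ (hl.1 b hb) (hR b (List.mem_cons_of_mem _ hb) a List.mem_cons_self h)
    have e : ∀ m, m < rk a → t.filter (fun b => decide (rk b = m)) = [] := by
      intro m hm
      rw [List.filter_eq_nil_iff]
      intro b hb
      have := hge b hb
      simp only [decide_eq_true_eq]
      omega
    have ha : rk a = 0 ∨ rk a = 1 ∨ rk a = 2 := by
      have := hrk a List.mem_cons_self
      omega
    rcases ha with h | h | h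
    · rw [List.filter_cons_of_pos (by simp [h]), List.filter_cons_of_neg (by simp [h]),
        List.filter_cons_of_neg (by simp [h]), List.cons_append, List.cons_append, ← ih']
    · have e0 := e 0 (by omega)
      rw [e0, List.nil_append] at ih'
      rw [List.filter_cons_of_neg (by simp [h]), List.filter_cons_of_pos (by simp [h]),
        List.filter_cons_of_neg (by simp [h]), e0, List.nil_append, List.cons_append, ← ih']
    · have e0 := e 0 (by omega)
      have e1 := e 1 (by omega)
      rw [e0, e1, List.nil_append, List.nil_append] at ih'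
      rw [List.filter_cons_of_neg (by simp [h]), List.filter_cons_of_neg (by simp [h]),
        List.filter_cons_of_pos (by simp [h]), e0, e1, List.nil_append, List.nil_append, ← ih']

end

section
open Polynomial Pool.Agent.H207R2.BL

/-- an edge crossing the line at `t` which does not start at `v` starts before `t0` -/
theorem event_list_act {V : Type} {G : SimpleGraph V} {x : V → ℝ} (v : V) (t0 t : ℝ)
    (hno : ∀ z, z ≠ v → x z < t0 ∨ t < x z) {e : V × V} (he : Act G x t e) (hev : e.1 ≠ v) :
    x e.1 < t0 := by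
  rcases hno e.1 hev with h1 | h1
  · exact h1
  · exact absurd h1 (not_lt.2 he.2.1.le)

theorem event_list {V : Type} [Finite V] {G : SimpleGraph V} {x y : V → ℝ}
    {g : V → V → ℝ → ℝ}
    (h : Mono G x y g) (v : V) (t0 t : ℝ) (hv0 : t0 < x v) (hvt : x v < t)
    (hno : ∀ z, z ≠ v → x z < t0 ∨ t < x z) (l : List (V × V)) (hl : IsList G x g t l) :
    ∃ P O Q I : List (V × V), l = P ++ O ++ Q ∧ (∀ e ∈ O, e.1 = v) ∧
      (∀ e, e ∈ I ↔ (G.Adj e.1 v ∧ e.2 = v ∧ x e.1 < x v)) ∧ IsList G x g t0 (P ++ I ++ Q) := by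
  classical
  set rk : V × V → ℕ := fun e => if e.1 = v then 1 else if g e.1 e.2 (x v) < y v then 0 else 2
    with hrk
  -- ranks
  have rk0 : ∀ e, rk e = 0 → e.1 ≠ v ∧ g e.1 e.2 (x v) < y v := by
    intro e he
    simp only [hrk] at he
    by_cases h1 : e.1 = v
    · rw [if_pos h1] at he
      exact absurd he one_ne_zero
    · rw [if_neg h1] at he
      by_cases h2 : g e.1 e.2 (x v) < y v
      · exact ⟨h1, h2⟩
      · rw [if_neg h2] at he
        exact absurd he two_ne_zero
  have rk1 : ∀ e, rk e = 1 → e.1 = v := by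
    intro e he
    simp only [hrk] at he
    by_contra h1
    rw [if_neg h1] at he
    by_cases h2 : g e.1 e.2 (x v) < y v
    · rw [if_pos h2] at he
      exact absurd he.symm one_ne_zero
    · rw [if_neg h2] at he
      omega
  have rk2 : ∀ e, Act G x t e → rk e = 2 → e.1 ≠ v ∧ y v < g e.1 e.2 (x v) := by
    intro e hA he
    simp only [hrk] at he
    by_cases h1 : e.1 = v
    · rw [if_pos h1] at he
      omega
    · rw [if_neg h1] at he
      by_cases h2 : g e.1 e.2 (x v) < y v
      · rw [if_pos h2] at he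
        omega
      · refine ⟨h1, lt_of_le_of_ne (not_lt.1 h2) ?_⟩
        have h3 := event_list_act v t0 t hno hA h1
        exact (h.vert e.1 e.2 v hA.1 (h3.trans hv0) (hvt.trans hA.2.2)).symm
  have rkle : ∀ e, rk e ≤ 2 := by
    intro e
    simp only [hrk]
    split_ifs <;> omega
  have rkor : ∀ e : V × V, e.1 ≠ v → rk e = 0 ∨ rk e = 2 := by
    intro e he
    simp only [hrk]
    rw [if_neg he]
    by_cases h2 : g e.1 e.2 (x v) < y v
    · rw [if_pos h2]; exact Or.inl rfl
    · rw [if_neg h2]; exact Or.inr rfl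
  have hact : ∀ e ∈ l, Act G x t e := fun e he => (hl.mem e).1 he
  -- values at `x v`
  have hstart : ∀ e ∈ l, x e.1 ≤ x v := by
    intro e he
    by_cases h1 : e.1 = v
    · rw [h1]
    · exact (event_list_act v t0 t hno (hact e he) h1).le.trans hv0.le
  have hleft : ∀ e ∈ l, e.1 = v → g e.1 e.2 (x v) = y v := by
    intro e he h1
    have h2 := h.left e.1 e.2 (hact e he).1 ((hact e he).2.1.trans (hact e he).2.2)
    rw [h1] at h2 ⊢
    exact h2
  have hsplit := split_rank (fun e e' : V × V => g e.1 e.2 t < g e'.1 e'.2 t) l hl.sorted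
    (fun a b hab hba => lt_asymm hab hba) rk (fun a _ => rkle a) (by
      intro a ha b hb hab
      refine lt_right h a b (x v) t hvt.le (hact a ha).1 (hact b hb).1 (hstart a ha)
        (hact a ha).2.2 (hstart b hb) (hact b hb).2.2 ?_
      have ha2 := rkle a
      have hb2 := rkle b
      rcases Nat.lt_or_ge (rk a) 1 with h1 | h1
      · have h1' : rk a = 0 := by omega
        have h3 := (rk0 a h1').2
        rcases Nat.lt_or_ge (rk b) 2 with h2 | h2
        · have h2' : rk b = 1 := by omega
          rw [hleft b hb (rk1 b h2')]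
          exact h3
        · have h2' : rk b = 2 := by omega
          exact h3.trans (rk2 b (hact b hb) h2').2
      · have h1' : rk a = 1 := by omega
        have h2' : rk b = 2 := by omega
        rw [hleft a ha (rk1 a h1')]
        exact (rk2 b (hact b hb) h2').2)
  -- the edges into `v`
  have hin : ∀ e : V × V, (G.Adj e.1 v ∧ e.2 = v ∧ x e.1 < x v) → x e.1 < t0 ∧ t0 < x e.2 := by
    rintro e ⟨h1, h2, h3⟩
    constructor
    · rcases hno e.1 h1.ne with h4 | h4
      · exact h4
      · exact absurd (h4.trans h3) (not_lt.2 hvt.le)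
    · rw [h2]; exact hv0
  obtain ⟨I, hI, hIs⟩ := exists_sorted
    (fun e : V × V => G.Adj e.1 v ∧ e.2 = v ∧ x e.1 < x v) (fun e => g e.1 e.2 t0) (by
      intro a b ha hb hab
      by_contra hne
      have ha' := hin a ha
      have hb' := hin b hb
      have haA : G.Adj a.1 a.2 := by rw [ha.2.1]; exact ha.1
      have hbA : G.Adj b.1 b.2 := by rw [hb.2.1]; exact hb.1
      exact h.disj a.1 a.2 b.1 b.2 t0 haA hbA hne ha'.1 ha'.2 hb'.1 hb'.2 hab)
  set P := l.filter (fun a => decide (rk a = 0)) with hP
  set O := l.filter (fun a => decide (rk a = 1)) with hO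
  set Q := l.filter (fun a => decide (rk a = 2)) with hQ
  have memP : ∀ e, e ∈ P ↔ e ∈ l ∧ rk e = 0 := fun e => by rw [hP]; simp
  have memO : ∀ e, e ∈ O ↔ e ∈ l ∧ rk e = 1 := fun e => by rw [hO]; simp
  have memQ : ∀ e, e ∈ Q ↔ e ∈ l ∧ rk e = 2 := fun e => by rw [hQ]; simp
  -- data of the elements of `P`, `Q`, `I`
  have dP : ∀ e ∈ P, G.Adj e.1 e.2 ∧ x e.1 < t0 ∧ t < x e.2 ∧ g e.1 e.2 (x v) < y v := by
    intro e he
    obtain ⟨h1, h2⟩ := (memP e).1 he
    obtain ⟨h3, h4⟩ := rk0 e h2
    exact ⟨(hact e h1).1, event_list_act v t0 t hno (hact e h1) h3, (hact e h1).2.2, h4⟩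
  have dQ : ∀ e ∈ Q, G.Adj e.1 e.2 ∧ x e.1 < t0 ∧ t < x e.2 ∧ y v < g e.1 e.2 (x v) := by
    intro e he
    obtain ⟨h1, h2⟩ := (memQ e).1 he
    obtain ⟨h3, h4⟩ := rk2 e (hact e h1) h2
    exact ⟨(hact e h1).1, event_list_act v t0 t hno (hact e h1) h3, (hact e h1).2.2, h4⟩
  have dI : ∀ e ∈ I, G.Adj e.1 e.2 ∧ x e.1 < t0 ∧ x e.2 = x v ∧ g e.1 e.2 (x v) = y v := by
    intro e he
    have h1 := (hI e).1 he
    have h2 := hin e h1
    have h3 : G.Adj e.1 e.2 := by rw [h1.2.1]; exact h1.1
    have h4 := h.right e.1 e.2 h3 (h2.1.trans h2.2)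
    rw [h1.2.1] at h4
    refine ⟨h3, h2.1, by rw [h1.2.1], ?_⟩
    rw [h1.2.1]
    exact h4
  have hs := hl.sorted
  refine ⟨P, O, Q, I, hsplit, fun e he => rk1 e ((memO e).1 he).2, hI, ?_, ?_⟩
  · intro e
    rw [List.mem_append, List.mem_append]
    constructor
    · rintro ((he | he) | he)
      · obtain ⟨h1, h2, h3, -⟩ := dP e he
        exact ⟨h1, h2, hv0.trans (hvt.trans h3)⟩
      · obtain ⟨h1, h2, h3, -⟩ := dI e he
        exact ⟨h1, h2, by rw [h3]; exact hv0⟩
      · obtain ⟨h1, h2, h3, -⟩ := dQ e he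
        exact ⟨h1, h2, hv0.trans (hvt.trans h3)⟩
    · rintro ⟨h1, h2, h3⟩
      have h4 : e.1 ≠ v := by
        intro h5
        rw [h5] at h2
        exact lt_asymm h2 hv0
      by_cases h5 : e.2 = v
      · refine Or.inl (Or.inr ((hI e).2 ⟨?_, h5, h2.trans hv0⟩))
        rw [h5] at h1
        exact h1
      · have h6 : t < x e.2 := by
          rcases hno e.2 h5 with h7 | h7
          · exact absurd h7 (not_lt.2 h3.le)
          · exact h7
        have h8 : e ∈ l := (hl.mem e).2 ⟨h1, h2.trans (hv0.trans hvt), h6⟩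
        rcases rkor e h4 with h9 | h9
        · exact Or.inl (Or.inl ((memP e).2 ⟨h8, h9⟩))
        · exact Or.inr ((memQ e).2 ⟨h8, h9⟩)
  · have ht0t : t0 ≤ t := hv0.le.trans hvt.le
    rw [List.pairwise_append, List.pairwise_append]
    refine ⟨⟨?_, hIs, ?_⟩, ?_, ?_⟩
    · have h1 : P.Pairwise (fun e e' => g e.1 e.2 t < g e'.1 e'.2 t) := hs.filter _
      refine h1.imp_of_mem ?_
      intro a b ha hb hab
      obtain ⟨a1, a2, a3, -⟩ := dP a ha
      obtain ⟨b1, b2, b3, -⟩ := dP b hb
      exact lt_left h a b t t0 ht0t a1 b1 a2 a3.le b2 b3.le hab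
    · intro a ha b hb
      obtain ⟨a1, a2, a3, a4⟩ := dP a ha
      obtain ⟨b1, b2, b3, b4⟩ := dI b hb
      exact lt_left h a b (x v) t0 hv0.le a1 b1 a2 (hvt.trans a3).le b2 b3.ge (by rw [b4]; exact a4)
    · have h1 : Q.Pairwise (fun e e' => g e.1 e.2 t < g e'.1 e'.2 t) := hs.filter _
      refine h1.imp_of_mem ?_
      intro a b ha hb hab
      obtain ⟨a1, a2, a3, -⟩ := dQ a ha
      obtain ⟨b1, b2, b3, -⟩ := dQ b hb
      exact lt_left h a b t t0 ht0t a1 b1 a2 a3.le b2 b3.le hab
    · intro a ha b hb
      obtain ⟨b1, b2, b3, b4⟩ := dQ b hb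
      rw [List.mem_append] at ha
      rcases ha with ha | ha
      · obtain ⟨a1, a2, a3, a4⟩ := dP a ha
        exact lt_left h a b (x v) t0 hv0.le a1 b1 a2 (hvt.trans a3).le b2 (hvt.trans b3).le
          (a4.trans b4)
      · obtain ⟨a1, a2, a3, a4⟩ := dI a ha
        exact lt_left h a b (x v) t0 hv0.le a1 b1 a2 a3.ge b2 (hvt.trans b3).le
          (by rw [a4]; exact b4)

end

section
open Polynomial Pool.Agent.H207R2.BL

theorem proc_event_in {V : Type} (P Q : List V) (v : V) (I : List V) :
    ∀ (U : Set V) (E : Set (Sym2 V)), Proc (P ++ I ++ v :: Q) U E → (∀ u ∈ I, u ≠ v) →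
      Proc (P ++ v :: Q) U (E ∪ {e | ∃ u ∈ I, e = s(u, v)}) := by
  induction I using List.reverseRecOn with
  | nil =>
    intro U E h _
    have h1 : E ∪ {e | ∃ u ∈ ([] : List V), e = s(u, v)} = E := by
      ext e
      simp
    rw [h1]
    simpa using h
  | append_singleton I u ih =>
    intro U E h hI
    have h1 : P ++ (I ++ [u]) ++ v :: Q = (P ++ I) ++ u :: v :: Q := by simp
    rw [h1] at h
    have h2 := Proc.edge (P ++ I) Q U E u v h (hI u (by simp))
    have h3 := Proc.drop (P ++ I) (v :: Q) U _ u h2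
    have h4 := ih U _ h3 (fun w hw => hI w (by simp [hw]))
    have h5 : insert s(u, v) E ∪ {e | ∃ w ∈ I, e = s(w, v)} =
        E ∪ {e | ∃ w ∈ I ++ [u], e = s(w, v)} := by
      ext e
      simp only [Set.mem_union, Set.mem_insert_iff, Set.mem_ofPred_eq, List.mem_append,
        List.mem_singleton]
      constructor
      · rintro ((he | he) | ⟨w, hw, he⟩)
        · exact Or.inr ⟨u, Or.inr rfl, he⟩
        · exact Or.inl he
        · exact Or.inr ⟨w, Or.inl hw, he⟩
      · rintro (he | ⟨w, hw | hw, he⟩)
        · exact Or.inl (Or.inr he)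
        · exact Or.inr ⟨w, hw, he⟩
        · exact Or.inl (Or.inl (by rw [← hw]; exact he))
    rw [← h5]
    exact h4

theorem proc_event_rep {V : Type} (P Q : List V) (v : V) (U : Set V) (E : Set (Sym2 V))
    (h : Proc (P ++ v :: Q) U E) (b : ℕ) : Proc (P ++ v :: (List.replicate b v ++ Q)) U E := by
  induction b with
  | zero => simpa using h
  | succ b ih =>
    have h1 := Proc.dup P (List.replicate b v ++ Q) U E v ih
    simpa [List.replicate_succ] using h1

-- P1
theorem proc_event {V : Type} (P Q I : List V) (v : V) (b : ℕ) (U : Set V) (E : Set (Sym2 V))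
    (h : Proc (P ++ I ++ Q) U E) (hv : v ∉ U) (hI : ∀ u ∈ I, u ≠ v) :
    Proc (P ++ List.replicate b v ++ Q) (insert v U) (E ∪ {e | ∃ u ∈ I, e = s(u, v)}) := by
  have h1 := Proc.new (P ++ I) Q U E v h hv
  have h2 := proc_event_in P Q v I (insert v U) E h1 hI
  cases b with
  | zero =>
    have h3 := Proc.drop P Q _ _ v h2
    simpa using h3
  | succ b =>
    have h3 := proc_event_rep P Q v _ _ h2 b
    simpa [List.replicate_succ] using h3

end

section
open Polynomial Pool.Agent.H207R2.BL

theorem mono_proc_t0 {V : Type} [Finite V] (x : V → ℝ) (a : ℝ) :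
    ∃ t0 < a, ∀ z, x z < a → x z < t0 := by
  have h : ∀ᶠ t0 in nhdsWithin a (Set.Iio a), ∀ z, x z < a → x z < t0 := by
    rw [Filter.eventually_all]
    intro z
    by_cases hz : x z < a
    · have h1 : Set.Ioo (x z) a ∈ nhdsWithin a (Set.Iio a) := Ioo_mem_nhdsLT hz
      filter_upwards [h1] with t ht _
      exact ht.1
    · exact Filter.Eventually.of_forall fun t h => absurd h hz
  obtain ⟨t0, h0, h1⟩ := (h.and self_mem_nhdsWithin).exists
  exact ⟨t0, h1, h0⟩

theorem mono_proc_aux {V : Type} [Finite V] {G : SimpleGraph V} {x y : V → ℝ}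
    {g : V → V → ℝ → ℝ} (h : Mono G x y g) (n : ℕ) : ∀ (t : ℝ), Set.ncard {v | x v < t} = n →
    (∀ v, x v ≠ t) → ∀ (l : List (V × V)), IsList G x g t l →
    Proc (l.map Prod.fst) {v | x v < t}
      {e | ∃ u w, e = s(u, w) ∧ G.Adj u w ∧ x u < t ∧ x w < t} := by
  induction n using Nat.strong_induction_on with
  | _ n ih =>
    intro t hn ht l hl
    rcases Set.eq_empty_or_nonempty {v | x v < t} with he | hne
    · have hno : ∀ v, ¬ x v < t := fun v hv => by
        have : v ∈ {v | x v < t} := hv
        rw [he] at this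
        exact this
      have hl0 : l = [] := by
        rw [List.eq_nil_iff_forall_not_mem]
        intro e hel
        exact hno _ ((hl.mem e).1 hel).2.1
      have hE : {e : Sym2 V | ∃ u w, e = s(u, w) ∧ G.Adj u w ∧ x u < t ∧ x w < t} = ∅ := by
        ext e
        simp only [Set.mem_setOf_eq, Set.mem_empty_iff_false, iff_false]
        rintro ⟨u, w, -, -, hu, -⟩
        exact hno u hu
      rw [hl0, he, hE]
      exact Proc.nil
    · obtain ⟨v, hv, hmax⟩ := Set.exists_max_image {v | x v < t} x (Set.toFinite _) hne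
      obtain ⟨t0, ht0, hz⟩ := mono_proc_t0 x (x v)
      have hvt : x v < t := hv
      have hno : ∀ z, z ≠ v → x z < t0 ∨ t < x z := by
        intro z hzv
        rcases lt_or_gt_of_ne (ht z) with h1 | h1
        · refine Or.inl (hz z (lt_of_le_of_ne (hmax z h1) fun h2 => hzv (h.inj h2)))
        · exact Or.inr h1
      obtain ⟨P, O, Q, I, hPOQ, hO, hI, hl'⟩ := event_list h v t0 t ht0 hvt hno l hl
      have hU : {z | x z < t} = insert v {z | x z < t0} := by
        ext z
        simp only [Set.mem_setOf_eq, Set.mem_insert_iff]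
        constructor
        · intro h1
          by_cases hzv : z = v
          · exact Or.inl hzv
          · rcases hno z hzv with h2 | h2
            · exact Or.inr h2
            · exact absurd h1 (not_lt.2 h2.le)
        · rintro (rfl | h1)
          · exact hvt
          · exact h1.trans (ht0.trans hvt)
      have hvU : v ∉ {z | x z < t0} := fun h1 => absurd h1 (not_lt.2 (le_of_lt ht0))
      have hlt : Set.ncard {z | x z < t0} < n := by
        rw [← hn, hU, Set.ncard_insert_of_notMem hvU (Set.toFinite _)]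
        exact Nat.lt_succ_self _
      have ht0' : ∀ z, x z ≠ t0 := by
        intro z hz0
        by_cases hzv : z = v
        · subst hzv
          exact absurd hz0 ht0.ne'
        · rcases hno z hzv with h2 | h2
          · exact absurd hz0 h2.ne
          · linarith
      have hp := ih _ hlt t0 rfl ht0' _ hl'
      rw [List.map_append, List.map_append] at hp
      have hI' : ∀ u ∈ I.map Prod.fst, u ≠ v := by
        intro u hu
        obtain ⟨e, he, rfl⟩ := List.mem_map.1 hu
        intro h2
        have h3 := ((hI e).1 he).2.2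
        rw [h2] at h3
        exact lt_irrefl _ h3
      have hp' := proc_event (P.map Prod.fst) (Q.map Prod.fst) (I.map Prod.fst) v O.length _ _ hp
        hvU hI'
      have hOr : O.map Prod.fst = List.replicate O.length v := by
        rw [List.eq_replicate_iff]
        refine ⟨List.length_map _, ?_⟩
        intro u hu
        obtain ⟨e, he, rfl⟩ := List.mem_map.1 hu
        exact hO e he
      have hE : {e : Sym2 V | ∃ u w, e = s(u, w) ∧ G.Adj u w ∧ x u < t ∧ x w < t} =
          {e | ∃ u w, e = s(u, w) ∧ G.Adj u w ∧ x u < t0 ∧ x w < t0} ∪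
            {e | ∃ u ∈ I.map Prod.fst, e = s(u, v)} := by
        ext e
        simp only [Set.mem_setOf_eq, Set.mem_union]
        have hcase : ∀ z, x z < t → z = v ∨ x z < t0 := fun z hz => by
          have h1 : z ∈ {z | x z < t} := hz
          rw [hU] at h1
          exact h1
        constructor
        · rintro ⟨u, w, rfl, hadj, hu, hw⟩
          rcases hcase u hu with hu' | hu'
          · rcases hcase w hw with hw' | hw'
            · exact absurd (hu'.trans hw'.symm) hadj.ne
            · subst hu'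
              refine Or.inr ⟨w, ?_, Sym2.eq_swap⟩
              exact List.mem_map.2 ⟨(w, u), (hI (w, u)).2 ⟨hadj.symm, rfl, hw'.trans ht0⟩, rfl⟩
          · rcases hcase w hw with hw' | hw'
            · subst hw'
              refine Or.inr ⟨u, ?_, rfl⟩
              exact List.mem_map.2 ⟨(u, w), (hI (u, w)).2 ⟨hadj, rfl, hu'.trans ht0⟩, rfl⟩
            · exact Or.inl ⟨u, w, rfl, hadj, hu', hw'⟩
        · rintro (⟨u, w, rfl, hadj, hu, hw⟩ | ⟨u, hu, rfl⟩)
          · exact ⟨u, w, rfl, hadj, hu.trans (ht0.trans hvt), hw.trans (ht0.trans hvt)⟩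
          · obtain ⟨e, he, rfl⟩ := List.mem_map.1 hu
            obtain ⟨h1, -, h3⟩ := (hI e).1 he
            exact ⟨e.1, v, rfl, h1, h3.trans hvt, hvt⟩
      rw [hPOQ, List.map_append, List.map_append, hOr, hU, hE]
      exact hp'

theorem mono_proc {V : Type} [Finite V] {G : SimpleGraph V} {x y : V → ℝ} {g : V → V → ℝ → ℝ}
    (h : Mono G x y g) (t : ℝ) (ht : ∀ v, x v ≠ t) (l : List (V × V)) (hl : IsList G x g t l) :
    Proc (l.map Prod.fst) {v | x v < t}
      {e | ∃ u w, e = s(u, w) ∧ G.Adj u w ∧ x u < t ∧ x w < t} :=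
  mono_proc_aux h _ t rfl ht l hl

end

section
open Polynomial Pool.Agent.H207R2.BL

-- G8
theorem exists_shear {V : Type} [Finite V] (f : V → ℝ × ℝ) (hf : Function.Injective f) :
    ∃ ε : ℝ, Function.Injective (fun v => (f v).1 + ε * (f v).2) := by
  classical
  let bad : Set ℝ := Set.range (fun p : V × V => -((f p.1).1 - (f p.2).1) / ((f p.1).2 - (f p.2).2))
  have hfin : bad.Finite := Set.finite_range _
  obtain ⟨ε, hε⟩ := hfin.infinite_compl.nonempty
  refine ⟨ε, ?_⟩
  intro u v huv
  by_contra hne
  simp only at huv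
  by_cases h2 : (f u).2 = (f v).2
  · apply hne
    apply hf
    apply Prod.ext _ h2
    rw [h2] at huv
    linarith
  · apply hε
    refine ⟨(u, v), ?_⟩
    have h3 : (f u).2 - (f v).2 ≠ 0 := sub_ne_zero.2 h2
    simp only
    rw [div_eq_iff h3]
    linarith

end

section
open Polynomial Pool.Agent.H207R2.BL

/-- the shear -/
noncomputable def straight_shear_map (ε : ℝ) : ℝ × ℝ →ₗ[ℝ] ℝ × ℝ :=
  LinearMap.prod (LinearMap.fst ℝ ℝ ℝ + ε • LinearMap.snd ℝ ℝ ℝ) (LinearMap.snd ℝ ℝ ℝ)

theorem straight_shear_map_apply (ε : ℝ) (p : ℝ × ℝ) :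
    straight_shear_map ε p = (p.1 + ε * p.2, p.2) := by
  simp [straight_shear_map]

theorem straight_shear_inj (ε : ℝ) : Function.Injective (straight_shear_map ε) := by
  intro p q h
  rw [straight_shear_map_apply, straight_shear_map_apply, Prod.mk.injEq] at h
  obtain ⟨h1, h2⟩ := h
  rw [h2] at h1
  exact Prod.ext (by linarith) h2

theorem straight_shear_seg (ε : ℝ) (a b : ℝ × ℝ) :
    openSegment ℝ (straight_shear_map ε a) (straight_shear_map ε b) =
      straight_shear_map ε '' openSegment ℝ a b := by
  have := image_openSegment ℝ (straight_shear_map ε).toAffineMap a b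
  simpa using this.symm

theorem straight_shear {V : Type} {G : SimpleGraph V} (f : V → ℝ × ℝ) (h : IsStraight G f)
    (ε : ℝ) : IsStraight G (fun v => ((f v).1 + ε * (f v).2, (f v).2)) := by
  have e : (fun v => ((f v).1 + ε * (f v).2, (f v).2)) = fun v => straight_shear_map ε (f v) := by
    funext v
    rw [straight_shear_map_apply]
  rw [e]
  obtain ⟨h1, h2, h3⟩ := h
  refine ⟨(straight_shear_inj ε).comp h1, ?_, ?_⟩
  · intro u v w huv
    rw [straight_shear_seg]
    rintro ⟨p, hp, hpw⟩
    exact h2 u v w huv (by rwa [straight_shear_inj ε hpw] at hp)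
  · intro u v u' v' huv huv' hne
    rw [straight_shear_seg, straight_shear_seg]
    exact (Set.disjoint_image_iff (straight_shear_inj ε)).mpr (h3 u v u' v' huv huv' hne)

end

section
open Polynomial Pool.Agent.H207R2.BL

theorem mono_of_straight_mem (a b : ℝ × ℝ) (t : ℝ) (h1 : a.1 < t) (h2 : t < b.1) :
    ((t, a.2 + (t - a.1) / (b.1 - a.1) * (b.2 - a.2)) : ℝ × ℝ) ∈ openSegment ℝ a b := by
  rw [openSegment_eq_image]
  have h3 : 0 < b.1 - a.1 := by linarith
  refine ⟨(t - a.1) / (b.1 - a.1), ⟨div_pos (by linarith) h3, ?_⟩, ?_⟩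
  · rw [div_lt_one h3]
    linarith
  · ext
    · simp only [Prod.fst_add, Prod.smul_fst, smul_eq_mul]
      field_simp
      ring
    · simp only [Prod.snd_add, Prod.smul_snd, smul_eq_mul]
      ring

theorem mono_of_straight {V : Type} {G : SimpleGraph V} (f : V → ℝ × ℝ) (h : IsStraight G f)
    (hx : Function.Injective (fun v => (f v).1)) :
    Mono G (fun v => (f v).1) (fun v => (f v).2)
      (fun u w t => (f u).2 + (t - (f u).1) / ((f w).1 - (f u).1) * ((f w).2 - (f u).2)) where
  inj := hx
  cont u w := by fun_prop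
  left u w _ _ := by simp
  right u w _ huw := by
    have h3 : (f w).1 - (f u).1 ≠ 0 := (sub_pos.2 huw).ne'
    change (f u).2 + ((f w).1 - (f u).1) / ((f w).1 - (f u).1) * ((f w).2 - (f u).2) = (f w).2
    rw [div_self h3]
    ring
  vert u w z huw h1 h2 heq := by
    have h3 := mono_of_straight_mem (f u) (f w) (f z).1 h1 h2
    have e : (f u).2 + ((f z).1 - (f u).1) / ((f w).1 - (f u).1) * ((f w).2 - (f u).2) =
        (f z).2 := heq
    rw [e] at h3
    exact h.2.1 u w z huw h3
  disj u w u' w' t huw huw' hne h1 h2 h3 h4 heq := by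
    have h5 := mono_of_straight_mem (f u) (f w) t h1 h2
    have h6 := mono_of_straight_mem (f u') (f w') t h3 h4
    have e : (f u).2 + (t - (f u).1) / ((f w).1 - (f u).1) * ((f w).2 - (f u).2) =
        (f u').2 + (t - (f u').1) / ((f w').1 - (f u').1) * ((f w').2 - (f u').2) := heq
    rw [← e] at h6
    have hs : s(u, w) ≠ s(u', w') := by
      intro hs
      rcases Sym2.eq_iff.1 hs with ⟨rfl, rfl⟩ | ⟨rfl, rfl⟩
      · exact hne rfl
      · exact absurd (h1.trans h4) (lt_irrefl _)
    exact Set.disjoint_left.1 (h.2.2 u w u' w' huw huw' hs) h5 h6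

end

section
open Polynomial Pool.Agent.H207R2.BL

theorem straight_proc_bound {V : Type} [Finite V] (x : V → ℝ) : ∃ t : ℝ, ∀ v, x v < t := by
  obtain ⟨M, hM⟩ := (Set.finite_range x).bddAbove
  refine ⟨M + 1, fun v => ?_⟩
  have := hM (Set.mem_range_self v)
  linarith

theorem straight_proc {V : Type} [Finite V] {G : SimpleGraph V} (f : V → ℝ × ℝ)
    (h : IsStraight G f) : Proc [] Set.univ G.edgeSet := by
  obtain ⟨ε, hε⟩ := exists_shear f h.1
  have h1 := straight_shear f h ε
  have h2 := mono_of_straight _ h1 hε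
  obtain ⟨t, ht⟩ := straight_proc_bound (fun v => (f v).1 + ε * (f v).2)
  have h3 := mono_proc h2 t (fun v => (ht v).ne) [] ⟨fun e => by
      constructor
      · intro he
        simp at he
      · rintro ⟨-, -, h4⟩
        exact absurd (ht e.2) (not_lt.2 h4.le), List.Pairwise.nil⟩
  have e1 : {v | (fun v => (f v).1 + ε * (f v).2) v < t} = (Set.univ : Set V) := by
    ext v
    simp only [Set.mem_ofPred_eq, Set.mem_univ, iff_true]
    exact ht v
  have e2 : {e : Sym2 V | ∃ u w, e = s(u, w) ∧ G.Adj u w ∧
      (fun v => (f v).1 + ε * (f v).2) u < t ∧ (fun v => (f v).1 + ε * (f v).2) w < t} =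
      G.edgeSet := by
    ext e
    constructor
    · rintro ⟨u, w, rfl, h4, -, -⟩
      exact h4
    · intro h4
      induction e using Sym2.ind with
      | _ u w => exact ⟨u, w, rfl, h4, ht u, ht w⟩
  rw [← e1, ← e2]
  exact h3

end

section
open Polynomial Pool.Agent.H207R2.BL

theorem cnt_new {V : Type} [Fintype V] (k : ℕ) (L1 L2 : List V) (E : Set (Sym2 V)) (v : V)
    (hv1 : v ∉ L1) (hv2 : v ∉ L2) (hE : ∀ u, s(u, v) ∉ E) (l1 l2 : List (Fin k)) (x : Fin k)
    (hl : l1.length = L1.length) :
    (k : ℝ) * cnt k (L1 ++ v :: L2) E (l1 ++ x :: l2) = cnt k (L1 ++ L2) E (l1 ++ l2) := by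
  classical
  set P : (V → Fin k) → Prop := fun g =>
    (∀ a b, s(a, b) ∈ E → g a ≠ g b) ∧ (L1 ++ L2).map g = l1 ++ l2 with hP
  have hupd : ∀ (g : V → Fin k) (z : Fin k), P (Function.update g v z) ↔ P g := by
    intro g z
    have h1 : ∀ a, a ≠ v → Function.update g v z a = g a := fun a ha =>
      Function.update_of_ne ha _ _
    have h2 : (L1 ++ L2).map (Function.update g v z) = (L1 ++ L2).map g := by
      apply List.map_congr_left
      intro a ha
      apply h1
      rintro rfl
      rcases List.mem_append.1 ha with h | h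
      · exact hv1 h
      · exact hv2 h
    have h3 : ∀ a b, s(a, b) ∈ E → a ≠ v ∧ b ≠ v := by
      intro a b hab
      constructor
      · rintro rfl
        exact hE b (by rwa [Sym2.eq_swap] at hab)
      · rintro rfl
        exact hE a hab
    simp only [hP]
    rw [h2]
    refine and_congr_left fun _ => ?_
    refine forall_congr' fun a => forall_congr' fun b => ?_
    refine forall_congr' fun hab => ?_
    rw [h1 a (h3 a b hab).1, h1 b (h3 a b hab).2]
  have hL : cnt k (L1 ++ v :: L2) E (l1 ++ x :: l2) =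
      ∑ g : V → Fin k, if P g ∧ g v = x then (1 : ℝ) else 0 := by
    unfold cnt
    refine Finset.sum_congr rfl fun g _ => if_congr ?_ rfl rfl
    simp only [hP, List.map_append, List.map_cons]
    rw [and_assoc]
    refine and_congr_right fun _ => ?_
    constructor
    · intro h
      obtain ⟨h1, h2⟩ := List.append_inj h (by simp [hl])
      rw [List.cons_eq_cons] at h2
      exact ⟨by rw [h1, h2.2], h2.1⟩
    · rintro ⟨h, h3⟩
      obtain ⟨h1, h2⟩ := List.append_inj h (by simp [hl])
      rw [h1, h2, h3]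
  have hR : cnt k (L1 ++ L2) E (l1 ++ l2) =
      ∑ y : Fin k, ∑ g : V → Fin k, if P g ∧ g v = y then (1 : ℝ) else 0 := by
    rw [Finset.sum_comm]
    unfold cnt
    refine Finset.sum_congr rfl fun g _ => ?_
    by_cases hg : P g
    · rw [if_pos hg]
      simp [hg]
    · rw [if_neg hg]
      simp [hg]
  have hy : ∀ y : Fin k, (∑ g : V → Fin k, if P g ∧ g v = y then (1 : ℝ) else 0) =
      ∑ g : V → Fin k, if P g ∧ g v = x then (1 : ℝ) else 0 := by
    intro y
    have hinv : Function.Involutive
        (fun g : V → Fin k => Function.update g v (Equiv.swap x y (g v))) := by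
      intro g
      simp
    refine Fintype.sum_equiv hinv.toPerm _ _ fun g => ?_
    refine if_congr ?_ rfl rfl
    change _ ↔ P (Function.update g v (Equiv.swap x y (g v))) ∧
      Function.update g v (Equiv.swap x y (g v)) v = x
    rw [hupd, Function.update_self]
    refine and_congr_right fun _ => ?_
    constructor
    · intro h
      rw [h, Equiv.swap_apply_right]
    · intro h
      rw [Equiv.swap_apply_eq_iff, Equiv.swap_apply_left] at h
      exact h
  rw [hL, hR, Finset.sum_congr rfl fun y _ => hy y]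
  simp

end

section
open Polynomial Pool.Agent.H207R2.BL

theorem cnt_drop_iff1 {α : Type} (a1 a2 b1 b2 : List α) (x y : α) (h : a1.length = b1.length) :
    a1 ++ x :: a2 = b1 ++ y :: b2 ↔ (a1 = b1 ∧ a2 = b2) ∧ x = y := by
  constructor
  · intro h1
    obtain ⟨h2, h3⟩ := List.append_inj h1 h
    rw [List.cons.injEq] at h3
    exact ⟨⟨h2, h3.2⟩, h3.1⟩
  · rintro ⟨⟨rfl, rfl⟩, rfl⟩
    rfl

theorem cnt_drop_iff2 {α : Type} (a1 a2 b1 b2 : List α) (h : a1.length = b1.length) :
    a1 ++ a2 = b1 ++ b2 ↔ (a1 = b1 ∧ a2 = b2) := by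
  constructor
  · intro h1
    exact List.append_inj h1 h
  · rintro ⟨rfl, rfl⟩
    rfl

theorem cnt_drop {V : Type} [Fintype V] (k : ℕ) (L1 L2 : List V) (E : Set (Sym2 V)) (v : V)
    (l1 l2 : List (Fin k)) (hl : l1.length = L1.length) :
    ∑ x : Fin k, cnt k (L1 ++ v :: L2) E (l1 ++ x :: l2) = cnt k (L1 ++ L2) E (l1 ++ l2) := by
  classical
  unfold cnt
  rw [Finset.sum_comm]
  refine Finset.sum_congr rfl fun g _ => ?_
  have h1 : (L1.map g).length = l1.length := by rw [List.length_map, hl]
  have e1 : ∀ x : Fin k, ((∀ a b, s(a, b) ∈ E → g a ≠ g b) ∧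
      (L1 ++ v :: L2).map g = l1 ++ x :: l2) ↔ (x = g v ∧ ((∀ a b, s(a, b) ∈ E → g a ≠ g b) ∧
        (L1.map g = l1 ∧ L2.map g = l2))) := by
    intro x
    rw [List.map_append, List.map_cons, cnt_drop_iff1 _ _ _ _ _ _ h1]
    constructor
    · rintro ⟨a, b, c⟩; exact ⟨c.symm, a, b⟩
    · rintro ⟨c, a, b⟩; exact ⟨a, b, c.symm⟩
  have e2 : ((∀ a b, s(a, b) ∈ E → g a ≠ g b) ∧
      (L1 ++ L2).map g = l1 ++ l2) ↔ ((∀ a b, s(a, b) ∈ E → g a ≠ g b) ∧
        (L1.map g = l1 ∧ L2.map g = l2)) := by
    rw [List.map_append, cnt_drop_iff2 _ _ _ _ h1]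
  by_cases hQ : ((∀ a b, s(a, b) ∈ E → g a ≠ g b) ∧ (L1.map g = l1 ∧ L2.map g = l2))
  · rw [if_pos (e2.mpr hQ)]
    rw [Finset.sum_eq_single (g v)]
    · rw [if_pos ((e1 _).mpr ⟨rfl, hQ⟩)]
    · intro x _ hx
      rw [if_neg (fun h => hx ((e1 x).mp h).1)]
    · intro h
      exact absurd (Finset.mem_univ _) h
  · rw [if_neg (fun h => hQ (e2.mp h))]
    refine Finset.sum_eq_zero fun x _ => ?_
    rw [if_neg (fun h => hQ ((e1 x).mp h).2)]

end

section
open Polynomial Pool.Agent.H207R2.BL

theorem T13_map1 {V : Type} {k : ℕ} (g : V → Fin k) (L1 L2 : List V) (v : V)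
    (l1 l2 : List (Fin k)) (x : Fin k) (hl : l1.length = L1.length) :
    (L1 ++ v :: L2).map g = l1 ++ x :: l2 ↔ L1.map g = l1 ∧ g v = x ∧ L2.map g = l2 := by
  rw [List.map_append, List.map_cons]
  constructor
  · intro h
    have h1 := List.append_inj h (by rw [List.length_map, hl])
    have h2 := List.cons.inj h1.2
    exact ⟨h1.1, h2.1, h2.2⟩
  · rintro ⟨h1, h2, h3⟩
    rw [h1, h2, h3]

theorem T13_map2 {V : Type} {k : ℕ} (g : V → Fin k) (L1 L2 : List V) (u v : V)
    (l1 l2 : List (Fin k)) (x y : Fin k) (hl : l1.length = L1.length) :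
    (L1 ++ u :: v :: L2).map g = l1 ++ x :: y :: l2 ↔
      L1.map g = l1 ∧ g u = x ∧ g v = y ∧ L2.map g = l2 := by
  rw [List.map_append, List.map_cons, List.map_cons]
  constructor
  · intro h
    have h1 := List.append_inj h (by rw [List.length_map, hl])
    have h2 := List.cons.inj h1.2
    have h3 := List.cons.inj h2.2
    exact ⟨h1.1, h2.1, h3.1, h3.2⟩
  · rintro ⟨h1, h2, h3, h4⟩
    rw [h1, h2, h3, h4]

-- K3
theorem cnt_dup {V : Type} [Fintype V] (k : ℕ) (L1 L2 : List V) (E : Set (Sym2 V)) (v : V)
    (l1 l2 : List (Fin k)) (x y : Fin k) (hl : l1.length = L1.length) :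
    cnt k (L1 ++ v :: v :: L2) E (l1 ++ x :: y :: l2) =
      if x = y then cnt k (L1 ++ v :: L2) E (l1 ++ x :: l2) else 0 := by
  classical
  unfold cnt
  split_ifs with hxy
  · refine Finset.sum_congr rfl (fun g _ => ?_)
    refine if_congr (and_congr Iff.rfl ?_) rfl rfl
    rw [T13_map2 g L1 L2 v v l1 l2 x y hl, T13_map1 g L1 L2 v l1 l2 x hl]
    constructor
    · rintro ⟨h1, h2, _, h4⟩
      exact ⟨h1, h2, h4⟩
    · rintro ⟨h1, h2, h4⟩
      exact ⟨h1, h2, h2.trans hxy, h4⟩
  · refine Finset.sum_eq_zero (fun g _ => ?_)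
    rw [if_neg]
    rintro ⟨_, h⟩
    rw [T13_map2 g L1 L2 v v l1 l2 x y hl] at h
    exact hxy (h.2.1.symm.trans h.2.2.1)

-- K4
theorem cnt_edge {V : Type} [Fintype V] (k : ℕ) (L1 L2 : List V) (E : Set (Sym2 V)) (u v : V)
    (l1 l2 : List (Fin k)) (x y : Fin k) (hl : l1.length = L1.length) :
    cnt k (L1 ++ u :: v :: L2) (insert s(u, v) E) (l1 ++ x :: y :: l2) =
      if x = y then 0 else cnt k (L1 ++ u :: v :: L2) E (l1 ++ x :: y :: l2) := by
  classical
  unfold cnt
  split_ifs with hxy
  · refine Finset.sum_eq_zero (fun g _ => ?_)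
    rw [if_neg]
    rintro ⟨hE, h⟩
    rw [T13_map2 g L1 L2 u v l1 l2 x y hl] at h
    exact hE u v (Set.mem_insert _ _) (h.2.1.trans (hxy.trans h.2.2.1.symm))
  · refine Finset.sum_congr rfl (fun g _ => ?_)
    have hiff : ((∀ a b, s(a, b) ∈ insert s(u, v) E → g a ≠ g b) ∧
        (L1 ++ u :: v :: L2).map g = l1 ++ x :: y :: l2) ↔
        ((∀ a b, s(a, b) ∈ E → g a ≠ g b) ∧
        (L1 ++ u :: v :: L2).map g = l1 ++ x :: y :: l2) := by
      constructor
      · rintro ⟨hE, h⟩
        exact ⟨fun a b hab => hE a b (Set.mem_insert_of_mem _ hab), h⟩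
      · rintro ⟨hE, h⟩
        refine ⟨fun a b hab => ?_, h⟩
        rcases Set.mem_insert_iff.mp hab with h' | h'
        · rw [T13_map2 g L1 L2 u v l1 l2 x y hl] at h
          have huv : g u ≠ g v := by
            rw [h.2.1, h.2.2.1]
            exact hxy
          rcases Sym2.eq_iff.mp h' with ⟨rfl, rfl⟩ | ⟨rfl, rfl⟩
          · exact huv
          · exact huv.symm
        · exact hE a b h'
    by_cases hP : (∀ a b, s(a, b) ∈ E → g a ≠ g b) ∧
        (L1 ++ u :: v :: L2).map g = l1 ++ x :: y :: l2
    · rw [if_pos hP, if_pos (hiff.mpr hP)]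
    · rw [if_neg hP, if_neg (fun h => hP (hiff.mp h))]

end

section
open Polynomial Pool.Agent.H207R2.BL

theorem proc_inv {V : Type} {L : List V} {U : Set V} {E : Set (Sym2 V)} (h : Proc L U E) :
    (∀ v ∈ L, v ∈ U) ∧ (∀ a b, s(a, b) ∈ E → a ∈ U ∧ b ∈ U ∧ a ≠ b) := by
  induction h with
  | nil =>
    refine ⟨fun v hv => by simp at hv, fun a b hab => ?_⟩
    exact absurd hab (Set.notMem_empty _)
  | new L1 L2 U E v h hv ih =>
    refine ⟨fun w hw => ?_, fun a b hab => ?_⟩
    · rcases List.mem_append.1 hw with hw | hw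
      · exact Set.mem_insert_of_mem _ (ih.1 w (List.mem_append.2 (Or.inl hw)))
      · rcases List.mem_cons.1 hw with hw | hw
        · rw [hw]
          exact Set.mem_insert _ _
        · exact Set.mem_insert_of_mem _ (ih.1 w (List.mem_append.2 (Or.inr hw)))
    · obtain ⟨h1, h2, h3⟩ := ih.2 a b hab
      exact ⟨Set.mem_insert_of_mem _ h1, Set.mem_insert_of_mem _ h2, h3⟩
  | dup L1 L2 U E v h ih =>
    refine ⟨fun w hw => ih.1 w ?_, ih.2⟩
    simp only [List.mem_append, List.mem_cons] at hw ⊢
    tauto
  | edge L1 L2 U E u v h huv ih =>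
    refine ⟨ih.1, fun a b hab => ?_⟩
    rcases Set.mem_insert_iff.1 hab with hab | hab
    · have hu : u ∈ U := ih.1 u (by simp)
      have hv : v ∈ U := ih.1 v (by simp)
      rcases Sym2.eq_iff.1 hab with ⟨h1, h2⟩ | ⟨h1, h2⟩
      · rw [h1, h2]
        exact ⟨hu, hv, huv⟩
      · rw [h1, h2]
        exact ⟨hv, hu, huv.symm⟩
    · exact ih.2 a b hab
  | drop L1 L2 U E v h ih =>
    refine ⟨fun w hw => ih.1 w ?_, ih.2⟩
    simp only [List.mem_append, List.mem_cons] at hw ⊢
    tauto

theorem cnt_final {V : Type} [Fintype V] (G : SimpleGraph V) (k : ℕ) :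
    cnt k [] G.edgeSet [] = (Nat.card (G.Coloring (Fin k)) : ℝ) := by
  classical
  unfold cnt
  have h1 : ∀ g : V → Fin k, ((∀ a b, s(a, b) ∈ G.edgeSet → g a ≠ g b) ∧
      ([] : List V).map g = []) ↔ (∀ a b, G.Adj a b → g a ≠ g b) := by
    intro g
    simp
  have h2 : (∑ g : V → Fin k, (if (∀ a b, s(a, b) ∈ G.edgeSet → g a ≠ g b) ∧
      ([] : List V).map g = [] then (1 : ℝ) else 0)) =
      ∑ g : V → Fin k, (if (∀ a b, G.Adj a b → g a ≠ g b) then (1 : ℝ) else 0) :=
    Finset.sum_congr rfl (fun g _ => by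
      by_cases h : ∀ a b, G.Adj a b → g a ≠ g b
      · rw [if_pos h, if_pos ((h1 g).2 h)]
      · rw [if_neg h, if_neg (fun h' => h ((h1 g).1 h'))])
  refine Eq.trans ?_ (h2.trans ?_)
  · refine Finset.sum_congr rfl (fun g _ => ?_)
    congr
  rw [Finset.sum_boole]
  congr 1
  let e : G.Coloring (Fin k) ≃ {g : V → Fin k // ∀ a b, G.Adj a b → g a ≠ g b} :=
    { toFun := fun C => ⟨fun v => C v, fun a b hab => C.valid hab⟩
      invFun := fun g => SimpleGraph.Coloring.mk g.1 (fun {a b} hab => g.2 a b hab)
      left_inv := fun C => by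
        ext v
        rfl
      right_inv := fun g => by
        apply Subtype.ext
        rfl }
  rw [Nat.card_congr e, Nat.card_eq_fintype_card, Fintype.card_subtype]

end

section
open Polynomial Pool.Agent.H207R2.BL

theorem shr_act (n k j : ℕ) (hj : j < n) (f : Fn (Fin (n + 1)) (Fin k))
    (hf : ∀ c x, f (Function.update c (pt n (j + 1)) x) = f c) (c : Fin (n + 1) → Fin k) :
    T (PR n k) (Shr j) f c = (k : ℝ) * f (Function.update c (pt n j) (c (pt n (j + 1)))) := by
  have h1 : pt n (j + 1) ≠ pt n j := fun h' => by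
    have := pt_inj n _ _ (by omega) (by omega) h'
    omega
  simp only [T, Shr, List.map_cons, List.map_nil, List.prod_cons, List.prod_nil, ev, mul_one,
    PR_even, PR_odd, Module.End.mul_apply, Cop_apply, Jop_apply, hf, Finset.sum_const,
    Finset.card_univ, Fintype.card_fin, nsmul_eq_mul, Function.update_self,
    Function.update_of_ne h1]
  rw [Finset.sum_ite_eq' Finset.univ (c (pt n (j + 1)))]
  simp

theorem shl_act (n k j : ℕ) (hj : j < n) (f : Fn (Fin (n + 1)) (Fin k))
    (hf : ∀ c x, f (Function.update c (pt n j) x) = f c) (c : Fin (n + 1) → Fin k) :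
    T (PR n k) (Shl j) f c = (k : ℝ) * f (Function.update c (pt n (j + 1)) (c (pt n j))) := by
  have h1 : pt n j ≠ pt n (j + 1) := fun h' => by
    have := pt_inj n _ _ (by omega) (by omega) h'
    omega
  simp only [T, Shl, List.map_cons, List.map_nil, List.prod_cons, List.prod_nil, ev, mul_one,
    PR_even, PR_odd, Module.End.mul_apply, Cop_apply, Jop_apply, hf, Finset.sum_const,
    Finset.card_univ, Fintype.card_fin, nsmul_eq_mul, Function.update_self,
    Function.update_of_ne h1]
  rw [Finset.sum_ite_eq Finset.univ (c (pt n j))]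
  simp

end

theorem T_append {M : ℕ} {q : ℝ} {A : Type} [Ring A] [Algebra ℝ A]
    (S : Pool.Agent.H207R2.BL.TL M q A) (v w : List Let) : T S (v ++ w) = T S v * T S w := by
  simp [T]

section
open Polynomial Pool.Agent.H207R2.BL

theorem ins_act_indep (n k p d : ℕ) (h : p + d ≤ n) (c : Fin (n + 1) → Fin k) (x : Fin k) :
    cl (up p) (p + d) (Function.update c (pt n p) x) = cl (up p) (p + d) c := by
  unfold cl
  apply List.map_congr_left
  intro i hi
  rw [List.mem_range] at hi
  have h1 : up p i ≤ n := by unfold up; split_ifs <;> omega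
  have h2 : up p i ≠ p := by unfold up; split_ifs <;> omega
  exact Function.update_of_ne (fun hh => h2 (pt_inj n _ _ h1 (by omega) hh)) _ _

theorem ins_act_shift (n k p d : ℕ) (h : p + (d + 1) ≤ n) (c : Fin (n + 1) → Fin k) :
    cl (up (p + 1)) (p + 1 + d) (Function.update c (pt n p) (c (pt n (p + 1)))) =
      cl (up p) (p + (d + 1)) c := by
  unfold cl
  rw [show p + (d + 1) = p + 1 + d by ring]
  apply List.map_congr_left
  intro i hi
  rw [List.mem_range] at hi
  by_cases hip : i = p
  · have h1 : up (p + 1) i = p := by unfold up; rw [if_pos (by omega), hip]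
    have h2 : up p i = p + 1 := by unfold up; rw [if_neg (by omega), hip]
    rw [h1, h2, Function.update_self]
  · have h1 : up (p + 1) i = up p i := by unfold up; split_ifs <;> omega
    have h2 : up p i ≤ n := by unfold up; split_ifs <;> omega
    have h3 : up p i ≠ p := by unfold up; split_ifs <;> omega
    rw [h1]
    exact Function.update_of_ne (fun hh => h3 (pt_inj n _ _ h2 (by omega) hh)) _ _

theorem ins_act_shr (n k : ℕ) (F : List (Fin k) → ℝ) : ∀ (d p : ℕ), p + d ≤ n →
    ∀ c : Fin (n + 1) → Fin k,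
    T (PR n k) (shrW p d) (fun c => F (cl (fun i => i) (p + d) c)) c =
      (k : ℝ) ^ d * F (cl (up p) (p + d) c) := by
  intro d
  induction d with
  | zero =>
    intro p _ c
    have h1 : cl (up p) (p + 0) c = cl (fun i => i) (p + 0) c := by
      unfold cl
      apply List.map_congr_left
      intro i hi
      rw [List.mem_range] at hi
      have h2 : up p i = i := by unfold up; rw [if_pos (by omega)]
      rw [h2]
    rw [h1, pow_zero, one_mul]
    simp [shrW, T]
  | succ d ih =>
    intro p h c
    have e : T (PR n k) (shrW p (d + 1)) (fun c => F (cl (fun i => i) (p + (d + 1)) c)) =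
        T (PR n k) (Shr p)
          (T (PR n k) (shrW (p + 1) d) (fun c => F (cl (fun i => i) (p + (d + 1)) c))) := by
      change T (PR n k) (Shr p ++ shrW (p + 1) d) _ = _
      rw [T_append]
      rfl
    have e2 : T (PR n k) (shrW (p + 1) d) (fun c => F (cl (fun i => i) (p + (d + 1)) c)) =
        fun c => (k : ℝ) ^ d * F (cl (up (p + 1)) (p + 1 + d) c) := by
      funext c
      have h3 := ih (p + 1) (by omega) c
      rw [show p + (d + 1) = p + 1 + d by ring]
      exact h3
    rw [e, e2, shr_act n k p (by omega)]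
    · rw [ins_act_shift n k p d h c]
      ring
    · intro c x
      rw [ins_act_indep n k (p + 1) d (by omega) c x]

theorem ins_act (n k p d : ℕ) (h : p + d ≤ n) (F : List (Fin k) → ℝ)
    (c : Fin (n + 1) → Fin k) :
    T (PR n k) (insW p d) (fun c => F (cl (fun i => i) (p + d) c)) c =
      (k : ℝ) ^ (d + 1) * F (cl (up p) (p + d) c) := by
  have e : T (PR n k) (insW p d) (fun c => F (cl (fun i => i) (p + d) c)) =
      Cop (pt n p) (T (PR n k) (shrW p d) (fun c => F (cl (fun i => i) (p + d) c))) := by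
    have h1 : T (PR n k) (insW p d) = Cop (pt n p) * T (PR n k) (shrW p d) := by
      simp only [insW, T, List.map_cons, List.prod_cons, ev, PR_even]
    rw [h1]
    rfl
  have e2 : T (PR n k) (shrW p d) (fun c => F (cl (fun i => i) (p + d) c)) =
      fun c => (k : ℝ) ^ d * F (cl (up p) (p + d) c) := by
    funext c
    exact ins_act_shr n k F d p h c
  rw [e, e2, Cop_apply]
  have e3 : ∀ x : Fin k, (k : ℝ) ^ d * F (cl (up p) (p + d) (Function.update c (pt n p) x)) =
      (k : ℝ) ^ d * F (cl (up p) (p + d) c) := by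
    intro x
    rw [ins_act_indep n k p d h c x]
  rw [Finset.sum_congr rfl (fun x _ => e3 x), Finset.sum_const, Finset.card_univ,
    Fintype.card_fin, nsmul_eq_mul]
  ring

end

section
open Polynomial Pool.Agent.H207R2.BL

theorem del_act_cl_congr {n k : ℕ} (σ τ : ℕ → ℕ) (m : ℕ) (c c' : Fin (n + 1) → Fin k)
    (h : ∀ i, i < m → c (pt n (σ i)) = c' (pt n (τ i))) : cl σ m c = cl τ m c' := by
  unfold cl
  apply List.map_congr_left
  intro i hi
  exact h i (List.mem_range.mp hi)

theorem del_act_split {n k : ℕ} (p d : ℕ) (c : Fin (n + 1) → Fin k) :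
    cl (fun i => i) (p + 1 + d) c =
      cl (fun i => i) p c ++ c (pt n p) :: cl (fun i => p + 1 + i) d c := by
  unfold cl
  rw [List.range_add, List.range_succ, List.map_append, List.map_append, List.map_map,
    List.append_assoc]
  rfl

theorem del_act_pt_ne {n : ℕ} (i j : ℕ) (hi : i ≤ n) (hj : j ≤ n) (h : i ≠ j) :
    pt n i ≠ pt n j := fun h' => h (pt_inj n i j hi hj h')

/-- the columns after `e` moves -/
def del_act_tau (p e i : ℕ) : ℕ := if i < e then p + i else p + 1 + i

theorem del_act_shl (n k p d : ℕ) (h : p + d ≤ n) (F : List (Fin k) → ℝ)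
    (g0 : Fn (Fin (n + 1)) (Fin k))
    (hg0 : ∀ c, g0 c = ∑ x : Fin k, F (cl (fun i => i) p c ++ x :: cl (fun i => p + 1 + i) d c)) :
    ∀ e, e ≤ d → ∀ c : Fin (n + 1) → Fin k, T (PR n k) (shlW p e) g0 c =
      (k : ℝ) ^ e * ∑ x : Fin k, F (cl (fun i => i) p c ++ x :: cl (del_act_tau p e) d c) := by
  intro e
  induction e with
  | zero =>
    intro _ c
    have e1 : T (PR n k) (shlW p 0) = 1 := rfl
    rw [e1, Module.End.one_apply, hg0, pow_zero, one_mul]
    apply Finset.sum_congr rfl
    intro x _
    congr 3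
  | succ e ih =>
    intro he c
    have ih' := ih (by omega)
    have e1 : T (PR n k) (shlW p (e + 1)) =
        T (PR n k) (Shl (p + e)) * T (PR n k) (shlW p e) := T_append _ _ _
    have hind : ∀ (c : Fin (n + 1) → Fin k) (x : Fin k),
        T (PR n k) (shlW p e) g0 (Function.update c (pt n (p + e)) x) =
          T (PR n k) (shlW p e) g0 c := by
      intro c y
      rw [ih', ih']
      congr 1
      apply Finset.sum_congr rfl
      intro x _
      have a1 : cl (fun i => i) p (Function.update c (pt n (p + e)) y) = cl (fun i => i) p c := by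
        apply del_act_cl_congr
        intro i hi
        exact Function.update_of_ne (del_act_pt_ne _ _ (by omega) (by omega) (by omega)) _ _
      have a2 : cl (del_act_tau p e) d (Function.update c (pt n (p + e)) y) =
          cl (del_act_tau p e) d c := by
        apply del_act_cl_congr
        intro i hi
        apply Function.update_of_ne
        unfold del_act_tau
        split_ifs with h'
        · exact del_act_pt_ne _ _ (by omega) (by omega) (by omega)
        · exact del_act_pt_ne _ _ (by omega) (by omega) (by omega)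
      rw [a1, a2]
    rw [e1, Module.End.mul_apply, shl_act n k (p + e) (by omega) _ hind c, ih', pow_succ']
    rw [mul_assoc]
    congr 2
    apply Finset.sum_congr rfl
    intro x _
    have a1 : cl (fun i => i) p
        (Function.update c (pt n (p + e + 1)) (c (pt n (p + e)))) = cl (fun i => i) p c := by
      apply del_act_cl_congr
      intro i hi
      exact Function.update_of_ne (del_act_pt_ne _ _ (by omega) (by omega) (by omega)) _ _
    have a2 : cl (del_act_tau p e) d
        (Function.update c (pt n (p + e + 1)) (c (pt n (p + e)))) =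
        cl (del_act_tau p (e + 1)) d c := by
      apply del_act_cl_congr
      intro i hi
      unfold del_act_tau
      rcases Nat.lt_trichotomy i e with h' | h' | h'
      · rw [if_pos h', if_pos (by omega)]
        exact Function.update_of_ne (del_act_pt_ne _ _ (by omega) (by omega) (by omega)) _ _
      · rw [if_neg (by omega), if_pos (by omega), h']
        have e2 : p + 1 + e = p + e + 1 := by omega
        rw [e2, Function.update_self]
      · rw [if_neg (by omega), if_neg (by omega)]
        exact Function.update_of_ne (del_act_pt_ne _ _ (by omega) (by omega) (by omega)) _ _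
    rw [a1, a2]

theorem del_act (n k p d : ℕ) (h : p + d ≤ n) (F : List (Fin k) → ℝ)
    (c : Fin (n + 1) → Fin k) :
    T (PR n k) (delW p d) (fun c => F (cl (fun i => i) (p + 1 + d) c)) c =
      (k : ℝ) ^ d * ∑ x : Fin k, F (cl (fun i => i) p c ++ x :: cl (fun i => p + i) d c) := by
  have e1 : T (PR n k) (delW p d) = T (PR n k) (shlW p d) * T (PR n k) [Let.C p] :=
    T_append _ _ _
  have hg0 : ∀ c, T (PR n k) [Let.C p] (fun c => F (cl (fun i => i) (p + 1 + d) c)) c =
      ∑ x : Fin k, F (cl (fun i => i) p c ++ x :: cl (fun i => p + 1 + i) d c) := by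
    intro c
    have e2 : T (PR n k) [Let.C p] = Cop (pt n p) := by
      unfold T
      rw [List.map_singleton, List.prod_singleton]
      exact PR_even n k p
    rw [e2, Cop_apply]
    apply Finset.sum_congr rfl
    intro x _
    rw [del_act_split, Function.update_self]
    have a1 : cl (fun i => i) p (Function.update c (pt n p) x) = cl (fun i => i) p c := by
      apply del_act_cl_congr
      intro i hi
      exact Function.update_of_ne (del_act_pt_ne _ _ (by omega) (by omega) (by omega)) _ _
    have a2 : cl (fun i => p + 1 + i) d (Function.update c (pt n p) x) =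
        cl (fun i => p + 1 + i) d c := by
      apply del_act_cl_congr
      intro i hi
      exact Function.update_of_ne (del_act_pt_ne _ _ (by omega) (by omega) (by omega)) _ _
    rw [a1, a2]
  rw [e1, Module.End.mul_apply, del_act_shl n k p d h F _ hg0 d le_rfl c]
  congr 1
  apply Finset.sum_congr rfl
  intro x _
  have a : cl (del_act_tau p d) d c = cl (fun i => p + i) d c := by
    apply del_act_cl_congr
    intro i hi
    unfold del_act_tau
    rw [if_pos hi]
  rw [a]

end

section
open Polynomial Pool.Agent.H207R2.BL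

namespace T18x

theorem shr (d : ℕ) : ∀ (p : ℕ) (w : List Let) (κ : ℕ → Bool), OK w κ →
    ∃ κ' : ℕ → Bool, OK (shrW p d ++ w) κ' ∧ (∀ i, i ≤ p → κ' i = κ i) ∧
      (∀ i, p ≤ i → i < p + d → κ' (i + 1) = κ i) := by
  induction d with
  | zero =>
    intro p w κ h
    exact ⟨κ, h, fun i _ => rfl, fun i h1 h2 => absurd h2 (by omega)⟩
  | succ d ih =>
    intro p w κ h
    obtain ⟨κ1, h1, h2, h3⟩ := ih (p + 1) w κ h
    have e1 := OK.C (p + 1) (κ p) _ _ h1
    have e2 := OK.J p _ _ e1 (by
      rw [Function.update_self, Function.update_of_ne (by omega), h2 p (by omega)])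
    have e3 := OK.C p (κ p) _ _ e2
    refine ⟨_, e3, fun i hi => ?_, fun i hi hi' => ?_⟩
    · by_cases hip : i = p
      · subst hip
        rw [Function.update_self]
      · rw [Function.update_of_ne hip, Function.update_of_ne (by omega), h2 i (by omega)]
    · rw [Function.update_of_ne (by omega)]
      by_cases hip : i = p
      · subst hip
        rw [Function.update_self]
      · rw [Function.update_of_ne (by omega), h3 i (by omega) (by omega)]

theorem shl (d : ℕ) : ∀ (p : ℕ) (w : List Let) (κ : ℕ → Bool), OK w κ →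
    ∃ κ' : ℕ → Bool, OK (shlW p d ++ w) κ' ∧ (∀ i, i < p → κ' i = κ i) ∧
      (∀ i, p ≤ i → i < p + d → κ' i = κ (i + 1)) ∧ (∀ i, p + d < i → κ' i = κ i) := by
  induction d with
  | zero =>
    intro p w κ h
    exact ⟨κ, h, fun i _ => rfl, fun i h1 h2 => absurd h2 (by omega), fun i _ => rfl⟩
  | succ d ih =>
    intro p w κ h
    obtain ⟨κ1, h1, h2, h3, h4⟩ := ih p w κ h
    have e1 := OK.C (p + d) (κ (p + d + 1)) _ _ h1
    have e2 := OK.J (p + d) _ _ e1 (by
      rw [Function.update_self, Function.update_of_ne (by omega), h4 _ (by omega)])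
    have e3 := OK.C (p + d + 1) (κ (p + d + 1)) _ _ e2
    refine ⟨_, e3, fun i hi => ?_, fun i hi hi' => ?_, fun i hi => ?_⟩
    · rw [Function.update_of_ne (by omega), Function.update_of_ne (by omega), h2 i hi]
    · rw [Function.update_of_ne (by omega)]
      by_cases hip : i = p + d
      · subst hip
        rw [Function.update_self]
      · rw [Function.update_of_ne hip, h3 i hi (by omega)]
    · rw [Function.update_of_ne (by omega), Function.update_of_ne (by omega), h4 i (by omega)]

end T18x

-- W5
theorem ok_ins (w : List Let) (κ : ℕ → Bool) (h : OK w κ) (p d : ℕ) (b : Bool) :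
    ∃ κ' : ℕ → Bool, OK (insW p d ++ w) κ' ∧ κ' p = b ∧ (∀ i, i < p → κ' i = κ i) ∧
      (∀ i, p ≤ i → i < p + d → κ' (i + 1) = κ i) := by
  obtain ⟨κ1, h1, h2, h3⟩ := T18x.shr d p w κ h
  refine ⟨_, OK.C p b _ _ h1, Function.update_self _ _ _, fun i hi => ?_, fun i hi hi' => ?_⟩
  · rw [Function.update_of_ne (by omega), h2 i hi.le]
  · rw [Function.update_of_ne (by omega), h3 i hi hi']

-- W6
theorem ok_del (w : List Let) (κ : ℕ → Bool) (h : OK w κ) (p d : ℕ) :
    ∃ κ' : ℕ → Bool, OK (delW p d ++ w) κ' ∧ (∀ i, i < p → κ' i = κ i) ∧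
      (∀ i, p ≤ i → i < p + d → κ' i = κ (i + 1)) := by
  have e := OK.C p (κ p) w κ h
  rw [Function.update_eq_self] at e
  obtain ⟨κ1, h1, h2, h3, -⟩ := T18x.shl d p (Let.C p :: w) κ e
  refine ⟨κ1, ?_, h2, h3⟩
  unfold delW
  rw [List.append_assoc]
  exact h1

end

section
open Polynomial Pool.Agent.H207R2.BL

theorem inr_ins_shrW (n p d : ℕ) (h : p + d ≤ n) : ∀ l ∈ shrW p d, InR n l := by
  induction d generalizing p with
  | zero => intro l hl; simp [shrW] at hl
  | succ d ih =>
    intro l hl
    simp only [shrW, Shr, List.mem_append, List.mem_cons, List.not_mem_nil, or_false] at hl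
    rcases hl with (rfl | rfl | rfl) | hl
    · show p ≤ n
      omega
    · show p < n
      omega
    · show p + 1 ≤ n
      omega
    · exact ih (p + 1) (by omega) l hl

theorem inr_ins (n p d : ℕ) (h : p + d ≤ n) : ∀ l ∈ insW p d, InR n l := by
  intro l hl
  simp only [insW, List.mem_cons] at hl
  rcases hl with rfl | hl
  · show p ≤ n
    omega
  · exact inr_ins_shrW n p d h l hl

theorem inr_del_shlW (n p d : ℕ) (h : p + d ≤ n) : ∀ l ∈ shlW p d, InR n l := by
  induction d with
  | zero => intro l hl; simp [shlW] at hl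
  | succ d ih =>
    intro l hl
    simp only [shlW, Shl, List.mem_append, List.mem_cons, List.not_mem_nil, or_false] at hl
    rcases hl with (rfl | rfl | rfl) | hl
    · show p + d + 1 ≤ n
      omega
    · show p + d < n
      omega
    · show p + d ≤ n
      omega
    · exact ih (by omega) l hl

theorem inr_del (n p d : ℕ) (h : p + d ≤ n) : ∀ l ∈ delW p d, InR n l := by
  intro l hl
  simp only [delW, List.mem_append, List.mem_singleton] at hl
  rcases hl with hl | rfl
  · exact inr_del_shlW n p d h l hl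
  · show p ≤ n
    omega

theorem good_nil {V : Type} [Fintype V] (col : V → Bool) : Good col ([] : List V) ∅ := by
  classical
  refine ⟨[], fun _ => false, 0, Fintype.card V, 0, OK.nil _, ?_, ?_, by simp, ?_⟩
  · intro i hi
    simp at hi
  · intro l hl
    simp at hl
  · intro n _ k _ c
    have h1 : cnt k ([] : List V) ∅ (cl (fun i => i) ([] : List V).length c) =
        (k : ℝ) ^ Fintype.card V := by
      unfold cnt cl
      simp
    rw [h1]
    simp [T]

theorem T_expd {M : ℕ} {q : ℝ} {A : Type} [Ring A] [Algebra ℝ A] (S : TL M q A)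
    (w : List Let) : T S w = ((expd w).map (fun a => a.1 • S.W a.2)).sum := by
  induction w with
  | nil => simp [T, expd, TL.W]
  | cons l w ih =>
    have h1 : T S (l :: w) = ev S l * T S w := by simp [T]
    have hc : ∀ (j : ℕ) (c : ℝ), ((expd w).map
        ((fun a : ℝ × List ℕ => a.1 • S.W a.2) ∘ fun a => (c * a.1, j :: a.2))).sum =
        c • (S.e j * T S w) := by
      intro j c
      rw [ih, ← List.sum_map_mul_left, List.smul_sum, List.map_map]
      congr 1
      apply List.map_congr_left
      intro a _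
      simp [TL.W, mul_smul]
    cases l with
    | C i =>
      rw [h1]
      simp only [expd, List.map_map]
      have := hc (2 * i) 1
      simp only [one_mul, one_smul] at this
      rw [this]
      rfl
    | J i =>
      rw [h1]
      simp only [expd, List.map_map]
      have := hc (2 * i + 1) 1
      simp only [one_mul, one_smul] at this
      rw [this]
      rfl
    | X i =>
      rw [h1]
      simp only [expd, List.map_append, List.sum_append, List.map_map]
      have := hc (2 * i + 1) (-1)
      simp only [neg_mul, one_mul, neg_smul, one_smul] at this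
      rw [this, ← ih]
      show (1 - S.e (2 * i + 1)) * T S w = _
      rw [sub_mul, one_mul, sub_eq_add_neg]

theorem expd_lt (n : ℕ) (w : List Let) (hw : ∀ l ∈ w, InR n l) :
    ∀ a ∈ expd w, ∀ j ∈ a.2, j < 2 * n + 1 := by
  induction w with
  | nil =>
    intro a ha j hj
    simp only [expd, List.mem_singleton] at ha
    subst ha
    simp at hj
  | cons l w ih =>
    have ih' := ih fun l hl => hw l (List.mem_cons_of_mem _ hl)
    have hl := hw l (List.mem_cons_self ..)
    intro a ha j hj
    cases l with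
    | C i =>
      have hi : i ≤ n := hl
      simp only [expd, List.mem_map] at ha
      obtain ⟨b, hb, rfl⟩ := ha
      rcases List.mem_cons.1 hj with rfl | hj
      · omega
      · exact ih' b hb j hj
    | J i =>
      have hi : i < n := hl
      simp only [expd, List.mem_map] at ha
      obtain ⟨b, hb, rfl⟩ := ha
      rcases List.mem_cons.1 hj with rfl | hj
      · omega
      · exact ih' b hb j hj
    | X i =>
      have hi : i < n := hl
      simp only [expd, List.mem_append, List.mem_map] at ha
      rcases ha with ha | ⟨b, hb, rfl⟩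
      · exact ih' a ha j hj
      · rcases List.mem_cons.1 hj with rfl | hj
        · omega
        · exact ih' b hb j hj

end

section
open Polynomial Pool.Agent.H207R2.BL

theorem good_new_cl (n k p d : ℕ) (c : Fin (n + 1) → Fin k) :
    cl (up p) (p + d) c = cl (fun i => i) p c ++ cl (fun i => p + 1 + i) d c := by
  unfold cl
  rw [List.range_add, List.map_append, List.map_map]
  congr 1
  · apply List.map_congr_left
    intro i hi
    rw [List.mem_range] at hi
    simp [up, hi]
  · apply List.map_congr_left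
    intro i _
    simp only [Function.comp, up]
    rw [if_neg (by omega)]
    congr 2
    omega

theorem good_new_cl' (n k p d : ℕ) (c : Fin (n + 1) → Fin k) :
    cl (fun i => i) (p + (d + 1)) c =
      cl (fun i => i) p c ++ c (pt n p) :: cl (fun i => p + 1 + i) d c := by
  unfold cl
  rw [List.range_add, List.map_append, List.map_map, List.range_succ_eq_map, List.map_cons,
    List.map_map]
  congr 2
  apply List.map_congr_left
  intro i _
  simp only [Function.comp]
  congr 2
  omega

theorem good_new_inr {n : ℕ} {l : Let} (h : InR n l) : InR (n + 1) l := by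
  cases l <;> simp only [InR] at h ⊢ <;> omega

theorem good_new {V : Type} [Fintype V] (col : V → Bool) (L1 L2 : List V) (E : Set (Sym2 V))
    (v : V) (hv1 : v ∉ L1) (hv2 : v ∉ L2) (hE : ∀ u, s(u, v) ∉ E)
    (h : Good col (L1 ++ L2) E) : Good col (L1 ++ v :: L2) E := by
  obtain ⟨w, κ, N, a, b, hok, hcol, hin, hlen, heq⟩ := h
  obtain ⟨κ', hok', hb', hlt', hge'⟩ := ok_ins w κ hok L1.length L2.length (col v)
  have hlen' : L1.length + L2.length ≤ N := by
    rw [List.length_append] at hlen
    exact hlen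
  refine ⟨insW L1.length L2.length ++ w, κ', N + 1, a, b + L2.length + 2, hok', ?_, ?_, ?_, ?_⟩
  · intro i hi
    rw [List.length_append, List.length_cons] at hi
    rcases lt_trichotomy i L1.length with h1 | h1 | h1
    · rw [hlt' i h1, hcol i (by rw [List.length_append]; omega), List.getElem_append_left h1,
        List.getElem_append_left h1]
    · subst h1
      rw [hb']
      simp
    · obtain ⟨j, rfl⟩ : ∃ j, i = j + 1 := ⟨i - 1, by omega⟩
      have h2 : L1.length ≤ j := by omega
      have h3 : j < L1.length + L2.length := by omega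
      rw [hge' j h2 h3, hcol j (by rw [List.length_append]; omega),
        List.getElem_append_right h2, List.getElem_append_right (by omega)]
      obtain ⟨m, rfl⟩ : ∃ m, j = L1.length + m := ⟨j - L1.length, by omega⟩
      have h4 : L1.length + m + 1 - L1.length = m + 1 := by omega
      have h5 : L1.length + m - L1.length = m := by omega
      simp only [h4, h5, List.getElem_cons_succ]
  · intro l hl
    rw [List.mem_append] at hl
    rcases hl with hl | hl
    · exact inr_ins (N + 1) L1.length L2.length (by omega) l hl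
    · exact good_new_inr (hin l hl)
  · rw [List.length_append, List.length_cons]
    omega
  · intro n hn k hk c
    have hk0 : (k : ℝ) ≠ 0 := by
      have : 0 < k := hk
      positivity
    have hka : (k : ℝ) ^ a ≠ 0 := pow_ne_zero _ hk0
    have hF : (T (PR n k) w (fun _ => 1)) = fun c : Fin (n + 1) → Fin k =>
        (fun l => (k : ℝ) ^ b / (k : ℝ) ^ a * cnt k (L1 ++ L2) E l)
          (cl (fun i => i) (L1.length + L2.length) c) := by
      funext c
      have := heq n (by omega) k hk c
      rw [List.length_append] at this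
      simp only
      field_simp
      linarith
    have hins := ins_act n k L1.length L2.length (by omega)
      (fun l => (k : ℝ) ^ b / (k : ℝ) ^ a * cnt k (L1 ++ L2) E l) c
    rw [T_append, Module.End.mul_apply, hF]
    refine (congrArg (fun r => (k : ℝ) ^ a * r) hins).trans ?_
    rw [good_new_cl, List.length_append, List.length_cons, good_new_cl',
      ← cnt_new k L1 L2 E v hv1 hv2 hE _ _ (c (pt n L1.length)) (by simp [cl])]
    field_simp
    ring

end

section
open Polynomial Pool.Agent.H207R2.BL

theorem good_dup_cl_add {n k : ℕ} (σ : ℕ → ℕ) (m d : ℕ) (c : Fin (n + 1) → Fin k) :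
    cl σ (m + d) c = cl σ m c ++ cl (fun i => σ (m + i)) d c := by
  simp [cl, List.range_add, List.map_append, Function.comp_def]

theorem good_dup_cl_succ {n k : ℕ} (σ : ℕ → ℕ) (d : ℕ) (c : Fin (n + 1) → Fin k) :
    cl σ (d + 1) c = c (pt n (σ 0)) :: cl (fun i => σ (i + 1)) d c := by
  simp [cl, List.range_succ_eq_map, Function.comp_def]

theorem good_dup_cl_congr {n k : ℕ} (σ τ : ℕ → ℕ) (d : ℕ) (c : Fin (n + 1) → Fin k)
    (h : ∀ i, i < d → σ i = τ i) : cl σ d c = cl τ d c := by
  unfold cl
  apply List.map_congr_left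
  intro i hi
  rw [h i (List.mem_range.1 hi)]

theorem good_dup_inr_mono {N M : ℕ} (h : N ≤ M) (l : Let) (hl : InR N l) : InR M l := by
  cases l <;> simp only [InR] at * <;> omega

theorem good_dup {V : Type} [Fintype V] (col : V → Bool) (L1 L2 : List V) (E : Set (Sym2 V))
    (v : V) (h : Good col (L1 ++ v :: L2) E) : Good col (L1 ++ v :: v :: L2) E := by
  obtain ⟨w, κ, N, a, b, hok, hκ, hr, hN, hT⟩ := h
  have hlen : (L1 ++ v :: L2).length = L1.length + 1 + L2.length := by simp; omega
  have hlen' : (L1 ++ v :: v :: L2).length = L1.length + (L2.length + 1 + 1) := by simp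
  have hp : L1.length < (L1 ++ v :: L2).length := by rw [hlen]; omega
  have e0 : κ L1.length = col v := by
    rw [hκ _ hp]; congr 1; simp
  obtain ⟨κ', hok', hb', hlow, hhigh⟩ := ok_ins w κ hok (L1.length + 1) L2.length (col v)
  refine ⟨Let.J L1.length :: (insW (L1.length + 1) L2.length ++ w), κ', N + 1, a,
    b + (L2.length + 1), OK.J _ _ _ hok' ?_, ?_, ?_, ?_, ?_⟩
  · rw [hlow _ (by omega), hb', e0]
  · intro i hi
    rcases lt_trichotomy i (L1.length + 1) with h1 | h1 | h1
    · rw [hlow i h1, hκ i (by rw [hlen]; omega)]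
      congr 1
      rcases Nat.lt_or_ge i L1.length with h2 | h2
      · rw [List.getElem_append_left h2, List.getElem_append_left h2]
      · have h3 : i = L1.length := by omega
        subst h3
        simp
    · subst h1
      rw [hb']
      congr 1
      rw [List.getElem_append_right (by omega)]
      simp
    · obtain ⟨j, rfl⟩ : ∃ j, i = j + 1 := ⟨i - 1, by omega⟩
      rw [hlen'] at hi
      rw [hhigh j (by omega) (by omega), hκ j (by rw [hlen]; omega)]
      congr 1
      rw [List.getElem_append_right (by omega), List.getElem_append_right (by omega)]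
      obtain ⟨t, rfl⟩ : ∃ t, j = L1.length + 1 + t := ⟨j - (L1.length + 1), by omega⟩
      have e1 : L1.length + 1 + t - L1.length = t + 1 := by omega
      have e2 : L1.length + 1 + t + 1 - L1.length = t + 1 + 1 := by omega
      simp only [e1, e2, List.getElem_cons_succ]
  · intro l hl
    rcases List.mem_cons.1 hl with rfl | hl
    · show L1.length < N + 1
      omega
    · rcases List.mem_append.1 hl with hl | hl
      · exact inr_ins (N + 1) (L1.length + 1) L2.length (by omega) l hl
      · exact good_dup_inr_mono (by omega) l (hr l hl)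
  · omega
  · intro n hn k hk c
    have hk0 : (k : ℝ) ≠ 0 := by
      have : (1 : ℝ) ≤ k := by exact_mod_cast hk
      positivity
    have hfun : (T (PR n k) w (fun _ => 1)) = fun c : Fin (n + 1) → Fin k =>
        (fun l : List (Fin k) => (k : ℝ) ^ b / (k : ℝ) ^ a * cnt k (L1 ++ v :: L2) E l)
          (cl (fun i => i) (L1.length + 1 + L2.length) c) := by
      funext c
      have h1 := hT n (by omega) k hk c
      rw [hlen] at h1
      simp only
      have ha : (k : ℝ) ^ a ≠ 0 := pow_ne_zero _ hk0
      field_simp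
      linarith
    have hins := ins_act n k (L1.length + 1) L2.length (by omega)
      (fun l : List (Fin k) => (k : ℝ) ^ b / (k : ℝ) ^ a * cnt k (L1 ++ v :: L2) E l) c
    have key : (T (PR n k) (Let.J L1.length :: (insW (L1.length + 1) L2.length ++ w))
          (fun _ => 1)) c =
        if c (pt n L1.length) = c (pt n (L1.length + 1)) then
          (T (PR n k) (insW (L1.length + 1) L2.length) (T (PR n k) w (fun _ => 1))) c else 0 := by
      have : T (PR n k) (Let.J L1.length :: (insW (L1.length + 1) L2.length ++ w)) =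
          (PR n k).e (2 * L1.length + 1) *
            (T (PR n k) (insW (L1.length + 1) L2.length) * T (PR n k) w) := by
        rw [← T_append]
        simp [T, ev]
      rw [this, PR_odd, Module.End.mul_apply, Module.End.mul_apply, Jop_apply]
    have hcl : cl (fun i => i) (L1 ++ v :: v :: L2).length c =
        cl (fun i => i) L1.length c ++ c (pt n L1.length) :: c (pt n (L1.length + 1)) ::
          cl (fun i => L1.length + (i + 1 + 1)) L2.length c := by
      rw [hlen', good_dup_cl_add, good_dup_cl_succ, good_dup_cl_succ]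
      rfl
    have hup : cl (up (L1.length + 1)) (L1.length + 1 + L2.length) c =
        cl (fun i => i) L1.length c ++ c (pt n L1.length) ::
          cl (fun i => L1.length + (i + 1 + 1)) L2.length c := by
      have e3 : L1.length + 1 + L2.length = L1.length + (L2.length + 1) := by omega
      rw [e3, good_dup_cl_add, good_dup_cl_succ]
      have e4 : cl (up (L1.length + 1)) L1.length c = cl (fun i => i) L1.length c := by
        apply good_dup_cl_congr
        intro i hi
        simp only [up]
        rw [if_pos (by omega)]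
      have e5 : up (L1.length + 1) (L1.length + 0) = L1.length := by
        simp [up]
      have e6 : cl (fun i => up (L1.length + 1) (L1.length + (i + 1))) L2.length c =
          cl (fun i => L1.length + (i + 1 + 1)) L2.length c := by
        apply good_dup_cl_congr
        intro i hi
        simp only [up]
        rw [if_neg (by omega)]
        omega
      rw [e4, e5, e6]
    rw [key, hcl, cnt_dup k L1 L2 E v _ _ _ _ (by simp [cl]), hfun, hins, hup]
    split_ifs with hc
    · have ha : (k : ℝ) ^ a ≠ 0 := pow_ne_zero _ hk0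
      have hX : ∀ (A B D Y : ℝ), A ≠ 0 → A * (D * (B / A * Y)) = B * D * Y := by
        intro A B D Y hA
        field_simp
      rw [pow_add (k : ℝ) b (L2.length + 1)]
      exact hX _ _ _ _ ha
    · simp

end

section
open Polynomial Pool.Agent.H207R2.BL

theorem good_edge_cl_add {n k : ℕ} (σ : ℕ → ℕ) (m d : ℕ) (c : Fin (n + 1) → Fin k) :
    cl σ (m + d) c = cl σ m c ++ cl (fun i => σ (m + i)) d c := by
  simp [cl, List.range_add, List.map_append, Function.comp_def]

theorem good_edge_cl_succ {n k : ℕ} (σ : ℕ → ℕ) (d : ℕ) (c : Fin (n + 1) → Fin k) :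
    cl σ (d + 1) c = c (pt n (σ 0)) :: cl (fun i => σ (i + 1)) d c := by
  simp [cl, List.range_succ_eq_map, Function.comp_def]

theorem good_edge {V : Type} [Fintype V] (col : V → Bool) (L1 L2 : List V) (E : Set (Sym2 V))
    (u v : V) (huv : col u ≠ col v) (h : Good col (L1 ++ u :: v :: L2) E) :
    Good col (L1 ++ u :: v :: L2) (insert s(u, v) E) := by
  obtain ⟨w, κ, N, a, b, hok, hκ, hr, hN, hT⟩ := h
  have hlen : (L1 ++ u :: v :: L2).length = L1.length + (L2.length + 1 + 1) := by simp
  have hp : L1.length < (L1 ++ u :: v :: L2).length := by rw [hlen]; omega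
  have hp1 : L1.length + 1 < (L1 ++ u :: v :: L2).length := by rw [hlen]; omega
  have e0 : κ L1.length = col u := by
    rw [hκ _ hp]; congr 1; simp
  have e1 : κ (L1.length + 1) = col v := by
    rw [hκ _ hp1]; congr 1
    rw [List.getElem_append_right (by omega)]; simp
  refine ⟨Let.X L1.length :: w, κ, N, a, b, OK.X _ _ _ hok (by rw [e0, e1]; exact huv), hκ, ?_, hN, ?_⟩
  · intro l hl
    rcases List.mem_cons.1 hl with rfl | hl
    · show L1.length < N
      omega
    · exact hr l hl
  · intro n hn k hk c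
    have h1 := hT n hn k hk c
    have key : (T (PR n k) (Let.X L1.length :: w) (fun _ => 1)) c =
        if c (pt n L1.length) = c (pt n (L1.length + 1)) then 0 else
          (T (PR n k) w (fun _ => 1)) c := by
      have : T (PR n k) (Let.X L1.length :: w) =
          (1 - (PR n k).e (2 * L1.length + 1)) * T (PR n k) w := by
        simp [T, ev]
      rw [this, PR_odd, Module.End.mul_apply, LinearMap.sub_apply, Module.End.one_apply]
      show T (PR n k) w (fun _ => 1) c - Jop _ _ (T (PR n k) w (fun _ => 1)) c = _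
      rw [Jop_apply]
      split_ifs <;> simp
    have hcl : cl (fun i => i) (L1 ++ u :: v :: L2).length c =
        cl (fun i => i) L1.length c ++ c (pt n L1.length) :: c (pt n (L1.length + 1)) ::
          cl (fun i => L1.length + (i + 1 + 1)) L2.length c := by
      rw [hlen, good_edge_cl_add, good_edge_cl_succ, good_edge_cl_succ]
      rfl
    rw [key, hcl, cnt_edge k L1 L2 E u v _ _ _ _ (by simp [cl])]
    rw [hcl] at h1
    split_ifs with hc
    · simp
    · exact h1

end

section
open Polynomial Pool.Agent.H207R2.BL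

theorem good_drop_cl {n k : ℕ} (p d : ℕ) (c : Fin (n + 1) → Fin k) :
    cl (fun i => i) (p + d) c = cl (fun i => i) p c ++ cl (fun i => p + i) d c := by
  unfold cl
  rw [List.range_add, List.map_append, List.map_map]
  rfl

theorem good_drop {V : Type} [Fintype V] (col : V → Bool) (L1 L2 : List V) (E : Set (Sym2 V))
    (v : V) (h : Good col (L1 ++ v :: L2) E) : Good col (L1 ++ L2) E := by
  obtain ⟨w, κ, N, a, b, hok, hκ, hin, hlen, hid⟩ := h
  have hl : (L1 ++ v :: L2).length = L1.length + 1 + L2.length := by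
    simp only [List.length_append, List.length_cons]; omega
  rw [hl] at hlen
  obtain ⟨κ', hok', hκ1, hκ2⟩ := ok_del w κ hok L1.length L2.length
  refine ⟨delW L1.length L2.length ++ w, κ', N, a, b + L2.length, hok', ?_, ?_, ?_, ?_⟩
  · intro i hi
    rw [List.length_append] at hi
    rcases lt_or_ge i L1.length with h1 | h1
    · rw [hκ1 i h1, hκ i (by rw [hl]; omega), List.getElem_append_left h1,
        List.getElem_append_left h1]
    · rw [hκ2 i h1 hi, hκ (i + 1) (by rw [hl]; omega), List.getElem_append_right h1,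
        List.getElem_append_right (by omega)]
      congr 1
      have h2 : i + 1 - L1.length = (i - L1.length) + 1 := by omega
      simp only [h2, List.getElem_cons_succ]
  · intro l hl'
    rcases List.mem_append.1 hl' with h1 | h1
    · exact inr_del N L1.length L2.length (by omega) l h1
    · exact hin l h1
  · rw [List.length_append]; omega
  · intro n hn k hk c
    have hd := del_act n k L1.length L2.length (by omega)
      (fun l => (k : ℝ) ^ b * cnt k (L1 ++ v :: L2) E l) c
    have hg : (fun c : Fin (n + 1) → Fin k => (k : ℝ) ^ b * cnt k (L1 ++ v :: L2) E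
        (cl (fun i => i) (L1.length + 1 + L2.length) c)) =
        (k : ℝ) ^ a • (T (PR n k) w (fun _ => 1)) := by
      funext c'
      rw [← hl]
      exact (hid n hn k hk c').symm
    rw [hg, map_smul] at hd
    rw [T_append, Module.End.mul_apply]
    have hd' : (k : ℝ) ^ a * (T (PR n k) (delW L1.length L2.length))
        ((T (PR n k) w) (fun _ => 1)) c = _ := hd
    rw [hd', List.length_append, good_drop_cl]
    rw [← cnt_drop k L1 L2 E v (cl (fun i => i) L1.length c)
      (cl (fun i => L1.length + i) L2.length c) (by simp [cl])]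
    rw [← Finset.mul_sum, pow_add]
    ring

end

section
open Polynomial Pool.Agent.H207R2.BL

theorem good_of_proc {V : Type} [Fintype V] (col : V → Bool) {L : List V} {U : Set V}
    {E : Set (Sym2 V)} (h : Proc L U E) (hb : Bip col E) : Good col L E := by
  induction h with
  | nil => exact good_nil col
  | new L1 L2 U E v h hv ih =>
    obtain ⟨h1, h2⟩ := proc_inv h
    refine good_new col L1 L2 E v ?_ ?_ ?_ (ih hb)
    · intro hv1
      exact hv (h1 v (List.mem_append_left _ hv1))
    · intro hv1
      exact hv (h1 v (List.mem_append_right _ hv1))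
    · intro u hu
      exact hv (h2 u v hu).2.1
  | dup L1 L2 U E v h ih => exact good_dup col L1 L2 E v (ih hb)
  | edge L1 L2 U E u v h huv ih =>
    refine good_edge col L1 L2 E u v ?_ (ih ?_)
    · exact hb u v (Set.mem_insert _ _)
    · intro a b hab
      exact hb a b (Set.mem_insert_of_mem _ hab)
  | drop L1 L2 U E v h ih => exact good_drop col L1 L2 E v (ih hb)

end

section
open Polynomial Pool.Agent.H207R2.BL

theorem T25_om_s0 (n : ℕ) (w : Bool → ℝ) (hw : ∀ x, 0 < w x) : 0 < om n w (s0 n) := by
  unfold om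
  apply Finset.prod_pos
  intro i hi
  have hi' : i < n + 1 := Finset.mem_range.1 hi
  have h2 : s0 n (st n (2 * i)) = true := by
    simp only [s0]
    rw [st_val n _ (by omega)]
    simp
  have h3 : s0 n (st n (2 * i + 1)) = false := by
    simp only [s0]
    rw [st_val n _ (by omega)]
    simp
  rw [h2, h3]
  simpa [cup] using hw _

theorem T25_om_nonneg (n : ℕ) (w : Bool → ℝ) (hw : ∀ x, 0 < w x)
    (s : Fin (2 * n + 2) → Bool) : 0 ≤ om n w s := by
  unfold om
  apply Finset.prod_nonneg
  intro i _
  unfold cup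
  split_ifs
  · exact (hw _).le
  · exact le_rfl

theorem T25_U (n : ℕ) (κ : ℕ → Bool) (w : Bool → ℝ) (s : Fin (2 * n + 2) → Bool)
    (h : om n w s ≠ 0) : U n κ s = 1 := by
  unfold U
  apply Finset.prod_eq_one
  intro i hi
  have h1 := Finset.prod_ne_zero_iff.1 h i hi
  unfold sg
  split_ifs with h2 h3
  · exfalso
    apply h1
    simp [cup, h3]
  · rfl
  · rfl

-- V1
theorem gpos_om (n : ℕ) (κ : ℕ → Bool) (w : Bool → ℝ) (hw : ∀ x, 0 < w x) :
    GPos n κ (om n w) := by
  refine ⟨fun s => ?_, T25_om_s0 n w hw⟩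
  by_cases h : om n w s = 0
  · rw [h, mul_zero]
  · rw [T25_U n κ w s h, one_mul]
    exact T25_om_nonneg n w hw s

-- V6
theorem gpos_ip (n : ℕ) (κ : ℕ → Bool) (w : Bool → ℝ) (hw : ∀ x, 0 < w x)
    (g : Fn (Fin (2 * n + 2)) Bool) (hg : GPos n κ g) : 0 < ip (om n w) g := by
  unfold ip
  refine Finset.sum_pos' (fun s _ => ?_) ⟨s0 n, Finset.mem_univ _, mul_pos (T25_om_s0 n w hw) hg.2⟩
  by_cases h : om n w s = 0
  · rw [h, zero_mul]
  · have h1 := hg.1 s
    rw [T25_U n κ w s h, one_mul] at h1
    exact mul_nonneg (T25_om_nonneg n w hw s) h1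

end

section
open Polynomial Pool.Agent.H207R2.BL Function

theorem T26_ne (n a b : ℕ) (ha : a ≤ 2 * n + 1) (hb : b ≤ 2 * n + 1) (h : a ≠ b) :
    st n a ≠ st n b := fun h' => h (st_inj n a b ha hb h')

/-- changing the column `i` (whose two spins differ) and its class -/
theorem T26_U (n : ℕ) (κ : ℕ → Bool) (i : ℕ) (hi : i ≤ n) (b x : Bool)
    (s : Fin (2 * n + 2) → Bool) (hs : s (st n (2 * i + 1)) = !(s (st n (2 * i)))) :
    U n (update κ i b) s = U n κ (update (update s (st n (2 * i)) x) (st n (2 * i + 1)) (!x)) := by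
  set s' := update (update s (st n (2 * i)) x) (st n (2 * i + 1)) (!x) with hs'
  have hother : ∀ j, j ≤ 2 * n + 1 → j ≠ 2 * i → j ≠ 2 * i + 1 → s' (st n j) = s (st n j) := by
    intro j hj h1 h2
    rw [hs', update_of_ne (T26_ne n _ _ hj (by omega) h2),
      update_of_ne (T26_ne n _ _ hj (by omega) h1)]
  have ha : s' (st n (2 * i)) = x := by
    rw [hs', update_of_ne (T26_ne n _ _ (by omega) (by omega) (by omega)), update_self]
  have hb : s' (st n (2 * i + 1)) = !x := by
    rw [hs', update_self]
  unfold U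
  refine Finset.prod_congr rfl fun j hj => ?_
  have hjn : j ≤ n := Nat.lt_succ_iff.1 (Finset.mem_range.1 hj)
  by_cases h1 : j = i
  · subst h1
    have e1 : sg n s j = 1 := by
      unfold sg
      rw [hs]
      cases s (st n (2 * j)) <;> simp
    have e2 : sg n s' j = 1 := by
      unfold sg
      rw [ha, hb]
      cases x <;> simp
    rw [e1, e2]
    simp
  · rw [update_of_ne h1]
    unfold sg
    rw [hother (2 * j) (by omega) (by omega) (by omega),
      hother (2 * j + 1) (by omega) (by omega) (by omega)]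

theorem T26_U0 (n : ℕ) (κ : ℕ → Bool) : U n κ (s0 n) = 1 := by
  unfold U
  refine Finset.prod_eq_one fun j hj => ?_
  have hjn : j ≤ n := Nat.lt_succ_iff.1 (Finset.mem_range.1 hj)
  have : sg n (s0 n) j = 1 := by
    unfold sg s0
    rw [st_val n _ (by omega), st_val n _ (by omega)]
    simp
  rw [this]
  simp

theorem gpos_C (n : ℕ) (κ : ℕ → Bool) (w : Bool → ℝ) (hw : ∀ x, 0 < w x) (i : ℕ) (hi : i ≤ n)
    (b : Bool) (g : Fn (Fin (2 * n + 2)) Bool) (hg : GPos n κ g) :
    GPos n (Function.update κ i b) (Eop w (st n (2 * i)) (st n (2 * i + 1)) g) := by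
  constructor
  · intro s
    rw [Eop_apply]
    unfold cup
    split_ifs with hs
    · unfold Bf
      rw [mul_left_comm, Finset.mul_sum]
      refine mul_nonneg (hw _).le (Finset.sum_nonneg fun x _ => ?_)
      rw [mul_left_comm, T26_U n κ i hi b x s hs]
      exact mul_nonneg (hw _).le (hg.1 _)
    · rw [zero_mul, mul_zero]
  · have h1 : s0 n (st n (2 * i)) = true := by
      unfold s0
      rw [st_val n _ (by omega)]
      simp
    have h2 : s0 n (st n (2 * i + 1)) = false := by
      unfold s0
      rw [st_val n _ (by omega)]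
      simp
    rw [Eop_apply]
    unfold cup
    rw [if_pos (by rw [h1, h2]; rfl)]
    refine mul_pos (hw _) ?_
    unfold Bf
    rw [Fintype.sum_bool]
    have e1 : update (update (s0 n) (st n (2 * i)) true) (st n (2 * i + 1)) (!true) = s0 n := by
      rw [← h1, update_eq_self, h1, Bool.not_true, ← h2, update_eq_self]
    rw [e1]
    refine add_pos_of_pos_of_nonneg (mul_pos (hw _) hg.2) (mul_nonneg (hw _).le ?_)
    have h3 := hg.1 (update (update (s0 n) (st n (2 * i)) false) (st n (2 * i + 1)) (!false))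
    rw [← T26_U n κ i hi b false (s0 n) (by rw [h1, h2]; rfl), T26_U0, one_mul] at h3
    exact h3

end

section
open Polynomial Pool.Agent.H207R2.BL Function

theorem T27_ne (n a b : ℕ) (ha : a ≤ 2 * n + 1) (hb : b ≤ 2 * n + 1) (h : a ≠ b) :
    st n a ≠ st n b := fun h' => h (st_inj n a b ha hb h')

theorem T27_r (p q : Bool) : (if p = !q then (-1:ℝ) else 1) = -1 * (if p = q then -1 else 1) := by
  cases p <;> cases q <;> simp

theorem T27_l (p q : Bool) : (if (!p) = q then (-1:ℝ) else 1) = -1 * (if p = q then -1 else 1) := by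
  cases p <;> cases q <;> simp

theorem T27_U (n : ℕ) (κ : ℕ → Bool) (i : ℕ) (hi : i < n) (hκ : κ i = κ (i + 1))
    (s : Fin (2 * n + 2) → Bool) :
    U n κ (update (update s (st n (2 * i + 1)) (!(s (st n (2 * i + 1)))))
      (st n (2 * i + 2)) (!(s (st n (2 * i + 2))))) = U n κ s := by
  set s' := update (update s (st n (2 * i + 1)) (!(s (st n (2 * i + 1)))))
      (st n (2 * i + 2)) (!(s (st n (2 * i + 2)))) with hs'
  have hother : ∀ j, j ≤ 2 * n + 1 → j ≠ 2 * i + 1 → j ≠ 2 * i + 2 → s' (st n j) = s (st n j) := by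
    intro j hj h1 h2
    rw [hs', update_of_ne (T27_ne n _ _ hj (by omega) h2),
      update_of_ne (T27_ne n _ _ hj (by omega) h1)]
  have ha : s' (st n (2 * i + 1)) = !(s (st n (2 * i + 1))) := by
    rw [hs', update_of_ne (T27_ne n _ _ (by omega) (by omega) (by omega)), update_self]
  have hb : s' (st n (2 * i + 2)) = !(s (st n (2 * i + 2))) := by
    rw [hs', update_self]
  unfold U
  have hfac : ∀ j ∈ Finset.range (n + 1), (if κ j then sg n s' j else 1) =
      ((if j = i then (if κ i then (-1:ℝ) else 1) else 1) *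
        (if j = i + 1 then (if κ (i + 1) then (-1:ℝ) else 1) else 1)) *
        (if κ j then sg n s j else 1) := by
    intro j hj
    have hjn : j ≤ n := Nat.lt_succ_iff.1 (Finset.mem_range.1 hj)
    by_cases h1 : j = i
    · subst h1
      rw [if_pos rfl, if_neg (by omega : ¬ j = j + 1), mul_one]
      by_cases h3 : κ j = true
      · rw [if_pos h3, if_pos h3, if_pos h3]
        unfold sg
        rw [ha, hother (2 * j) (by omega) (by omega) (by omega)]
        exact T27_r _ _
      · rw [if_neg h3, if_neg h3, if_neg h3, mul_one]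
    by_cases h2 : j = i + 1
    · subst h2
      rw [if_neg h1, if_pos rfl, one_mul]
      by_cases h3 : κ (i + 1) = true
      · rw [if_pos h3, if_pos h3, if_pos h3]
        unfold sg
        have e1 : 2 * (i + 1) = 2 * i + 2 := by ring
        rw [e1, hb, hother (2 * i + 2 + 1) (by omega) (by omega) (by omega)]
        exact T27_l _ _
      · rw [if_neg h3, if_neg h3, if_neg h3, mul_one]
    · rw [if_neg h1, if_neg h2, one_mul, one_mul]
      unfold sg
      rw [hother (2 * j) (by omega) (by omega) (by omega),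
        hother (2 * j + 1) (by omega) (by omega) (by omega)]
  rw [Finset.prod_congr rfl hfac, Finset.prod_mul_distrib, Finset.prod_mul_distrib,
    Finset.prod_ite_eq', Finset.prod_ite_eq', if_pos (Finset.mem_range.2 (by omega)),
    if_pos (Finset.mem_range.2 (by omega))]
  have h4 : (if κ i then (-1:ℝ) else 1) * (if κ (i + 1) then (-1:ℝ) else 1) = 1 := by
    rw [← hκ]
    cases κ i <;> simp
  rw [h4]
  ring

theorem gpos_J (n : ℕ) (κ : ℕ → Bool) (w : Bool → ℝ) (hw : ∀ x, 0 < w x) (i : ℕ) (hi : i < n)
    (hκ : κ i = κ (i + 1)) (g : Fn (Fin (2 * n + 2)) Bool) (hg : GPos n κ g) :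
    GPos n κ (Eop w (st n (2 * i + 1)) (st n (2 * i + 2)) g) := by
  set a := st n (2 * i + 1) with ha
  set b := st n (2 * i + 2) with hb
  have hab : a ≠ b := T27_ne n _ _ (by omega) (by omega) (by omega)
  have hval : ∀ s : Fin (2 * n + 2) → Bool, s b = !(s a) →
      Eop w a b g s =
        w (s a) * (w (s a) * g s + w (!(s a)) * g (update (update s a (!(s a))) b (!(s b)))) := by
    intro s hs
    have e1 : Bf w a b g s = w (s a) * g s +
        w (!(s a)) * g (update (update s a (!(s a))) b (!(s b))) := by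
      have hself : update (update s a (s a)) b (!(s a)) = s := by
        rw [update_eq_self, ← hs, update_eq_self]
      have hsb : (!(s b)) = !(!(s a)) := by rw [hs]
      unfold Bf
      rw [Fintype.sum_bool, hsb]
      generalize hx : s a = x at *
      cases x
      · simp only [Bool.not_false, Bool.not_true] at hself ⊢
        rw [hself]
        ring
      · simp only [Bool.not_false, Bool.not_true] at hself ⊢
        rw [hself]
    have e2 : cup w (s a) (s b) = w (s a) := by
      unfold cup
      rw [if_pos hs]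
    rw [Eop_apply, e1, e2]
  constructor
  · intro s
    by_cases hs : s b = !(s a)
    · rw [hval s hs]
      have h1 := hg.1 s
      have h2 := hg.1 (update (update s a (!(s a))) b (!(s b)))
      rw [T27_U n κ i hi hκ s] at h2
      have h3 : 0 ≤ w (s a) * w (s a) := mul_nonneg (hw _).le (hw _).le
      have h4 : 0 ≤ w (s a) * w (!(s a)) := mul_nonneg (hw _).le (hw _).le
      have h5 := mul_nonneg h3 h1
      have h6 := mul_nonneg h4 h2
      nlinarith
    · have : Eop w a b g s = 0 := by
        rw [Eop_apply]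
        unfold cup
        rw [if_neg hs, zero_mul]
      rw [this, mul_zero]
  · have hsa : s0 n a = false := by
      simp only [s0, ha]
      rw [st_val n _ (by omega)]
      simp
    have hsb : s0 n b = true := by
      simp only [s0, hb]
      rw [st_val n _ (by omega)]
      simp
    rw [hval (s0 n) (by rw [hsa, hsb]; rfl)]
    have hU : U n κ (s0 n) = 1 := by
      unfold U
      refine Finset.prod_eq_one fun j hj => ?_
      have hjn : j ≤ n := Nat.lt_succ_iff.1 (Finset.mem_range.1 hj)
      have : sg n (s0 n) j = 1 := by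
        unfold sg s0
        rw [st_val n _ (by omega), st_val n _ (by omega)]
        simp
      rw [this]
      simp
    have h2 := hg.1 (update (update (s0 n) a (!(s0 n a))) b (!(s0 n b)))
    rw [T27_U n κ i hi hκ (s0 n), hU, one_mul] at h2
    have h3 : 0 < w (s0 n a) := hw _
    have h5 : 0 < w (s0 n a) * g (s0 n) := mul_pos h3 hg.2
    have h6 := mul_nonneg (hw (!(s0 n a))).le h2
    exact mul_pos h3 (add_pos_of_pos_of_nonneg h5 h6)

end

section
open Polynomial Pool.Agent.H207R2.BL Function

theorem T28_r (p q : Bool) : (if p = !q then (-1:ℝ) else 1) = -1 * (if p = q then -1 else 1) := by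
  cases p <;> cases q <;> simp

theorem T28_l (p q : Bool) : (if (!p) = q then (-1:ℝ) else 1) = -1 * (if p = q then -1 else 1) := by
  cases p <;> cases q <;> simp

theorem T28_ne (n a b : ℕ) (ha : a ≤ 2 * n + 1) (hb : b ≤ 2 * n + 1) (h : a ≠ b) :
    st n a ≠ st n b := fun h' => h (st_inj n a b ha hb h')

theorem T28_U (n : ℕ) (κ : ℕ → Bool) (i : ℕ) (hi : i < n) (hκ : κ i ≠ κ (i + 1))
    (s : Fin (2 * n + 2) → Bool) :
    U n κ (update (update s (st n (2 * i + 1)) (!(s (st n (2 * i + 1)))))
      (st n (2 * i + 2)) (!(s (st n (2 * i + 2))))) = - U n κ s := by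
  set s' := update (update s (st n (2 * i + 1)) (!(s (st n (2 * i + 1)))))
      (st n (2 * i + 2)) (!(s (st n (2 * i + 2)))) with hs'
  have hother : ∀ j, j ≤ 2 * n + 1 → j ≠ 2 * i + 1 → j ≠ 2 * i + 2 → s' (st n j) = s (st n j) := by
    intro j hj h1 h2
    rw [hs', update_of_ne (T28_ne n _ _ hj (by omega) h2),
      update_of_ne (T28_ne n _ _ hj (by omega) h1)]
  have ha : s' (st n (2 * i + 1)) = !(s (st n (2 * i + 1))) := by
    rw [hs', update_of_ne (T28_ne n _ _ (by omega) (by omega) (by omega)), update_self]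
  have hb : s' (st n (2 * i + 2)) = !(s (st n (2 * i + 2))) := by
    rw [hs', update_self]
  unfold U
  have hfac : ∀ j ∈ Finset.range (n + 1), (if κ j then sg n s' j else 1) =
      ((if j = i then (if κ i then (-1:ℝ) else 1) else 1) *
        (if j = i + 1 then (if κ (i + 1) then (-1:ℝ) else 1) else 1)) *
        (if κ j then sg n s j else 1) := by
    intro j hj
    have hjn : j ≤ n := Nat.lt_succ_iff.1 (Finset.mem_range.1 hj)
    by_cases h1 : j = i
    · subst h1
      rw [if_pos rfl, if_neg (by omega : ¬ j = j + 1), mul_one]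
      by_cases h3 : κ j = true
      · rw [if_pos h3, if_pos h3, if_pos h3]
        unfold sg
        rw [ha, hother (2 * j) (by omega) (by omega) (by omega)]
        exact T28_r _ _
      · rw [if_neg h3, if_neg h3, if_neg h3, mul_one]
    by_cases h2 : j = i + 1
    · subst h2
      rw [if_neg h1, if_pos rfl, one_mul]
      by_cases h3 : κ (i + 1) = true
      · rw [if_pos h3, if_pos h3, if_pos h3]
        unfold sg
        have e1 : 2 * (i + 1) = 2 * i + 2 := by ring
        rw [e1, hb, hother (2 * i + 2 + 1) (by omega) (by omega) (by omega)]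
        exact T28_l _ _
      · rw [if_neg h3, if_neg h3, if_neg h3, mul_one]
    · rw [if_neg h1, if_neg h2, one_mul, one_mul]
      unfold sg
      rw [hother (2 * j) (by omega) (by omega) (by omega),
        hother (2 * j + 1) (by omega) (by omega) (by omega)]
  rw [Finset.prod_congr rfl hfac, Finset.prod_mul_distrib, Finset.prod_mul_distrib,
    Finset.prod_ite_eq', Finset.prod_ite_eq', if_pos (Finset.mem_range.2 (by omega)),
    if_pos (Finset.mem_range.2 (by omega))]
  have h4 : (if κ i then (-1:ℝ) else 1) * (if κ (i + 1) then (-1:ℝ) else 1) = -1 := by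
    revert hκ
    cases κ i <;> cases κ (i + 1) <;> simp
  rw [h4]
  ring

theorem gpos_X (n : ℕ) (κ : ℕ → Bool) (w : Bool → ℝ) (hw : ∀ x, 0 < w x)
    (hw1 : w true * w false = 1) (i : ℕ) (hi : i < n)
    (hκ : κ i ≠ κ (i + 1)) (g : Fn (Fin (2 * n + 2)) Bool) (hg : GPos n κ g) :
    GPos n κ (g - (w true ^ 2 + w false ^ 2)⁻¹ • Eop w (st n (2 * i + 1)) (st n (2 * i + 2)) g) := by
  set a := st n (2 * i + 1) with ha
  set b := st n (2 * i + 2) with hb
  have hab : a ≠ b := T28_ne n _ _ (by omega) (by omega) (by omega)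
  set δ := w true ^ 2 + w false ^ 2 with hδ
  have hδ0 : 0 < δ := by
    have := hw true
    have := hw false
    positivity
  have hval : ∀ s : Fin (2 * n + 2) → Bool, s b = !(s a) →
      (g - δ⁻¹ • Eop w a b g) s =
        w (!(s a)) ^ 2 / δ * g s - δ⁻¹ * g (update (update s a (!(s a))) b (!(s b))) := by
    intro s hs
    have e1 : Bf w a b g s = w (s a) * g s +
        w (!(s a)) * g (update (update s a (!(s a))) b (!(s b))) := by
      have hself : update (update s a (s a)) b (!(s a)) = s := by
        rw [update_eq_self, ← hs, update_eq_self]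
      have hsb : (!(s b)) = !(!(s a)) := by rw [hs]
      unfold Bf
      rw [Fintype.sum_bool, hsb]
      generalize hx : s a = x at *
      cases x
      · simp only [Bool.not_false, Bool.not_true] at hself ⊢
        rw [hself]
        ring
      · simp only [Bool.not_false, Bool.not_true] at hself ⊢
        rw [hself]
    have e2 : cup w (s a) (s b) = w (s a) := by
      unfold cup
      rw [if_pos hs]
    have e3 : w (s a) * w (!(s a)) = 1 := w_mul_not w hw1 _
    have e4 : w (s a) ^ 2 + w (!(s a)) ^ 2 = δ := by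
      rw [hδ]
      cases s a
      · simp only [Bool.not_false]
        ring
      · simp only [Bool.not_true]
    show g s - δ⁻¹ * (Eop w a b g s) = _
    rw [Eop_apply, e1, e2]
    have e5 : δ⁻¹ * (w (s a) * (w (s a) * g s +
        w (!(s a)) * g (update (update s a (!(s a))) b (!(s b))))) =
        w (s a) ^ 2 / δ * g s + δ⁻¹ * g (update (update s a (!(s a))) b (!(s b))) := by
      have : δ⁻¹ * (w (s a) * (w (s a) * g s +
        w (!(s a)) * g (update (update s a (!(s a))) b (!(s b))))) =
        w (s a) ^ 2 / δ * g s + (w (s a) * w (!(s a))) *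
          (δ⁻¹ * g (update (update s a (!(s a))) b (!(s b)))) := by ring
      rw [this, e3, one_mul]
    rw [e5]
    have e6 : w (!(s a)) ^ 2 / δ = 1 - w (s a) ^ 2 / δ := by
      field_simp
      linarith
    rw [e6]
    ring
  constructor
  · intro s
    by_cases hs : s b = !(s a)
    · rw [hval s hs]
      have h1 := hg.1 s
      have h2 := hg.1 (update (update s a (!(s a))) b (!(s b)))
      rw [T28_U n κ i hi hκ s] at h2
      have h3 : 0 ≤ w (!(s a)) ^ 2 / δ := by positivity
      have h4 : 0 ≤ δ⁻¹ := by positivity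
      have h5 := mul_nonneg h3 h1
      have h6 := mul_nonneg h4 h2
      nlinarith
    · have : (g - δ⁻¹ • Eop w a b g) s = g s := by
        show g s - δ⁻¹ * (Eop w a b g s) = _
        rw [Eop_apply]
        unfold cup
        rw [if_neg hs]
        ring
      rw [this]
      exact hg.1 s
  · have hsa : s0 n a = false := by
      simp only [s0, ha]
      rw [st_val n _ (by omega)]
      simp
    have hsb : s0 n b = true := by
      simp only [s0, hb]
      rw [st_val n _ (by omega)]
      simp
    rw [hval (s0 n) (by rw [hsa, hsb]; rfl)]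
    have hU : U n κ (s0 n) = 1 := by
      unfold U
      refine Finset.prod_eq_one fun j hj => ?_
      have hjn : j ≤ n := Nat.lt_succ_iff.1 (Finset.mem_range.1 hj)
      have : sg n (s0 n) j = 1 := by
        unfold sg s0
        rw [st_val n _ (by omega), st_val n _ (by omega)]
        simp
      rw [this]
      simp
    have h2 := hg.1 (update (update (s0 n) a (!(s0 n a))) b (!(s0 n b)))
    rw [T28_U n κ i hi hκ (s0 n), hU] at h2
    have h3 : 0 < w (!(s0 n a)) ^ 2 / δ := by
      have := hw (!(s0 n a))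
      positivity
    have h4 : 0 < δ⁻¹ := by positivity
    have h5 := mul_pos h3 hg.2
    nlinarith

end

section
open Polynomial Pool.Agent.H207R2.BL

theorem gpos_word_smul (n : ℕ) (κ : ℕ → Bool) (g : Fn (Fin (2 * n + 2)) Bool) (c : ℝ)
    (hc : 0 < c) (hg : GPos n κ g) : GPos n κ (c • g) := by
  refine ⟨fun s => ?_, ?_⟩
  · have h := mul_nonneg hc.le (hg.1 s)
    have e : U n κ s * (c • g) s = c * (U n κ s * g s) := by
      show U n κ s * (c * g s) = _
      ring
    rw [e]
    exact h
  · show 0 < c * g (s0 n)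
    exact mul_pos hc hg.2

theorem gpos_word (n : ℕ) (w : Bool → ℝ) (hw : w true * w false = 1) (hpos : ∀ x, 0 < w x)
    (q : ℝ) (hδ0 : w true ^ 2 + w false ^ 2 ≠ 0) (hq : q = (w true ^ 2 + w false ^ 2) ^ 2)
    (wd : List Let) (κ : ℕ → Bool) (hok : OK wd κ) (hr : ∀ l ∈ wd, InR n l) :
    GPos n κ (T (vert n (st n) (st_inj n) w hw (w true ^ 2 + w false ^ 2) q rfl hδ0 hq) wd
      (om n w)) := by
  have hδ : 0 < w true ^ 2 + w false ^ 2 := by
    have := hpos true
    positivity
  induction hok with
  | nil κ =>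
    have h : T (vert n (st n) (st_inj n) w hw (w true ^ 2 + w false ^ 2) q rfl hδ0 hq) [] = 1 := by
      simp [T]
    rw [h, Module.End.one_apply]
    exact gpos_om n κ w hpos
  | C i b wd κ h ih =>
    have hi : i ≤ n := hr _ List.mem_cons_self
    have ih' := ih (fun l hl => hr l (List.mem_cons_of_mem _ hl))
    have h1 : T (vert n (st n) (st_inj n) w hw (w true ^ 2 + w false ^ 2) q rfl hδ0 hq)
        (Let.C i :: wd) (om n w) = (w true ^ 2 + w false ^ 2) •
        Eop w (st n (2 * i)) (st n (2 * i + 1))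
          (T (vert n (st n) (st_inj n) w hw (w true ^ 2 + w false ^ 2) q rfl hδ0 hq) wd
            (om n w)) := by
      have h2 : T (vert n (st n) (st_inj n) w hw (w true ^ 2 + w false ^ 2) q rfl hδ0 hq)
        (Let.C i :: wd) = ((if Even (2 * i) then (w true ^ 2 + w false ^ 2) else
          (w true ^ 2 + w false ^ 2)⁻¹) • Eop w (st n (2 * i)) (st n (2 * i + 1))) *
          T (vert n (st n) (st_inj n) w hw (w true ^ 2 + w false ^ 2) q rfl hδ0 hq) wd := by
        unfold T
        rw [List.map_cons, List.prod_cons]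
        rfl
      rw [h2, if_pos (even_two_mul i)]
      rfl
    rw [h1]
    exact gpos_word_smul n _ _ _ hδ (gpos_C n κ w hpos i hi b _ ih')
  | J i wd κ h hκ ih =>
    have hi : i < n := hr _ List.mem_cons_self
    have ih' := ih (fun l hl => hr l (List.mem_cons_of_mem _ hl))
    have h1 : T (vert n (st n) (st_inj n) w hw (w true ^ 2 + w false ^ 2) q rfl hδ0 hq)
        (Let.J i :: wd) (om n w) = (w true ^ 2 + w false ^ 2)⁻¹ •
        Eop w (st n (2 * i + 1)) (st n (2 * i + 2))
          (T (vert n (st n) (st_inj n) w hw (w true ^ 2 + w false ^ 2) q rfl hδ0 hq) wd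
            (om n w)) := by
      have h2 : T (vert n (st n) (st_inj n) w hw (w true ^ 2 + w false ^ 2) q rfl hδ0 hq)
        (Let.J i :: wd) = ((if Even (2 * i + 1) then (w true ^ 2 + w false ^ 2) else
          (w true ^ 2 + w false ^ 2)⁻¹) • Eop w (st n (2 * i + 1)) (st n (2 * i + 1 + 1))) *
          T (vert n (st n) (st_inj n) w hw (w true ^ 2 + w false ^ 2) q rfl hδ0 hq) wd := by
        unfold T
        rw [List.map_cons, List.prod_cons]
        rfl
      have h3 : ¬ Even (2 * i + 1) := by
        rw [Nat.even_iff]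
        omega
      rw [h2, if_neg h3]
      rfl
    rw [h1]
    exact gpos_word_smul n _ _ _ (inv_pos.mpr hδ) (gpos_J n κ w hpos i hi hκ _ ih')
  | X i wd κ h hκ ih =>
    have hi : i < n := hr _ List.mem_cons_self
    have ih' := ih (fun l hl => hr l (List.mem_cons_of_mem _ hl))
    have h1 : T (vert n (st n) (st_inj n) w hw (w true ^ 2 + w false ^ 2) q rfl hδ0 hq)
        (Let.X i :: wd) (om n w) =
          T (vert n (st n) (st_inj n) w hw (w true ^ 2 + w false ^ 2) q rfl hδ0 hq) wd
            (om n w) - (w true ^ 2 + w false ^ 2)⁻¹ •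
        Eop w (st n (2 * i + 1)) (st n (2 * i + 2))
          (T (vert n (st n) (st_inj n) w hw (w true ^ 2 + w false ^ 2) q rfl hδ0 hq) wd
            (om n w)) := by
      have h2 : T (vert n (st n) (st_inj n) w hw (w true ^ 2 + w false ^ 2) q rfl hδ0 hq)
        (Let.X i :: wd) = (1 - ((if Even (2 * i + 1) then (w true ^ 2 + w false ^ 2) else
          (w true ^ 2 + w false ^ 2)⁻¹) • Eop w (st n (2 * i + 1)) (st n (2 * i + 1 + 1)))) *
          T (vert n (st n) (st_inj n) w hw (w true ^ 2 + w false ^ 2) q rfl hδ0 hq) wd := by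
        unfold T
        rw [List.map_cons, List.prod_cons]
        rfl
      have h3 : ¬ Even (2 * i + 1) := by
        rw [Nat.even_iff]
        omega
      rw [h2, if_neg h3]
      rfl
    rw [h1]
    exact gpos_X n κ w hpos hw i hi hκ _ ih'

end

section
open Polynomial Pool.Agent.H207R2.BL

theorem state_T_aux (n : ℕ) (L : List (ℝ × List ℕ)) (hL : ∀ a ∈ L, ∀ j ∈ a.2, j < 2 * n + 1) :
    ∃ R : List (ℝ × ℤ), ∀ (q : ℝ), q ≠ 0 → ∀ (A : Type) [Ring A] [Algebra ℝ A]
      (S : TL (2 * n + 1) q A) (F : State S),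
      F.φ ((L.map (fun a => a.1 • S.W a.2)).sum) =
        ((R.map (fun a => a.1 * q ^ a.2)).sum) * F.φ 1 := by
  induction L with
  | nil =>
    refine ⟨[], ?_⟩
    intro q _ A _ _ S F
    simp
  | cons a L ih =>
    obtain ⟨R, hR⟩ := ih (fun b hb => hL b (List.mem_cons_of_mem _ hb))
    obtain ⟨N, hN⟩ := state_eval n (2 * n + 1) le_rfl a.2 (hL a List.mem_cons_self)
    refine ⟨(a.1, N) :: R, ?_⟩
    intro q hq A _ _ S F
    rw [List.map_cons, List.sum_cons, map_add, map_smul, hN q hq A S F, hR q hq A S F,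
      List.map_cons, List.sum_cons, smul_eq_mul]
    ring

theorem state_T (n : ℕ) (w : List Let) (hw : ∀ l ∈ w, InR n l) :
    ∃ R : List (ℝ × ℤ), ∀ (q : ℝ), q ≠ 0 → ∀ (A : Type) [Ring A] [Algebra ℝ A]
      (S : TL (2 * n + 1) q A) (F : State S),
      F.φ (T S w) = ((R.map (fun a => a.1 * q ^ a.2)).sum) * F.φ 1 := by
  obtain ⟨R, hR⟩ := state_T_aux n (expd w) (expd_lt n w hw)
  refine ⟨R, ?_⟩
  intro q hq A _ _ S F
  rw [T_expd S w]
  exact hR q hq A S F

end

section
open Polynomial Pool.Agent.H207R2.BL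

namespace T31

lemma clear (R : List (ℝ × ℤ)) : ∃ (M : ℕ) (Q : ℝ[X]), ∀ x : ℝ, 0 < x →
    x ^ M * (R.map (fun r => r.1 * x ^ r.2)).sum = Q.eval x := by
  induction R with
  | nil => exact ⟨0, 0, fun x _ => by simp⟩
  | cons r R ih =>
    obtain ⟨M, Q, hQ⟩ := ih
    refine ⟨M + r.2.natAbs, C r.1 * X ^ (M + (r.2.natAbs + r.2).toNat) + X ^ r.2.natAbs * Q,
      fun x hx => ?_⟩
    have h1 : x ^ (M + r.2.natAbs) * x ^ r.2 = x ^ (M + (r.2.natAbs + r.2).toNat) := by
      rw [← zpow_natCast, ← zpow_natCast, ← zpow_add₀ hx.ne']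
      congr 1
      have h2 : (((r.2.natAbs : ℤ) + r.2).toNat : ℤ) = (r.2.natAbs : ℤ) + r.2 :=
        Int.toNat_of_nonneg (by omega)
      rw [Nat.cast_add, Nat.cast_add, h2]
      ring
    simp only [List.map_cons, List.sum_cons, eval_add, eval_mul, eval_C, eval_pow, eval_X]
    rw [← hQ x hx, ← h1, pow_add]
    ring

end T31

theorem laurent_eq (p : ℝ[X]) (a b : ℕ) (R : List (ℝ × ℤ))
    (h : ∀ k : ℕ, 1 ≤ k → (k : ℝ) ^ b * p.eval (k : ℝ) =
      (k : ℝ) ^ a * (R.map (fun r => r.1 * (k : ℝ) ^ r.2)).sum) (q : ℝ) (hq : 0 < q) :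
    q ^ b * p.eval q = q ^ a * (R.map (fun r => r.1 * q ^ r.2)).sum := by
  obtain ⟨M, Q, hQ⟩ := T31.clear R
  have hpoly : X ^ M * (X ^ b * p) = X ^ a * Q := by
    apply Polynomial.eq_of_infinite_eval_eq
    have hinf : (Set.range (fun k : ℕ => ((k + 1 : ℕ) : ℝ))).Infinite := by
      apply Set.infinite_range_of_injective
      intro i j hij
      have : ((i + 1 : ℕ) : ℝ) = ((j + 1 : ℕ) : ℝ) := hij
      exact Nat.succ_injective (Nat.cast_injective this)
    refine hinf.mono ?_
    rintro _ ⟨k, rfl⟩
    have hk : (0 : ℝ) < ((k + 1 : ℕ) : ℝ) := by positivity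
    simp only [Set.mem_ofPred_eq, eval_mul, eval_pow, eval_X]
    rw [h (k + 1) (by omega), ← hQ _ hk]
    ring
  have := congrArg (eval q) hpoly
  simp only [eval_mul, eval_pow, eval_X] at this
  rw [← hQ q hq] at this
  have hM : q ^ M ≠ 0 := pow_ne_zero _ hq.ne'
  apply mul_left_cancel₀ hM
  rw [this]
  ring

end

section
open Polynomial Pool.Agent.H207R2.BL

theorem exists_weights (q : ℝ) (hq : 4 ≤ q) : ∃ w : Bool → ℝ, w true * w false = 1 ∧
    (∀ x, 0 < w x) ∧ q = (w true ^ 2 + w false ^ 2) ^ 2 := by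
  have h2 : 2 ≤ Real.sqrt q := by
    rw [show (2 : ℝ) = Real.sqrt 4 by
      rw [show (4 : ℝ) = 2 ^ 2 by norm_num, Real.sqrt_sq (by norm_num)]]
    exact Real.sqrt_le_sqrt hq
  set d := Real.sqrt q with hd
  have hdd : d ^ 2 = q := Real.sq_sqrt (by linarith)
  set r := Real.sqrt (d ^ 2 - 4) with hr
  have hrr : r ^ 2 = d ^ 2 - 4 := Real.sq_sqrt (by nlinarith)
  have hr0 : 0 ≤ r := Real.sqrt_nonneg _
  set t := (d + r) / 2 with ht
  have ht0 : 0 < t := by positivity
  have htt : t * (d - t) = 1 := by
    rw [ht]; nlinarith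
  have hdt : 0 < d - t := by
    by_contra h
    push Not at h
    nlinarith
  refine ⟨fun b => if b then Real.sqrt t else Real.sqrt (d - t), ?_, ?_, ?_⟩
  · simp only [if_true, Bool.false_eq_true, if_false]
    rw [← Real.sqrt_mul ht0.le, htt, Real.sqrt_one]
  · intro x
    cases x
    · simpa using hdt
    · simpa using ht0
  · simp only [if_true, Bool.false_eq_true, if_false]
    rw [Real.sq_sqrt ht0.le, Real.sq_sqrt hdt.le, ← hdd]
    ring

end

section
open Polynomial Pool.Agent.H207R2.BL

/-- the integer values -/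
theorem good_pos_nat {V : Type} [Fintype V] (G : SimpleGraph V) (p : ℝ[X])
    (hp : IsChrom G p) (w : List Let) (N a b : ℕ) (k : ℕ) (hk : 1 ≤ k)
    (h : ∀ c : Fin (N + 1) → Fin k,
      (k : ℝ) ^ a * (T (PR N k) w (fun _ => 1)) c =
        (k : ℝ) ^ b * cnt k ([] : List V) G.edgeSet (cl (fun i => i) 0 c))
    (r : ℝ) (hr : ∀ F : State (PR N k), F.φ (T (PR N k) w) = r * F.φ 1) :
    (k : ℝ) ^ b * p.eval (k : ℝ) = (k : ℝ) ^ a * r := by
  have hP2 : ∀ j, j < 2 * N + 1 → ∀ f g : Fn (Fin (N + 1)) (Fin k),
      ip f ((PR N k).e j g) = ip ((PR N k).e j f) g :=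
    fun j hj f g => potts_symm N (pt N) (pt_inj N) _ _ j f g
  have hP1 : ∀ j, j < 2 * N + 1 → Even j →
      (PR N k).e j (fun _ => 1) = (k : ℝ) • (fun _ => (1 : ℝ)) := by
    intro j hj he
    obtain ⟨i, rfl⟩ := even_iff_exists_two_mul.1 he
    rw [PR_even]
    funext c
    simp [Cop_apply]
  have e1 := hr (vecState (PR N k) hP2 (fun _ => 1) hP1)
  change ip (fun _ => 1) (T (PR N k) w (fun _ => 1)) =
    r * ip (fun _ => 1) ((1 : Module.End ℝ (Fn (Fin (N + 1)) (Fin k))) (fun _ => 1)) at e1
  have e3 : ip (fun _ : Fin (N + 1) → Fin k => (1 : ℝ))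
      ((1 : Module.End ℝ (Fn (Fin (N + 1)) (Fin k))) (fun _ => 1)) = (k : ℝ) ^ (N + 1) := by
    simp [ip]
  have e2 : (k : ℝ) ^ a * ip (fun _ => 1) (T (PR N k) w (fun _ => 1)) =
      (k : ℝ) ^ (N + 1) * ((k : ℝ) ^ b * p.eval (k : ℝ)) := by
    unfold ip
    rw [Finset.mul_sum]
    have : ∀ c : Fin (N + 1) → Fin k, (k : ℝ) ^ a * (1 * (T (PR N k) w (fun _ => 1)) c) =
        (k : ℝ) ^ b * p.eval (k : ℝ) := by
      intro c
      rw [one_mul, h c, hp k, ← cnt_final G k]
      rfl
    rw [Finset.sum_congr rfl (fun c _ => this c)]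
    simp
  rw [e1, e3] at e2
  have hk0 : (k : ℝ) ^ (N + 1) ≠ 0 := by
    have : (k : ℝ) ≠ 0 := by
      have : (1 : ℝ) ≤ (k : ℝ) := by exact_mod_cast hk
      linarith
    positivity
  apply mul_left_cancel₀ hk0
  rw [← e2]
  ring

theorem good_pos {V : Type} [Fintype V] (col : V → Bool) (G : SimpleGraph V)
    (h : Good col [] G.edgeSet) (p : ℝ[X]) (hp : IsChrom G p) (q : ℝ) (hq : 4 ≤ q) :
    0 < p.eval q := by
  obtain ⟨wd, κ, N, a, b, hok, -, hr, -, hw⟩ := h
  obtain ⟨R, hR⟩ := state_T N wd hr
  have hq0 : q ≠ 0 := by linarith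
  have hqpos : 0 < q := by linarith
  have hL := laurent_eq p a b R (fun k hk => by
    have hk0 : (k : ℝ) ≠ 0 := by
      have : (1 : ℝ) ≤ (k : ℝ) := by exact_mod_cast hk
      linarith
    exact good_pos_nat G p hp wd N a b k hk (hw N le_rfl k hk) _
      (fun F => hR (k : ℝ) hk0 _ (PR N k) F)) q hqpos
  obtain ⟨w, hw1, hwpos, hδ⟩ := exists_weights q hq
  have hδ0 : w true ^ 2 + w false ^ 2 ≠ 0 := by
    have := hwpos true
    positivity
  let S := vert N (st N) (st_inj N) w hw1 (w true ^ 2 + w false ^ 2) q rfl hδ0 hδ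
  have hSsymm : ∀ j, j < 2 * N + 1 → ∀ f g : Fn (Fin (2 * N + 2)) Bool,
      ip f (S.e j g) = ip (S.e j f) g :=
    fun j hj f g => vert_symm N (st N) (st_inj N) w hw1 _ q rfl hδ0 hδ j hj f g
  have hSom : ∀ j, j < 2 * N + 1 → Even j → S.e j (om N w) = q • om N w := by
    intro j hj he
    obtain ⟨i, rfl⟩ := even_iff_exists_two_mul.1 he
    change ((if Even (2 * i) then (w true ^ 2 + w false ^ 2) else (w true ^ 2 + w false ^ 2)⁻¹) •
      Eop w (st N (2 * i)) (st N (2 * i + 1)) : Module.End ℝ (Fn (Fin (2 * N + 2)) Bool))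
        (om N w) = q • om N w
    rw [if_pos (even_two_mul i), LinearMap.smul_apply, Eop_om N w i (by omega), smul_smul, hδ]
    congr 1
    ring
  have hFpos : 0 < ip (om N w) (om N w) := om_pos N w hwpos
  have f1 := hR q hq0 _ S (vecState S hSsymm (om N w) hSom)
  change ip (om N w) (T S wd (om N w)) = _ * ip (om N w)
    ((1 : Module.End ℝ (Fn (Fin (2 * N + 2)) Bool)) (om N w)) at f1
  rw [Module.End.one_apply] at f1
  have hg : GPos N κ (T S wd (om N w)) :=
    gpos_word N w hw1 hwpos q hδ0 hδ wd κ hok hr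
  have hip : 0 < ip (om N w) (T S wd (om N w)) := gpos_ip N κ w hwpos _ hg
  rw [f1] at hip
  have hRpos : 0 < (R.map (fun r => r.1 * q ^ r.2)).sum := (pos_iff_pos_of_mul_pos hip).2 hFpos
  have hprod : 0 < q ^ b * p.eval q := by
    rw [hL]
    positivity
  exact (pos_iff_pos_of_mul_pos hprod).1 (by positivity)

end

section
open Polynomial Pool.Agent.H207R2.BL

/-- MAIN -/
theorem main {V : Type} [Fintype V] (G : SimpleGraph V) (hG : G.Colorable 2)
    (f : V → ℝ × ℝ) (hf : IsStraight G f) (p : ℝ[X]) (hp : IsChrom G p) (q : ℝ) (hq : 4 ≤ q) :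
    0 < p.eval q := by
  classical
  obtain ⟨C⟩ := hG
  have hb : Bip (fun v => decide (C v = 0)) G.edgeSet := by
    intro a b hab hne
    have h1 : C a ≠ C b := C.valid (SimpleGraph.mem_edgeSet G |>.1 hab)
    have h2 : (C a = 0) ↔ (C b = 0) := decide_eq_decide.1 hne
    apply h1
    have h3 : ∀ x y : Fin 2, (x = 0 ↔ y = 0) → x = y := by decide
    exact h3 _ _ h2
  exact good_pos _ G (good_of_proc _ (straight_proc f hf) hb) p hp q hq

end

end Pool.Agent.H110R3.BP
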