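import Pool.Agent.H207R2.BL.Defs
import Pool.Agent.H207R2.BL.Gram

/-!
Sweeping a plane graph: words in Temperley-Lieb letters, processes, straight line drawings.
-/

set_option autoImplicit false

namespace Pool.Agent.H110R3.BP

open Polynomial Pool.Agent.H207R2.BL

/-! ### words -/

/-- Letters: `C i` detaches column `i`, `J i` joins the columns `i` and `i+1`, `X i` puts an edge
between the columns `i` and `i+1`. -/
inductive Let : Type
  | C (i : ℕ) : Let
  | J (i : ℕ) : Let
  | X (i : ℕ) : Let

/-- Evaluation of a letter. -/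
def ev {M : ℕ} {q : ℝ} {A : Type} [Ring A] [Algebra ℝ A] (S : TL M q A) : Let → A
  | Let.C i => S.e (2 * i)
  | Let.J i => S.e (2 * i + 1)
  | Let.X i => 1 - S.e (2 * i + 1)

/-- Evaluation of a word (the head of the list is applied last). -/
def T {M : ℕ} {q : ℝ} {A : Type} [Ring A] [Algebra ℝ A] (S : TL M q A) (w : List Let) : A :=
  (w.map (ev S)).prod

/-- Letters on the columns `0, …, n`. -/
def InR (n : ℕ) : Let → Prop
  | Let.C i => i ≤ n
  | Let.J i => i < n
  | Let.X i => i < n

/-- `OK w κ`: the word `w` is consistent with classes of the columns; `κ` are the classes at the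
end. Detaching may change the class of a column, joined columns have equal classes, and edges are
between columns of different classes. -/
inductive OK : List Let → (ℕ → Bool) → Prop
  | nil (κ : ℕ → Bool) : OK [] κ
  | C (i : ℕ) (b : Bool) (w : List Let) (κ : ℕ → Bool) (h : OK w κ) :
      OK (Let.C i :: w) (Function.update κ i b)
  | J (i : ℕ) (w : List Let) (κ : ℕ → Bool) (h : OK w κ) (hi : κ i = κ (i + 1)) :
      OK (Let.J i :: w) κ
  | X (i : ℕ) (w : List Let) (κ : ℕ → Bool) (h : OK w κ) (hi : κ i ≠ κ (i + 1)) :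
      OK (Let.X i :: w) κ

/-! ### processes -/

/-- `Proc L U E`: the list of strands `L` (each strand carries a vertex), the set `U` of used
vertices and the set `E` of edges can be reached by a sweep. -/
inductive Proc {V : Type} : List V → Set V → Set (Sym2 V) → Prop
  | nil : Proc [] ∅ ∅
  | new (L1 L2 : List V) (U : Set V) (E : Set (Sym2 V)) (v : V) (h : Proc (L1 ++ L2) U E)
      (hv : v ∉ U) : Proc (L1 ++ v :: L2) (insert v U) E
  | dup (L1 L2 : List V) (U : Set V) (E : Set (Sym2 V)) (v : V) (h : Proc (L1 ++ v :: L2) U E) :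
      Proc (L1 ++ v :: v :: L2) U E
  | edge (L1 L2 : List V) (U : Set V) (E : Set (Sym2 V)) (u v : V)
      (h : Proc (L1 ++ u :: v :: L2) U E) (huv : u ≠ v) :
      Proc (L1 ++ u :: v :: L2) U (insert s(u, v) E)
  | drop (L1 L2 : List V) (U : Set V) (E : Set (Sym2 V)) (v : V) (h : Proc (L1 ++ v :: L2) U E) :
      Proc (L1 ++ L2) U E

/-- The edges of a process have ends of different colours. -/
def Bip {V : Type} (col : V → Bool) (E : Set (Sym2 V)) : Prop :=
  ∀ a b, s(a, b) ∈ E → col a ≠ col b

open Classical in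
/-- Number of maps `g : V → Fin k`, proper on `E`, with prescribed colours on the strands. -/
noncomputable def cnt {V : Type} [Fintype V] (k : ℕ) (L : List V) (E : Set (Sym2 V))
    (l : List (Fin k)) : ℝ :=
  ∑ g : V → Fin k, if (∀ a b, s(a, b) ∈ E → g a ≠ g b) ∧ L.map g = l then 1 else 0

/-- The colours of the columns `σ 0, …, σ (m-1)`. -/
def cl {n k : ℕ} (σ : ℕ → ℕ) (m : ℕ) (c : Fin (n + 1) → Fin k) : List (Fin k) :=
  (List.range m).map (fun i => c (pt n (σ i)))

/-! ### moving strands, gauge signs, expansions -/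

/-- move the strand in column `j` to the fresh column `j+1` -/
def Shr (j : ℕ) : List Let := [Let.C j, Let.J j, Let.C (j + 1)]

/-- move the strand in column `j+1` to the fresh column `j` -/
def Shl (j : ℕ) : List Let := [Let.C (j + 1), Let.J j, Let.C j]

/-- move the strands `p, …, p+d-1` to the right by one -/
def shrW : ℕ → ℕ → List Let
  | _, 0 => []
  | p, d + 1 => Shr p ++ shrW (p + 1) d

/-- move the strands `p+1, …, p+d` to the left by one -/
def shlW (p : ℕ) : ℕ → List Let
  | 0 => []
  | d + 1 => Shl (p + d) ++ shlW p d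

/-- insert a fresh column at position `p` when there are `p + d` strands -/
def insW (p d : ℕ) : List Let := Let.C p :: shrW p d

/-- remove the strand `p` when there are `p + 1 + d` strands -/
def delW (p d : ℕ) : List Let := shlW p d ++ [Let.C p]

/-- `i` below `p`, `i+1` from `p` on -/
def up (p i : ℕ) : ℕ := if i < p then i else i + 1

/-- the word of a process -/
def Good {V : Type} [Fintype V] (col : V → Bool) (L : List V) (E : Set (Sym2 V)) : Prop :=
  ∃ (w : List Let) (κ : ℕ → Bool) (N a b : ℕ), OK w κ ∧
    (∀ i (hi : i < L.length), κ i = col L[i]) ∧ (∀ l ∈ w, InR N l) ∧ L.length ≤ N ∧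
    ∀ n, N ≤ n → ∀ k : ℕ, 1 ≤ k → ∀ c : Fin (n + 1) → Fin k,
      (k : ℝ) ^ a * (T (PR n k) w (fun _ => 1)) c =
        (k : ℝ) ^ b * cnt k L E (cl (fun i => i) L.length c)

/-- the sign of a column: `1` if the two spins of column `i` differ, `-1` otherwise -/
def sg (n : ℕ) (s : Fin (2 * n + 2) → Bool) (i : ℕ) : ℝ :=
  if s (st n (2 * i)) = s (st n (2 * i + 1)) then -1 else 1

/-- the gauge sign of a spin configuration -/
noncomputable def U (n : ℕ) (κ : ℕ → Bool) (s : Fin (2 * n + 2) → Bool) : ℝ :=
  ∏ i ∈ Finset.range (n + 1), if κ i then sg n s i else 1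

/-- the alternating spin configuration -/
def s0 (n : ℕ) : Fin (2 * n + 2) → Bool := fun i => decide (i.val % 2 = 0)

/-- gauge positivity of a vector -/
def GPos (n : ℕ) (κ : ℕ → Bool) (g : Fn (Fin (2 * n + 2)) Bool) : Prop :=
  (∀ s, 0 ≤ U n κ s * g s) ∧ 0 < g (s0 n)

/-- expansion of a word into words in the generators -/
def expd : List Let → List (ℝ × List ℕ)
  | [] => [(1, [])]
  | Let.C i :: w => (expd w).map (fun a => (a.1, (2 * i) :: a.2))
  | Let.J i :: w => (expd w).map (fun a => (a.1, (2 * i + 1) :: a.2))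
  | Let.X i :: w => expd w ++ (expd w).map (fun a => (-a.1, (2 * i + 1) :: a.2))

/-! ### straight line drawings -/

/-- A straight line drawing of `G` in the plane: vertices are distinct points, no vertex lies in
the interior of an edge, and the interiors of different edges are disjoint. -/
def IsStraight {V : Type} (G : SimpleGraph V) (f : V → ℝ × ℝ) : Prop :=
  Function.Injective f ∧
  (∀ u v w : V, G.Adj u v → f w ∉ openSegment ℝ (f u) (f v)) ∧
  (∀ u v u' v' : V, G.Adj u v → G.Adj u' v' → s(u, v) ≠ s(u', v') →
    Disjoint (openSegment ℝ (f u) (f v)) (openSegment ℝ (f u') (f v')))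

/-- A drawing by graphs of functions over the `x`-axis, with distinct abscissas. The edge between
`u` and `w` with `x u < x w` is the graph of `g u w` over the interval from `x u` to `x w`. -/
structure Mono {V : Type} (G : SimpleGraph V) (x y : V → ℝ) (g : V → V → ℝ → ℝ) : Prop where
  inj : Function.Injective x
  cont : ∀ u w, Continuous (g u w)
  left : ∀ u w, G.Adj u w → x u < x w → g u w (x u) = y u
  right : ∀ u w, G.Adj u w → x u < x w → g u w (x w) = y w
  vert : ∀ u w z, G.Adj u w → x u < x z → x z < x w → g u w (x z) ≠ y z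
  disj : ∀ u w u' w' t, G.Adj u w → G.Adj u' w' → (u, w) ≠ (u', w') → x u < t → t < x w →
    x u' < t → t < x w' → g u w t ≠ g u' w' t

/-- `e` is an edge crossing the vertical line at `t`. -/
def Act {V : Type} (G : SimpleGraph V) (x : V → ℝ) (t : ℝ) (e : V × V) : Prop :=
  G.Adj e.1 e.2 ∧ x e.1 < t ∧ t < x e.2

/-- `l` is the list of the edges crossing the vertical line at `t`, from bottom to top. -/
structure IsList {V : Type} (G : SimpleGraph V) (x : V → ℝ) (g : V → V → ℝ → ℝ) (t : ℝ)
    (l : List (V × V)) : Prop where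
  mem : ∀ e, e ∈ l ↔ Act G x t e
  sorted : l.Pairwise (fun e e' => g e.1 e.2 t < g e'.1 e'.2 t)

end Pool.Agent.H110R3.BP
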