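import Pool.Agent.H110R3.BP.Defs

/-! Task T1 (helper131): comparison of edges over an interval. -/

set_option autoImplicit false

namespace Pool.Agent.H110R3.BP

open Polynomial Pool.Agent.H207R2.BL

-- G1
theorem ivt_lt (g1 g2 : ℝ → ℝ) (h1 : Continuous g1) (h2 : Continuous g2) (s t : ℝ)
    (hne : ∀ r ∈ Set.uIcc s t, g1 r ≠ g2 r) (h : g1 s < g2 s) : g1 t < g2 t := by
  by_contra hc
  push Not at hc
  have hcont : ContinuousOn (fun r => g2 r - g1 r) (Set.uIcc s t) := (h2.sub h1).continuousOn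
  have h3 := intermediate_value_uIcc hcont
  have h4 : (0 : ℝ) ∈ Set.uIcc (g2 s - g1 s) (g2 t - g1 t) := by
    rw [Set.mem_uIcc]
    right
    constructor <;> linarith
  obtain ⟨r, hr, hr0⟩ := h3 h4
  exact hne r hr (by simp only at hr0; linarith)

-- G2
theorem lt_right {V : Type} {G : SimpleGraph V} {x y : V → ℝ} {g : V → V → ℝ → ℝ}
    (h : Mono G x y g) (e e' : V × V) (a t : ℝ) (hat : a ≤ t) (he : G.Adj e.1 e.2)
    (he' : G.Adj e'.1 e'.2) (h1 : x e.1 ≤ a) (h2 : t < x e.2) (h1' : x e'.1 ≤ a)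
    (h2' : t < x e'.2) (hlt : g e.1 e.2 a < g e'.1 e'.2 a) : g e.1 e.2 t < g e'.1 e'.2 t := by
  refine ivt_lt _ _ (h.cont _ _) (h.cont _ _) a t ?_ hlt
  intro r hr
  rw [Set.uIcc_of_le hat] at hr
  rcases eq_or_lt_of_le hr.1 with h3 | h3
  · rw [← h3]; exact hlt.ne
  · refine h.disj e.1 e.2 e'.1 e'.2 r he he' ?_ (h1.trans_lt h3) (hr.2.trans_lt h2)
      (h1'.trans_lt h3) (hr.2.trans_lt h2')
    intro hee
    have h4 : e.1 = e'.1 := congrArg Prod.fst hee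
    have h5 : e.2 = e'.2 := congrArg Prod.snd hee
    rw [h4, h5] at hlt
    exact lt_irrefl _ hlt

-- G3
theorem lt_left {V : Type} {G : SimpleGraph V} {x y : V → ℝ} {g : V → V → ℝ → ℝ}
    (h : Mono G x y g) (e e' : V × V) (a t : ℝ) (hat : t ≤ a) (he : G.Adj e.1 e.2)
    (he' : G.Adj e'.1 e'.2) (h1 : x e.1 < t) (h2 : a ≤ x e.2) (h1' : x e'.1 < t)
    (h2' : a ≤ x e'.2) (hlt : g e.1 e.2 a < g e'.1 e'.2 a) : g e.1 e.2 t < g e'.1 e'.2 t := by
  refine ivt_lt _ _ (h.cont _ _) (h.cont _ _) a t ?_ hlt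
  intro r hr
  rw [Set.uIcc_of_ge hat] at hr
  rcases eq_or_lt_of_le hr.2 with h3 | h3
  · rw [h3]; exact hlt.ne
  · refine h.disj e.1 e.2 e'.1 e'.2 r he he' ?_ (h1.trans_le hr.1) (h3.trans_le h2)
      (h1'.trans_le hr.1) (h3.trans_le h2')
    intro hee
    have h4 : e.1 = e'.1 := congrArg Prod.fst hee
    have h5 : e.2 = e'.2 := congrArg Prod.snd hee
    rw [h4, h5] at hlt
    exact lt_irrefl _ hlt

end Pool.Agent.H110R3.BP
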