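import Pool.Agent.H110R3.BP.Stubs
set_option autoImplicit false
namespace Pool.Agent.H110R3.BP
open Polynomial Pool.Agent.H207R2.BL

theorem straight_proc_bound {V : Type} [Finite V] (x : V → ℝ) : ∃ t : ℝ, ∀ v, x v < t := by
  obtain ⟨M, hM⟩ := (Set.finite_range x).bddAbove
  refine ⟨M + 1, fun v => ?_⟩
  have := hM (Set.mem_range_self v)
  linarith

theorem straight_proc_pf {V : Type} [Finite V] {G : SimpleGraph V} (f : V → ℝ × ℝ)
    (h : IsStraight G f) : Proc [] Set.univ G.edgeSet := by
  obtain ⟨ε, hε⟩ := exists_shear f h.1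
  have h1 := straight_shear f h ε
  have h2 := mono_of_straight _ h1 hε
  obtain ⟨t, ht⟩ := straight_proc_bound (fun v => (f v).1 + ε * (f v).2)
  have h3 := mono_proc h2 t (fun v => (ht v).ne) [] ⟨fun e => by
      constructor
      · intro he
        simp at he
      · rintro ⟨-, -, h4⟩
        exact absurd (ht e.2) (not_lt.2 h4.le), List.Pairwise.nil⟩
  have e1 : {v | (fun v => (f v).1 + ε * (f v).2) v < t} = (Set.univ : Set V) := by
    ext v
    simp only [Set.mem_ofPred_eq, Set.mem_univ, iff_true]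
    exact ht v
  have e2 : {e : Sym2 V | ∃ u w, e = s(u, w) ∧ G.Adj u w ∧
      (fun v => (f v).1 + ε * (f v).2) u < t ∧ (fun v => (f v).1 + ε * (f v).2) w < t} =
      G.edgeSet := by
    ext e
    constructor
    · rintro ⟨u, w, rfl, h4, -, -⟩
      exact h4
    · intro h4
      induction e using Sym2.ind with
      | _ u w => exact ⟨u, w, rfl, h4, ht u, ht w⟩
  rw [← e1, ← e2]
  exact h3

end Pool.Agent.H110R3.BP
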