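import Pool.Agent.H110R3.BP.Defs

/-! BP task T11 (helper666): `cnt_new`. -/

set_option autoImplicit false
namespace Pool.Agent.H110R3.BP
open Polynomial Pool.Agent.H207R2.BL

theorem cnt_new {V : Type} [Fintype V] (k : ℕ) (L1 L2 : List V) (E : Set (Sym2 V)) (v : V)
    (hv1 : v ∉ L1) (hv2 : v ∉ L2) (hE : ∀ u, s(u, v) ∉ E) (l1 l2 : List (Fin k)) (x : Fin k)
    (hl : l1.length = L1.length) :
    (k : ℝ) * cnt k (L1 ++ v :: L2) E (l1 ++ x :: l2) = cnt k (L1 ++ L2) E (l1 ++ l2) := by
  classical
  set P : (V → Fin k) → Prop := fun g =>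
    (∀ a b, s(a, b) ∈ E → g a ≠ g b) ∧ (L1 ++ L2).map g = l1 ++ l2 with hP
  have hupd : ∀ (g : V → Fin k) (z : Fin k), P (Function.update g v z) ↔ P g := by
    intro g z
    have h1 : ∀ a, a ≠ v → Function.update g v z a = g a := fun a ha =>
      Function.update_of_ne ha _ _
    have h2 : (L1 ++ L2).map (Function.update g v z) = (L1 ++ L2).map g := by
      apply List.map_congr_left
      intro a ha
      apply h1
      rintro rfl
      rcases List.mem_append.1 ha with h | h
      · exact hv1 h
      · exact hv2 h
    have h3 : ∀ a b, s(a, b) ∈ E → a ≠ v ∧ b ≠ v := by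
      intro a b hab
      constructor
      · rintro rfl
        exact hE b (by rwa [Sym2.eq_swap] at hab)
      · rintro rfl
        exact hE a hab
    simp only [hP]
    rw [h2]
    refine and_congr_left fun _ => ?_
    refine forall_congr' fun a => forall_congr' fun b => ?_
    refine forall_congr' fun hab => ?_
    rw [h1 a (h3 a b hab).1, h1 b (h3 a b hab).2]
  have hL : cnt k (L1 ++ v :: L2) E (l1 ++ x :: l2) =
      ∑ g : V → Fin k, if P g ∧ g v = x then (1 : ℝ) else 0 := by
    unfold cnt
    refine Finset.sum_congr rfl fun g _ => if_congr ?_ rfl rfl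
    simp only [hP, List.map_append, List.map_cons]
    rw [and_assoc]
    refine and_congr_right fun _ => ?_
    constructor
    · intro h
      obtain ⟨h1, h2⟩ := List.append_inj h (by simp [hl])
      rw [List.cons_eq_cons] at h2
      exact ⟨by rw [h1, h2.2], h2.1⟩
    · rintro ⟨h, h3⟩
      obtain ⟨h1, h2⟩ := List.append_inj h (by simp [hl])
      rw [h1, h2, h3]
  have hR : cnt k (L1 ++ L2) E (l1 ++ l2) =
      ∑ y : Fin k, ∑ g : V → Fin k, if P g ∧ g v = y then (1 : ℝ) else 0 := by
    rw [Finset.sum_comm]
    unfold cnt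
    refine Finset.sum_congr rfl fun g _ => ?_
    by_cases hg : P g
    · rw [if_pos hg]
      simp [hg]
    · rw [if_neg hg]
      simp [hg]
  have hy : ∀ y : Fin k, (∑ g : V → Fin k, if P g ∧ g v = y then (1 : ℝ) else 0) =
      ∑ g : V → Fin k, if P g ∧ g v = x then (1 : ℝ) else 0 := by
    intro y
    have hinv : Function.Involutive
        (fun g : V → Fin k => Function.update g v (Equiv.swap x y (g v))) := by
      intro g
      simp
    refine Fintype.sum_equiv hinv.toPerm _ _ fun g => ?_
    refine if_congr ?_ rfl rfl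
    change _ ↔ P (Function.update g v (Equiv.swap x y (g v))) ∧
      Function.update g v (Equiv.swap x y (g v)) v = x
    rw [hupd, Function.update_self]
    refine and_congr_right fun _ => ?_
    constructor
    · intro h
      rw [h, Equiv.swap_apply_right]
    · intro h
      rw [Equiv.swap_apply_eq_iff, Equiv.swap_apply_left] at h
      exact h
  rw [hL, hR, Finset.sum_congr rfl fun y _ => hy y]
  simp

end Pool.Agent.H110R3.BP
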