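import Pool.Agent.H110R3.BP.Stubs
set_option autoImplicit false
namespace Pool.Agent.H110R3.BP
open Polynomial Pool.Agent.H207R2.BL

theorem cnt_drop_iff1 {α : Type} (a1 a2 b1 b2 : List α) (x y : α) (h : a1.length = b1.length) :
    a1 ++ x :: a2 = b1 ++ y :: b2 ↔ (a1 = b1 ∧ a2 = b2) ∧ x = y := by
  constructor
  · intro h1
    obtain ⟨h2, h3⟩ := List.append_inj h1 h
    rw [List.cons.injEq] at h3
    exact ⟨⟨h2, h3.2⟩, h3.1⟩
  · rintro ⟨⟨rfl, rfl⟩, rfl⟩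
    rfl

theorem cnt_drop_iff2 {α : Type} (a1 a2 b1 b2 : List α) (h : a1.length = b1.length) :
    a1 ++ a2 = b1 ++ b2 ↔ (a1 = b1 ∧ a2 = b2) := by
  constructor
  · intro h1
    exact List.append_inj h1 h
  · rintro ⟨rfl, rfl⟩
    rfl

theorem cnt_drop_pf {V : Type} [Fintype V] (k : ℕ) (L1 L2 : List V) (E : Set (Sym2 V)) (v : V)
    (l1 l2 : List (Fin k)) (hl : l1.length = L1.length) :
    ∑ x : Fin k, cnt k (L1 ++ v :: L2) E (l1 ++ x :: l2) = cnt k (L1 ++ L2) E (l1 ++ l2) := by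
  classical
  unfold cnt
  rw [Finset.sum_comm]
  refine Finset.sum_congr rfl fun g _ => ?_
  have h1 : (L1.map g).length = l1.length := by rw [List.length_map, hl]
  have e1 : ∀ x : Fin k, ((∀ a b, s(a, b) ∈ E → g a ≠ g b) ∧
      (L1 ++ v :: L2).map g = l1 ++ x :: l2) ↔ (x = g v ∧ ((∀ a b, s(a, b) ∈ E → g a ≠ g b) ∧
        (L1.map g = l1 ∧ L2.map g = l2))) := by
    intro x
    rw [List.map_append, List.map_cons, cnt_drop_iff1 _ _ _ _ _ _ h1]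
    constructor
    · rintro ⟨a, b, c⟩; exact ⟨c.symm, a, b⟩
    · rintro ⟨c, a, b⟩; exact ⟨a, b, c.symm⟩
  have e2 : ((∀ a b, s(a, b) ∈ E → g a ≠ g b) ∧
      (L1 ++ L2).map g = l1 ++ l2) ↔ ((∀ a b, s(a, b) ∈ E → g a ≠ g b) ∧
        (L1.map g = l1 ∧ L2.map g = l2)) := by
    rw [List.map_append, cnt_drop_iff2 _ _ _ _ h1]
  by_cases hQ : ((∀ a b, s(a, b) ∈ E → g a ≠ g b) ∧ (L1.map g = l1 ∧ L2.map g = l2))
  · rw [if_pos (e2.mpr hQ)]
    rw [Finset.sum_eq_single (g v)]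
    · rw [if_pos ((e1 _).mpr ⟨rfl, hQ⟩)]
    · intro x _ hx
      rw [if_neg (fun h => hx ((e1 x).mp h).1)]
    · intro h
      exact absurd (Finset.mem_univ _) h
  · rw [if_neg (fun h => hQ (e2.mp h))]
    refine Finset.sum_eq_zero fun x _ => ?_
    rw [if_neg (fun h => hQ ((e1 x).mp h).2)]

end Pool.Agent.H110R3.BP
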