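import Pool.Agent.H110R3.BP.Defs

set_option autoImplicit false

namespace Pool.Agent.H110R3.BP

open Polynomial Pool.Agent.H207R2.BL

theorem T13_map1 {V : Type} {k : ℕ} (g : V → Fin k) (L1 L2 : List V) (v : V)
    (l1 l2 : List (Fin k)) (x : Fin k) (hl : l1.length = L1.length) :
    (L1 ++ v :: L2).map g = l1 ++ x :: l2 ↔ L1.map g = l1 ∧ g v = x ∧ L2.map g = l2 := by
  rw [List.map_append, List.map_cons]
  constructor
  · intro h
    have h1 := List.append_inj h (by rw [List.length_map, hl])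
    have h2 := List.cons.inj h1.2
    exact ⟨h1.1, h2.1, h2.2⟩
  · rintro ⟨h1, h2, h3⟩
    rw [h1, h2, h3]

theorem T13_map2 {V : Type} {k : ℕ} (g : V → Fin k) (L1 L2 : List V) (u v : V)
    (l1 l2 : List (Fin k)) (x y : Fin k) (hl : l1.length = L1.length) :
    (L1 ++ u :: v :: L2).map g = l1 ++ x :: y :: l2 ↔
      L1.map g = l1 ∧ g u = x ∧ g v = y ∧ L2.map g = l2 := by
  rw [List.map_append, List.map_cons, List.map_cons]
  constructor
  · intro h
    have h1 := List.append_inj h (by rw [List.length_map, hl])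
    have h2 := List.cons.inj h1.2
    have h3 := List.cons.inj h2.2
    exact ⟨h1.1, h2.1, h3.1, h3.2⟩
  · rintro ⟨h1, h2, h3, h4⟩
    rw [h1, h2, h3, h4]

-- K3
theorem cnt_dup {V : Type} [Fintype V] (k : ℕ) (L1 L2 : List V) (E : Set (Sym2 V)) (v : V)
    (l1 l2 : List (Fin k)) (x y : Fin k) (hl : l1.length = L1.length) :
    cnt k (L1 ++ v :: v :: L2) E (l1 ++ x :: y :: l2) =
      if x = y then cnt k (L1 ++ v :: L2) E (l1 ++ x :: l2) else 0 := by
  classical
  unfold cnt
  split_ifs with hxy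
  · refine Finset.sum_congr rfl (fun g _ => ?_)
    refine if_congr (and_congr Iff.rfl ?_) rfl rfl
    rw [T13_map2 g L1 L2 v v l1 l2 x y hl, T13_map1 g L1 L2 v l1 l2 x hl]
    constructor
    · rintro ⟨h1, h2, _, h4⟩
      exact ⟨h1, h2, h4⟩
    · rintro ⟨h1, h2, h4⟩
      exact ⟨h1, h2, h2.trans hxy, h4⟩
  · refine Finset.sum_eq_zero (fun g _ => ?_)
    rw [if_neg]
    rintro ⟨_, h⟩
    rw [T13_map2 g L1 L2 v v l1 l2 x y hl] at h
    exact hxy (h.2.1.symm.trans h.2.2.1)

-- K4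
theorem cnt_edge {V : Type} [Fintype V] (k : ℕ) (L1 L2 : List V) (E : Set (Sym2 V)) (u v : V)
    (l1 l2 : List (Fin k)) (x y : Fin k) (hl : l1.length = L1.length) :
    cnt k (L1 ++ u :: v :: L2) (insert s(u, v) E) (l1 ++ x :: y :: l2) =
      if x = y then 0 else cnt k (L1 ++ u :: v :: L2) E (l1 ++ x :: y :: l2) := by
  classical
  unfold cnt
  split_ifs with hxy
  · refine Finset.sum_eq_zero (fun g _ => ?_)
    rw [if_neg]
    rintro ⟨hE, h⟩
    rw [T13_map2 g L1 L2 u v l1 l2 x y hl] at h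
    exact hE u v (Set.mem_insert _ _) (h.2.1.trans (hxy.trans h.2.2.1.symm))
  · refine Finset.sum_congr rfl (fun g _ => ?_)
    have hiff : ((∀ a b, s(a, b) ∈ insert s(u, v) E → g a ≠ g b) ∧
        (L1 ++ u :: v :: L2).map g = l1 ++ x :: y :: l2) ↔
        ((∀ a b, s(a, b) ∈ E → g a ≠ g b) ∧
        (L1 ++ u :: v :: L2).map g = l1 ++ x :: y :: l2) := by
      constructor
      · rintro ⟨hE, h⟩
        exact ⟨fun a b hab => hE a b (Set.mem_insert_of_mem _ hab), h⟩
      · rintro ⟨hE, h⟩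
        refine ⟨fun a b hab => ?_, h⟩
        rcases Set.mem_insert_iff.mp hab with h' | h'
        · rw [T13_map2 g L1 L2 u v l1 l2 x y hl] at h
          have huv : g u ≠ g v := by
            rw [h.2.1, h.2.2.1]
            exact hxy
          rcases Sym2.eq_iff.mp h' with ⟨rfl, rfl⟩ | ⟨rfl, rfl⟩
          · exact huv
          · exact huv.symm
        · exact hE a b h'
    by_cases hP : (∀ a b, s(a, b) ∈ E → g a ≠ g b) ∧
        (L1 ++ u :: v :: L2).map g = l1 ++ x :: y :: l2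
    · rw [if_pos hP, if_pos (hiff.mpr hP)]
    · rw [if_neg hP, if_neg (fun h => hP (hiff.mp h))]

end Pool.Agent.H110R3.BP
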