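import Pool.Agent.H110R3.BP.Stubs

set_option autoImplicit false

namespace Pool.Agent.H110R3.BP

open Polynomial Pool.Agent.H207R2.BL

theorem proc_inv_pf {V : Type} {L : List V} {U : Set V} {E : Set (Sym2 V)} (h : Proc L U E) :
    (∀ v ∈ L, v ∈ U) ∧ (∀ a b, s(a, b) ∈ E → a ∈ U ∧ b ∈ U ∧ a ≠ b) := by
  induction h with
  | nil =>
    refine ⟨fun v hv => by simp at hv, fun a b hab => ?_⟩
    exact absurd hab (Set.notMem_empty _)
  | new L1 L2 U E v h hv ih =>
    refine ⟨fun w hw => ?_, fun a b hab => ?_⟩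
    · rcases List.mem_append.1 hw with hw | hw
      · exact Set.mem_insert_of_mem _ (ih.1 w (List.mem_append.2 (Or.inl hw)))
      · rcases List.mem_cons.1 hw with hw | hw
        · rw [hw]
          exact Set.mem_insert _ _
        · exact Set.mem_insert_of_mem _ (ih.1 w (List.mem_append.2 (Or.inr hw)))
    · obtain ⟨h1, h2, h3⟩ := ih.2 a b hab
      exact ⟨Set.mem_insert_of_mem _ h1, Set.mem_insert_of_mem _ h2, h3⟩
  | dup L1 L2 U E v h ih =>
    refine ⟨fun w hw => ih.1 w ?_, ih.2⟩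
    simp only [List.mem_append, List.mem_cons] at hw ⊢
    tauto
  | edge L1 L2 U E u v h huv ih =>
    refine ⟨ih.1, fun a b hab => ?_⟩
    rcases Set.mem_insert_iff.1 hab with hab | hab
    · have hu : u ∈ U := ih.1 u (by simp)
      have hv : v ∈ U := ih.1 v (by simp)
      rcases Sym2.eq_iff.1 hab with ⟨h1, h2⟩ | ⟨h1, h2⟩
      · rw [h1, h2]
        exact ⟨hu, hv, huv⟩
      · rw [h1, h2]
        exact ⟨hv, hu, huv.symm⟩
    · exact ih.2 a b hab
  | drop L1 L2 U E v h ih =>
    refine ⟨fun w hw => ih.1 w ?_, ih.2⟩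
    simp only [List.mem_append, List.mem_cons] at hw ⊢
    tauto

theorem cnt_final_pf {V : Type} [Fintype V] (G : SimpleGraph V) (k : ℕ) :
    cnt k [] G.edgeSet [] = (Nat.card (G.Coloring (Fin k)) : ℝ) := by
  classical
  unfold cnt
  have h1 : ∀ g : V → Fin k, ((∀ a b, s(a, b) ∈ G.edgeSet → g a ≠ g b) ∧
      ([] : List V).map g = []) ↔ (∀ a b, G.Adj a b → g a ≠ g b) := by
    intro g
    simp
  have h2 : (∑ g : V → Fin k, (if (∀ a b, s(a, b) ∈ G.edgeSet → g a ≠ g b) ∧
      ([] : List V).map g = [] then (1 : ℝ) else 0)) =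
      ∑ g : V → Fin k, (if (∀ a b, G.Adj a b → g a ≠ g b) then (1 : ℝ) else 0) :=
    Finset.sum_congr rfl (fun g _ => by
      by_cases h : ∀ a b, G.Adj a b → g a ≠ g b
      · rw [if_pos h, if_pos ((h1 g).2 h)]
      · rw [if_neg h, if_neg (fun h' => h ((h1 g).1 h'))])
  refine Eq.trans ?_ (h2.trans ?_)
  · refine Finset.sum_congr rfl (fun g _ => ?_)
    congr
  rw [Finset.sum_boole]
  congr 1
  let e : G.Coloring (Fin k) ≃ {g : V → Fin k // ∀ a b, G.Adj a b → g a ≠ g b} :=
    { toFun := fun C => ⟨fun v => C v, fun a b hab => C.valid hab⟩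
      invFun := fun g => SimpleGraph.Coloring.mk g.1 (fun {a b} hab => g.2 a b hab)
      left_inv := fun C => by
        ext v
        rfl
      right_inv := fun g => by
        apply Subtype.ext
        rfl }
  rw [Nat.card_congr e, Nat.card_eq_fintype_card, Fintype.card_subtype]

end Pool.Agent.H110R3.BP
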