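import Pool.Agent.H110R3.BP.Stubs
set_option autoImplicit false
namespace Pool.Agent.H110R3.BP
open Polynomial Pool.Agent.H207R2.BL

theorem shr_act_pf (n k j : ℕ) (hj : j < n) (f : Fn (Fin (n + 1)) (Fin k))
    (hf : ∀ c x, f (Function.update c (pt n (j + 1)) x) = f c) (c : Fin (n + 1) → Fin k) :
    T (PR n k) (Shr j) f c = (k : ℝ) * f (Function.update c (pt n j) (c (pt n (j + 1)))) := by
  have h1 : pt n (j + 1) ≠ pt n j := fun h' => by
    have := pt_inj n _ _ (by omega) (by omega) h'
    omega
  simp only [T, Shr, List.map_cons, List.map_nil, List.prod_cons, List.prod_nil, ev, mul_one,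
    PR_even, PR_odd, Module.End.mul_apply, Cop_apply, Jop_apply, hf, Finset.sum_const,
    Finset.card_univ, Fintype.card_fin, nsmul_eq_mul, Function.update_self,
    Function.update_of_ne h1]
  rw [Finset.sum_ite_eq' Finset.univ (c (pt n (j + 1)))]
  simp

theorem shl_act_pf (n k j : ℕ) (hj : j < n) (f : Fn (Fin (n + 1)) (Fin k))
    (hf : ∀ c x, f (Function.update c (pt n j) x) = f c) (c : Fin (n + 1) → Fin k) :
    T (PR n k) (Shl j) f c = (k : ℝ) * f (Function.update c (pt n (j + 1)) (c (pt n j))) := by
  have h1 : pt n j ≠ pt n (j + 1) := fun h' => by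
    have := pt_inj n _ _ (by omega) (by omega) h'
    omega
  simp only [T, Shl, List.map_cons, List.map_nil, List.prod_cons, List.prod_nil, ev, mul_one,
    PR_even, PR_odd, Module.End.mul_apply, Cop_apply, Jop_apply, hf, Finset.sum_const,
    Finset.card_univ, Fintype.card_fin, nsmul_eq_mul, Function.update_self,
    Function.update_of_ne h1]
  rw [Finset.sum_ite_eq Finset.univ (c (pt n j))]
  simp

end Pool.Agent.H110R3.BP
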