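import Pool.Agent.H110R3.BP.Stubs

/-! Task T16 of h110bp_tasks (helper48): the action of the insertion word. -/

set_option autoImplicit false

namespace Pool.Agent.H110R3.BP

open Polynomial Pool.Agent.H207R2.BL

theorem ins_act_indep (n k p d : ℕ) (h : p + d ≤ n) (c : Fin (n + 1) → Fin k) (x : Fin k) :
    cl (up p) (p + d) (Function.update c (pt n p) x) = cl (up p) (p + d) c := by
  unfold cl
  apply List.map_congr_left
  intro i hi
  rw [List.mem_range] at hi
  have h1 : up p i ≤ n := by unfold up; split_ifs <;> omega
  have h2 : up p i ≠ p := by unfold up; split_ifs <;> omega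
  exact Function.update_of_ne (fun hh => h2 (pt_inj n _ _ h1 (by omega) hh)) _ _

theorem ins_act_shift (n k p d : ℕ) (h : p + (d + 1) ≤ n) (c : Fin (n + 1) → Fin k) :
    cl (up (p + 1)) (p + 1 + d) (Function.update c (pt n p) (c (pt n (p + 1)))) =
      cl (up p) (p + (d + 1)) c := by
  unfold cl
  rw [show p + (d + 1) = p + 1 + d by ring]
  apply List.map_congr_left
  intro i hi
  rw [List.mem_range] at hi
  by_cases hip : i = p
  · have h1 : up (p + 1) i = p := by unfold up; rw [if_pos (by omega), hip]
    have h2 : up p i = p + 1 := by unfold up; rw [if_neg (by omega), hip]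
    rw [h1, h2, Function.update_self]
  · have h1 : up (p + 1) i = up p i := by unfold up; split_ifs <;> omega
    have h2 : up p i ≤ n := by unfold up; split_ifs <;> omega
    have h3 : up p i ≠ p := by unfold up; split_ifs <;> omega
    rw [h1]
    exact Function.update_of_ne (fun hh => h3 (pt_inj n _ _ h2 (by omega) hh)) _ _

theorem ins_act_shr (n k : ℕ) (F : List (Fin k) → ℝ) : ∀ (d p : ℕ), p + d ≤ n →
    ∀ c : Fin (n + 1) → Fin k,
    T (PR n k) (shrW p d) (fun c => F (cl (fun i => i) (p + d) c)) c =
      (k : ℝ) ^ d * F (cl (up p) (p + d) c) := by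
  intro d
  induction d with
  | zero =>
    intro p _ c
    have h1 : cl (up p) (p + 0) c = cl (fun i => i) (p + 0) c := by
      unfold cl
      apply List.map_congr_left
      intro i hi
      rw [List.mem_range] at hi
      have h2 : up p i = i := by unfold up; rw [if_pos (by omega)]
      rw [h2]
    rw [h1, pow_zero, one_mul]
    simp [shrW, T]
  | succ d ih =>
    intro p h c
    have e : T (PR n k) (shrW p (d + 1)) (fun c => F (cl (fun i => i) (p + (d + 1)) c)) =
        T (PR n k) (Shr p)
          (T (PR n k) (shrW (p + 1) d) (fun c => F (cl (fun i => i) (p + (d + 1)) c))) := by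
      change T (PR n k) (Shr p ++ shrW (p + 1) d) _ = _
      rw [T_append]
      rfl
    have e2 : T (PR n k) (shrW (p + 1) d) (fun c => F (cl (fun i => i) (p + (d + 1)) c)) =
        fun c => (k : ℝ) ^ d * F (cl (up (p + 1)) (p + 1 + d) c) := by
      funext c
      have h3 := ih (p + 1) (by omega) c
      rw [show p + (d + 1) = p + 1 + d by ring]
      exact h3
    rw [e, e2, shr_act n k p (by omega)]
    · rw [ins_act_shift n k p d h c]
      ring
    · intro c x
      rw [ins_act_indep n k (p + 1) d (by omega) c x]

theorem ins_act_pf (n k p d : ℕ) (h : p + d ≤ n) (F : List (Fin k) → ℝ)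
    (c : Fin (n + 1) → Fin k) :
    T (PR n k) (insW p d) (fun c => F (cl (fun i => i) (p + d) c)) c =
      (k : ℝ) ^ (d + 1) * F (cl (up p) (p + d) c) := by
  have e : T (PR n k) (insW p d) (fun c => F (cl (fun i => i) (p + d) c)) =
      Cop (pt n p) (T (PR n k) (shrW p d) (fun c => F (cl (fun i => i) (p + d) c))) := by
    have h1 : T (PR n k) (insW p d) = Cop (pt n p) * T (PR n k) (shrW p d) := by
      simp only [insW, T, List.map_cons, List.prod_cons, ev, PR_even]
    rw [h1]
    rfl
  have e2 : T (PR n k) (shrW p d) (fun c => F (cl (fun i => i) (p + d) c)) =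
      fun c => (k : ℝ) ^ d * F (cl (up p) (p + d) c) := by
    funext c
    exact ins_act_shr n k F d p h c
  rw [e, e2, Cop_apply]
  have e3 : ∀ x : Fin k, (k : ℝ) ^ d * F (cl (up p) (p + d) (Function.update c (pt n p) x)) =
      (k : ℝ) ^ d * F (cl (up p) (p + d) c) := by
    intro x
    rw [ins_act_indep n k p d h c x]
  rw [Finset.sum_congr rfl (fun x _ => e3 x), Finset.sum_const, Finset.card_univ,
    Fintype.card_fin, nsmul_eq_mul]
  ring

end Pool.Agent.H110R3.BP
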