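import Pool.Agent.H110R3.BP.Stubs
set_option autoImplicit false
namespace Pool.Agent.H110R3.BP
open Polynomial Pool.Agent.H207R2.BL

theorem del_act_cl_congr {n k : ℕ} (σ τ : ℕ → ℕ) (m : ℕ) (c c' : Fin (n + 1) → Fin k)
    (h : ∀ i, i < m → c (pt n (σ i)) = c' (pt n (τ i))) : cl σ m c = cl τ m c' := by
  unfold cl
  apply List.map_congr_left
  intro i hi
  exact h i (List.mem_range.mp hi)

theorem del_act_split {n k : ℕ} (p d : ℕ) (c : Fin (n + 1) → Fin k) :
    cl (fun i => i) (p + 1 + d) c =
      cl (fun i => i) p c ++ c (pt n p) :: cl (fun i => p + 1 + i) d c := by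
  unfold cl
  rw [List.range_add, List.range_succ, List.map_append, List.map_append, List.map_map,
    List.append_assoc]
  rfl

theorem del_act_pt_ne {n : ℕ} (i j : ℕ) (hi : i ≤ n) (hj : j ≤ n) (h : i ≠ j) :
    pt n i ≠ pt n j := fun h' => h (pt_inj n i j hi hj h')

/-- the columns after `e` moves -/
def del_act_tau (p e i : ℕ) : ℕ := if i < e then p + i else p + 1 + i

theorem del_act_shl (n k p d : ℕ) (h : p + d ≤ n) (F : List (Fin k) → ℝ)
    (g0 : Fn (Fin (n + 1)) (Fin k))
    (hg0 : ∀ c, g0 c = ∑ x : Fin k, F (cl (fun i => i) p c ++ x :: cl (fun i => p + 1 + i) d c)) :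
    ∀ e, e ≤ d → ∀ c : Fin (n + 1) → Fin k, T (PR n k) (shlW p e) g0 c =
      (k : ℝ) ^ e * ∑ x : Fin k, F (cl (fun i => i) p c ++ x :: cl (del_act_tau p e) d c) := by
  intro e
  induction e with
  | zero =>
    intro _ c
    have e1 : T (PR n k) (shlW p 0) = 1 := rfl
    rw [e1, Module.End.one_apply, hg0, pow_zero, one_mul]
    apply Finset.sum_congr rfl
    intro x _
    congr 3
  | succ e ih =>
    intro he c
    have ih' := ih (by omega)
    have e1 : T (PR n k) (shlW p (e + 1)) =
        T (PR n k) (Shl (p + e)) * T (PR n k) (shlW p e) := T_append _ _ _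
    have hind : ∀ (c : Fin (n + 1) → Fin k) (x : Fin k),
        T (PR n k) (shlW p e) g0 (Function.update c (pt n (p + e)) x) =
          T (PR n k) (shlW p e) g0 c := by
      intro c y
      rw [ih', ih']
      congr 1
      apply Finset.sum_congr rfl
      intro x _
      have a1 : cl (fun i => i) p (Function.update c (pt n (p + e)) y) = cl (fun i => i) p c := by
        apply del_act_cl_congr
        intro i hi
        exact Function.update_of_ne (del_act_pt_ne _ _ (by omega) (by omega) (by omega)) _ _
      have a2 : cl (del_act_tau p e) d (Function.update c (pt n (p + e)) y) =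
          cl (del_act_tau p e) d c := by
        apply del_act_cl_congr
        intro i hi
        apply Function.update_of_ne
        unfold del_act_tau
        split_ifs with h'
        · exact del_act_pt_ne _ _ (by omega) (by omega) (by omega)
        · exact del_act_pt_ne _ _ (by omega) (by omega) (by omega)
      rw [a1, a2]
    rw [e1, Module.End.mul_apply, shl_act n k (p + e) (by omega) _ hind c, ih', pow_succ']
    rw [mul_assoc]
    congr 2
    apply Finset.sum_congr rfl
    intro x _
    have a1 : cl (fun i => i) p
        (Function.update c (pt n (p + e + 1)) (c (pt n (p + e)))) = cl (fun i => i) p c := by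
      apply del_act_cl_congr
      intro i hi
      exact Function.update_of_ne (del_act_pt_ne _ _ (by omega) (by omega) (by omega)) _ _
    have a2 : cl (del_act_tau p e) d
        (Function.update c (pt n (p + e + 1)) (c (pt n (p + e)))) =
        cl (del_act_tau p (e + 1)) d c := by
      apply del_act_cl_congr
      intro i hi
      unfold del_act_tau
      rcases Nat.lt_trichotomy i e with h' | h' | h'
      · rw [if_pos h', if_pos (by omega)]
        exact Function.update_of_ne (del_act_pt_ne _ _ (by omega) (by omega) (by omega)) _ _
      · rw [if_neg (by omega), if_pos (by omega), h']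
        have e2 : p + 1 + e = p + e + 1 := by omega
        rw [e2, Function.update_self]
      · rw [if_neg (by omega), if_neg (by omega)]
        exact Function.update_of_ne (del_act_pt_ne _ _ (by omega) (by omega) (by omega)) _ _
    rw [a1, a2]

theorem del_act_pf (n k p d : ℕ) (h : p + d ≤ n) (F : List (Fin k) → ℝ)
    (c : Fin (n + 1) → Fin k) :
    T (PR n k) (delW p d) (fun c => F (cl (fun i => i) (p + 1 + d) c)) c =
      (k : ℝ) ^ d * ∑ x : Fin k, F (cl (fun i => i) p c ++ x :: cl (fun i => p + i) d c) := by
  have e1 : T (PR n k) (delW p d) = T (PR n k) (shlW p d) * T (PR n k) [Let.C p] :=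
    T_append _ _ _
  have hg0 : ∀ c, T (PR n k) [Let.C p] (fun c => F (cl (fun i => i) (p + 1 + d) c)) c =
      ∑ x : Fin k, F (cl (fun i => i) p c ++ x :: cl (fun i => p + 1 + i) d c) := by
    intro c
    have e2 : T (PR n k) [Let.C p] = Cop (pt n p) := by
      unfold T
      rw [List.map_singleton, List.prod_singleton]
      exact PR_even n k p
    rw [e2, Cop_apply]
    apply Finset.sum_congr rfl
    intro x _
    rw [del_act_split, Function.update_self]
    have a1 : cl (fun i => i) p (Function.update c (pt n p) x) = cl (fun i => i) p c := by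
      apply del_act_cl_congr
      intro i hi
      exact Function.update_of_ne (del_act_pt_ne _ _ (by omega) (by omega) (by omega)) _ _
    have a2 : cl (fun i => p + 1 + i) d (Function.update c (pt n p) x) =
        cl (fun i => p + 1 + i) d c := by
      apply del_act_cl_congr
      intro i hi
      exact Function.update_of_ne (del_act_pt_ne _ _ (by omega) (by omega) (by omega)) _ _
    rw [a1, a2]
  rw [e1, Module.End.mul_apply, del_act_shl n k p d h F _ hg0 d le_rfl c]
  congr 1
  apply Finset.sum_congr rfl
  intro x _
  have a : cl (del_act_tau p d) d c = cl (fun i => p + i) d c := by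
    apply del_act_cl_congr
    intro i hi
    unfold del_act_tau
    rw [if_pos hi]
  rw [a]

end Pool.Agent.H110R3.BP
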