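import Pool.Agent.H110R3.BP.Stubs
set_option autoImplicit false
namespace Pool.Agent.H110R3.BP
open Polynomial Pool.Agent.H207R2.BL

theorem inr_ins_shrW (n p d : ℕ) (h : p + d ≤ n) : ∀ l ∈ shrW p d, InR n l := by
  induction d generalizing p with
  | zero => intro l hl; simp [shrW] at hl
  | succ d ih =>
    intro l hl
    simp only [shrW, Shr, List.mem_append, List.mem_cons, List.not_mem_nil, or_false] at hl
    rcases hl with (rfl | rfl | rfl) | hl
    · show p ≤ n
      omega
    · show p < n
      omega
    · show p + 1 ≤ n
      omega
    · exact ih (p + 1) (by omega) l hl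

theorem inr_ins_pf (n p d : ℕ) (h : p + d ≤ n) : ∀ l ∈ insW p d, InR n l := by
  intro l hl
  simp only [insW, List.mem_cons] at hl
  rcases hl with rfl | hl
  · show p ≤ n
    omega
  · exact inr_ins_shrW n p d h l hl

theorem inr_del_shlW (n p d : ℕ) (h : p + d ≤ n) : ∀ l ∈ shlW p d, InR n l := by
  induction d with
  | zero => intro l hl; simp [shlW] at hl
  | succ d ih =>
    intro l hl
    simp only [shlW, Shl, List.mem_append, List.mem_cons, List.not_mem_nil, or_false] at hl
    rcases hl with (rfl | rfl | rfl) | hl
    · show p + d + 1 ≤ n
      omega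
    · show p + d < n
      omega
    · show p + d ≤ n
      omega
    · exact ih (by omega) l hl

theorem inr_del_pf (n p d : ℕ) (h : p + d ≤ n) : ∀ l ∈ delW p d, InR n l := by
  intro l hl
  simp only [delW, List.mem_append, List.mem_singleton] at hl
  rcases hl with hl | rfl
  · exact inr_del_shlW n p d h l hl
  · show p ≤ n
    omega

theorem good_nil_pf {V : Type} [Fintype V] (col : V → Bool) : Good col ([] : List V) ∅ := by
  classical
  refine ⟨[], fun _ => false, 0, Fintype.card V, 0, OK.nil _, ?_, ?_, by simp, ?_⟩
  · intro i hi
    simp at hi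
  · intro l hl
    simp at hl
  · intro n _ k _ c
    have h1 : cnt k ([] : List V) ∅ (cl (fun i => i) ([] : List V).length c) =
        (k : ℝ) ^ Fintype.card V := by
      unfold cnt cl
      simp
    rw [h1]
    simp [T]

theorem T_expd_pf {M : ℕ} {q : ℝ} {A : Type} [Ring A] [Algebra ℝ A] (S : TL M q A)
    (w : List Let) : T S w = ((expd w).map (fun a => a.1 • S.W a.2)).sum := by
  induction w with
  | nil => simp [T, expd, TL.W]
  | cons l w ih =>
    have h1 : T S (l :: w) = ev S l * T S w := by simp [T]
    have hc : ∀ (j : ℕ) (c : ℝ), ((expd w).map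
        ((fun a : ℝ × List ℕ => a.1 • S.W a.2) ∘ fun a => (c * a.1, j :: a.2))).sum =
        c • (S.e j * T S w) := by
      intro j c
      rw [ih, ← List.sum_map_mul_left, List.smul_sum, List.map_map]
      congr 1
      apply List.map_congr_left
      intro a _
      simp [TL.W, mul_smul]
    cases l with
    | C i =>
      rw [h1]
      simp only [expd, List.map_map]
      have := hc (2 * i) 1
      simp only [one_mul, one_smul] at this
      rw [this]
      rfl
    | J i =>
      rw [h1]
      simp only [expd, List.map_map]
      have := hc (2 * i + 1) 1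
      simp only [one_mul, one_smul] at this
      rw [this]
      rfl
    | X i =>
      rw [h1]
      simp only [expd, List.map_append, List.sum_append, List.map_map]
      have := hc (2 * i + 1) (-1)
      simp only [neg_mul, one_mul, neg_smul, one_smul] at this
      rw [this, ← ih]
      show (1 - S.e (2 * i + 1)) * T S w = _
      rw [sub_mul, one_mul, sub_eq_add_neg]

theorem expd_lt_pf (n : ℕ) (w : List Let) (hw : ∀ l ∈ w, InR n l) :
    ∀ a ∈ expd w, ∀ j ∈ a.2, j < 2 * n + 1 := by
  induction w with
  | nil =>
    intro a ha j hj
    simp only [expd, List.mem_singleton] at ha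
    subst ha
    simp at hj
  | cons l w ih =>
    have ih' := ih fun l hl => hw l (List.mem_cons_of_mem _ hl)
    have hl := hw l (List.mem_cons_self ..)
    intro a ha j hj
    cases l with
    | C i =>
      have hi : i ≤ n := hl
      simp only [expd, List.mem_map] at ha
      obtain ⟨b, hb, rfl⟩ := ha
      rcases List.mem_cons.1 hj with rfl | hj
      · omega
      · exact ih' b hb j hj
    | J i =>
      have hi : i < n := hl
      simp only [expd, List.mem_map] at ha
      obtain ⟨b, hb, rfl⟩ := ha
      rcases List.mem_cons.1 hj with rfl | hj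
      · omega
      · exact ih' b hb j hj
    | X i =>
      have hi : i < n := hl
      simp only [expd, List.mem_append, List.mem_map] at ha
      rcases ha with ha | ⟨b, hb, rfl⟩
      · exact ih' a ha j hj
      · rcases List.mem_cons.1 hj with rfl | hj
        · omega
        · exact ih' b hb j hj

end Pool.Agent.H110R3.BP
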