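import Pool.Agent.H110R3.BP.Defs
set_option autoImplicit false
namespace Pool.Agent.H110R3.BP
open Polynomial Pool.Agent.H207R2.BL

-- G4 (existence of the sorted list for any finite predicate)
theorem exists_sorted {α : Type} [Finite α] (P : α → Prop) (r : α → ℝ)
    (hr : ∀ a b, P a → P b → r a = r b → a = b) :
    ∃ l : List α, (∀ a, a ∈ l ↔ P a) ∧ l.Pairwise (fun a b => r a < r b) := by
  classical
  haveI := Fintype.ofFinite α
  let s : Finset α := Finset.univ.filter P
  let l := s.toList.insertionSort (fun a b => r a ≤ r b)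
  have hmem : ∀ a, a ∈ l ↔ P a := by
    intro a
    simp [l, s, List.mem_insertionSort]
  haveI : Std.Total (fun a b : α => r a ≤ r b) := ⟨fun a b => le_total _ _⟩
  haveI : IsTrans α (fun a b : α => r a ≤ r b) := ⟨fun a b c h1 h2 => le_trans h1 h2⟩
  have hs : l.Pairwise (fun a b => r a ≤ r b) := List.pairwise_insertionSort _ _
  have hn : l.Nodup := (List.perm_insertionSort _ _).nodup_iff.2 s.nodup_toList
  refine ⟨l, hmem, ?_⟩
  have h2 := hs.and hn
  refine (List.pairwise_iff_get.2 ?_)
  intro i j hij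
  have h3 := (List.pairwise_iff_get.1 h2) i j hij
  refine lt_of_le_of_ne h3.1 ?_
  intro he
  exact h3.2 (hr _ _ ((hmem _).1 (List.get_mem _ _)) ((hmem _).1 (List.get_mem _ _)) he)

end Pool.Agent.H110R3.BP
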