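import Pool.Agent.H110R3.BP.Stubs
set_option autoImplicit false
namespace Pool.Agent.H110R3.BP
open Polynomial Pool.Agent.H207R2.BL

theorem good_new_cl (n k p d : ℕ) (c : Fin (n + 1) → Fin k) :
    cl (up p) (p + d) c = cl (fun i => i) p c ++ cl (fun i => p + 1 + i) d c := by
  unfold cl
  rw [List.range_add, List.map_append, List.map_map]
  congr 1
  · apply List.map_congr_left
    intro i hi
    rw [List.mem_range] at hi
    simp [up, hi]
  · apply List.map_congr_left
    intro i _
    simp only [Function.comp, up]
    rw [if_neg (by omega)]
    congr 2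
    omega

theorem good_new_cl' (n k p d : ℕ) (c : Fin (n + 1) → Fin k) :
    cl (fun i => i) (p + (d + 1)) c =
      cl (fun i => i) p c ++ c (pt n p) :: cl (fun i => p + 1 + i) d c := by
  unfold cl
  rw [List.range_add, List.map_append, List.map_map, List.range_succ_eq_map, List.map_cons,
    List.map_map]
  congr 2
  apply List.map_congr_left
  intro i _
  simp only [Function.comp]
  congr 2
  omega

theorem good_new_inr {n : ℕ} {l : Let} (h : InR n l) : InR (n + 1) l := by
  cases l <;> simp only [InR] at h ⊢ <;> omega

theorem good_new_pf {V : Type} [Fintype V] (col : V → Bool) (L1 L2 : List V) (E : Set (Sym2 V))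
    (v : V) (hv1 : v ∉ L1) (hv2 : v ∉ L2) (hE : ∀ u, s(u, v) ∉ E)
    (h : Good col (L1 ++ L2) E) : Good col (L1 ++ v :: L2) E := by
  obtain ⟨w, κ, N, a, b, hok, hcol, hin, hlen, heq⟩ := h
  obtain ⟨κ', hok', hb', hlt', hge'⟩ := ok_ins w κ hok L1.length L2.length (col v)
  have hlen' : L1.length + L2.length ≤ N := by
    rw [List.length_append] at hlen
    exact hlen
  refine ⟨insW L1.length L2.length ++ w, κ', N + 1, a, b + L2.length + 2, hok', ?_, ?_, ?_, ?_⟩
  · intro i hi
    rw [List.length_append, List.length_cons] at hi
    rcases lt_trichotomy i L1.length with h1 | h1 | h1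
    · rw [hlt' i h1, hcol i (by rw [List.length_append]; omega), List.getElem_append_left h1,
        List.getElem_append_left h1]
    · subst h1
      rw [hb']
      simp
    · obtain ⟨j, rfl⟩ : ∃ j, i = j + 1 := ⟨i - 1, by omega⟩
      have h2 : L1.length ≤ j := by omega
      have h3 : j < L1.length + L2.length := by omega
      rw [hge' j h2 h3, hcol j (by rw [List.length_append]; omega),
        List.getElem_append_right h2, List.getElem_append_right (by omega)]
      obtain ⟨m, rfl⟩ : ∃ m, j = L1.length + m := ⟨j - L1.length, by omega⟩
      have h4 : L1.length + m + 1 - L1.length = m + 1 := by omega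
      have h5 : L1.length + m - L1.length = m := by omega
      simp only [h4, h5, List.getElem_cons_succ]
  · intro l hl
    rw [List.mem_append] at hl
    rcases hl with hl | hl
    · exact inr_ins (N + 1) L1.length L2.length (by omega) l hl
    · exact good_new_inr (hin l hl)
  · rw [List.length_append, List.length_cons]
    omega
  · intro n hn k hk c
    have hk0 : (k : ℝ) ≠ 0 := by
      have : 0 < k := hk
      positivity
    have hka : (k : ℝ) ^ a ≠ 0 := pow_ne_zero _ hk0
    have hF : (T (PR n k) w (fun _ => 1)) = fun c : Fin (n + 1) → Fin k =>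
        (fun l => (k : ℝ) ^ b / (k : ℝ) ^ a * cnt k (L1 ++ L2) E l)
          (cl (fun i => i) (L1.length + L2.length) c) := by
      funext c
      have := heq n (by omega) k hk c
      rw [List.length_append] at this
      simp only
      field_simp
      linarith
    have hins := ins_act n k L1.length L2.length (by omega)
      (fun l => (k : ℝ) ^ b / (k : ℝ) ^ a * cnt k (L1 ++ L2) E l) c
    rw [T_append, Module.End.mul_apply, hF]
    refine (congrArg (fun r => (k : ℝ) ^ a * r) hins).trans ?_
    rw [good_new_cl, List.length_append, List.length_cons, good_new_cl',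
      ← cnt_new k L1 L2 E v hv1 hv2 hE _ _ (c (pt n L1.length)) (by simp [cl])]
    field_simp
    ring

end Pool.Agent.H110R3.BP
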