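import Pool.Agent.H110R3.BP.Stubs
set_option autoImplicit false
namespace Pool.Agent.H110R3.BP
open Polynomial Pool.Agent.H207R2.BL

theorem good_dup_cl_add {n k : ℕ} (σ : ℕ → ℕ) (m d : ℕ) (c : Fin (n + 1) → Fin k) :
    cl σ (m + d) c = cl σ m c ++ cl (fun i => σ (m + i)) d c := by
  simp [cl, List.range_add, List.map_append, Function.comp_def]

theorem good_dup_cl_succ {n k : ℕ} (σ : ℕ → ℕ) (d : ℕ) (c : Fin (n + 1) → Fin k) :
    cl σ (d + 1) c = c (pt n (σ 0)) :: cl (fun i => σ (i + 1)) d c := by
  simp [cl, List.range_succ_eq_map, Function.comp_def]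

theorem good_dup_cl_congr {n k : ℕ} (σ τ : ℕ → ℕ) (d : ℕ) (c : Fin (n + 1) → Fin k)
    (h : ∀ i, i < d → σ i = τ i) : cl σ d c = cl τ d c := by
  unfold cl
  apply List.map_congr_left
  intro i hi
  rw [h i (List.mem_range.1 hi)]

theorem good_dup_inr_mono {N M : ℕ} (h : N ≤ M) (l : Let) (hl : InR N l) : InR M l := by
  cases l <;> simp only [InR] at * <;> omega

theorem good_dup_pf {V : Type} [Fintype V] (col : V → Bool) (L1 L2 : List V) (E : Set (Sym2 V))
    (v : V) (h : Good col (L1 ++ v :: L2) E) : Good col (L1 ++ v :: v :: L2) E := by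
  obtain ⟨w, κ, N, a, b, hok, hκ, hr, hN, hT⟩ := h
  have hlen : (L1 ++ v :: L2).length = L1.length + 1 + L2.length := by simp; omega
  have hlen' : (L1 ++ v :: v :: L2).length = L1.length + (L2.length + 1 + 1) := by simp
  have hp : L1.length < (L1 ++ v :: L2).length := by rw [hlen]; omega
  have e0 : κ L1.length = col v := by
    rw [hκ _ hp]; congr 1; simp
  obtain ⟨κ', hok', hb', hlow, hhigh⟩ := ok_ins w κ hok (L1.length + 1) L2.length (col v)
  refine ⟨Let.J L1.length :: (insW (L1.length + 1) L2.length ++ w), κ', N + 1, a,
    b + (L2.length + 1), OK.J _ _ _ hok' ?_, ?_, ?_, ?_, ?_⟩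
  · rw [hlow _ (by omega), hb', e0]
  · intro i hi
    rcases lt_trichotomy i (L1.length + 1) with h1 | h1 | h1
    · rw [hlow i h1, hκ i (by rw [hlen]; omega)]
      congr 1
      rcases Nat.lt_or_ge i L1.length with h2 | h2
      · rw [List.getElem_append_left h2, List.getElem_append_left h2]
      · have h3 : i = L1.length := by omega
        subst h3
        simp
    · subst h1
      rw [hb']
      congr 1
      rw [List.getElem_append_right (by omega)]
      simp
    · obtain ⟨j, rfl⟩ : ∃ j, i = j + 1 := ⟨i - 1, by omega⟩
      rw [hlen'] at hi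
      rw [hhigh j (by omega) (by omega), hκ j (by rw [hlen]; omega)]
      congr 1
      rw [List.getElem_append_right (by omega), List.getElem_append_right (by omega)]
      obtain ⟨t, rfl⟩ : ∃ t, j = L1.length + 1 + t := ⟨j - (L1.length + 1), by omega⟩
      have e1 : L1.length + 1 + t - L1.length = t + 1 := by omega
      have e2 : L1.length + 1 + t + 1 - L1.length = t + 1 + 1 := by omega
      simp only [e1, e2, List.getElem_cons_succ]
  · intro l hl
    rcases List.mem_cons.1 hl with rfl | hl
    · show L1.length < N + 1
      omega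
    · rcases List.mem_append.1 hl with hl | hl
      · exact inr_ins (N + 1) (L1.length + 1) L2.length (by omega) l hl
      · exact good_dup_inr_mono (by omega) l (hr l hl)
  · omega
  · intro n hn k hk c
    have hk0 : (k : ℝ) ≠ 0 := by
      have : (1 : ℝ) ≤ k := by exact_mod_cast hk
      positivity
    have hfun : (T (PR n k) w (fun _ => 1)) = fun c : Fin (n + 1) → Fin k =>
        (fun l : List (Fin k) => (k : ℝ) ^ b / (k : ℝ) ^ a * cnt k (L1 ++ v :: L2) E l)
          (cl (fun i => i) (L1.length + 1 + L2.length) c) := by
      funext c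
      have h1 := hT n (by omega) k hk c
      rw [hlen] at h1
      simp only
      have ha : (k : ℝ) ^ a ≠ 0 := pow_ne_zero _ hk0
      field_simp
      linarith
    have hins := ins_act n k (L1.length + 1) L2.length (by omega)
      (fun l : List (Fin k) => (k : ℝ) ^ b / (k : ℝ) ^ a * cnt k (L1 ++ v :: L2) E l) c
    have key : (T (PR n k) (Let.J L1.length :: (insW (L1.length + 1) L2.length ++ w))
          (fun _ => 1)) c =
        if c (pt n L1.length) = c (pt n (L1.length + 1)) then
          (T (PR n k) (insW (L1.length + 1) L2.length) (T (PR n k) w (fun _ => 1))) c else 0 := by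
      have : T (PR n k) (Let.J L1.length :: (insW (L1.length + 1) L2.length ++ w)) =
          (PR n k).e (2 * L1.length + 1) *
            (T (PR n k) (insW (L1.length + 1) L2.length) * T (PR n k) w) := by
        rw [← T_append]
        simp [T, ev]
      rw [this, PR_odd, Module.End.mul_apply, Module.End.mul_apply, Jop_apply]
    have hcl : cl (fun i => i) (L1 ++ v :: v :: L2).length c =
        cl (fun i => i) L1.length c ++ c (pt n L1.length) :: c (pt n (L1.length + 1)) ::
          cl (fun i => L1.length + (i + 1 + 1)) L2.length c := by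
      rw [hlen', good_dup_cl_add, good_dup_cl_succ, good_dup_cl_succ]
      rfl
    have hup : cl (up (L1.length + 1)) (L1.length + 1 + L2.length) c =
        cl (fun i => i) L1.length c ++ c (pt n L1.length) ::
          cl (fun i => L1.length + (i + 1 + 1)) L2.length c := by
      have e3 : L1.length + 1 + L2.length = L1.length + (L2.length + 1) := by omega
      rw [e3, good_dup_cl_add, good_dup_cl_succ]
      have e4 : cl (up (L1.length + 1)) L1.length c = cl (fun i => i) L1.length c := by
        apply good_dup_cl_congr
        intro i hi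
        simp only [up]
        rw [if_pos (by omega)]
      have e5 : up (L1.length + 1) (L1.length + 0) = L1.length := by
        simp [up]
      have e6 : cl (fun i => up (L1.length + 1) (L1.length + (i + 1))) L2.length c =
          cl (fun i => L1.length + (i + 1 + 1)) L2.length c := by
        apply good_dup_cl_congr
        intro i hi
        simp only [up]
        rw [if_neg (by omega)]
        omega
      rw [e4, e5, e6]
    rw [key, hcl, cnt_dup k L1 L2 E v _ _ _ _ (by simp [cl]), hfun, hins, hup]
    split_ifs with hc
    · have ha : (k : ℝ) ^ a ≠ 0 := pow_ne_zero _ hk0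
      have hX : ∀ (A B D Y : ℝ), A ≠ 0 → A * (D * (B / A * Y)) = B * D * Y := by
        intro A B D Y hA
        field_simp
      rw [pow_add (k : ℝ) b (L2.length + 1)]
      exact hX _ _ _ _ ha
    · simp

end Pool.Agent.H110R3.BP
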