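import Pool.Agent.H110R3.BP.Stubs
set_option autoImplicit false
namespace Pool.Agent.H110R3.BP
open Polynomial Pool.Agent.H207R2.BL

theorem good_edge_cl_add {n k : ℕ} (σ : ℕ → ℕ) (m d : ℕ) (c : Fin (n + 1) → Fin k) :
    cl σ (m + d) c = cl σ m c ++ cl (fun i => σ (m + i)) d c := by
  simp [cl, List.range_add, List.map_append, Function.comp_def]

theorem good_edge_cl_succ {n k : ℕ} (σ : ℕ → ℕ) (d : ℕ) (c : Fin (n + 1) → Fin k) :
    cl σ (d + 1) c = c (pt n (σ 0)) :: cl (fun i => σ (i + 1)) d c := by
  simp [cl, List.range_succ_eq_map, Function.comp_def]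

theorem good_edge_pf {V : Type} [Fintype V] (col : V → Bool) (L1 L2 : List V) (E : Set (Sym2 V))
    (u v : V) (huv : col u ≠ col v) (h : Good col (L1 ++ u :: v :: L2) E) :
    Good col (L1 ++ u :: v :: L2) (insert s(u, v) E) := by
  obtain ⟨w, κ, N, a, b, hok, hκ, hr, hN, hT⟩ := h
  have hlen : (L1 ++ u :: v :: L2).length = L1.length + (L2.length + 1 + 1) := by simp
  have hp : L1.length < (L1 ++ u :: v :: L2).length := by rw [hlen]; omega
  have hp1 : L1.length + 1 < (L1 ++ u :: v :: L2).length := by rw [hlen]; omega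
  have e0 : κ L1.length = col u := by
    rw [hκ _ hp]; congr 1; simp
  have e1 : κ (L1.length + 1) = col v := by
    rw [hκ _ hp1]; congr 1
    rw [List.getElem_append_right (by omega)]; simp
  refine ⟨Let.X L1.length :: w, κ, N, a, b, OK.X _ _ _ hok (by rw [e0, e1]; exact huv), hκ, ?_, hN, ?_⟩
  · intro l hl
    rcases List.mem_cons.1 hl with rfl | hl
    · show L1.length < N
      omega
    · exact hr l hl
  · intro n hn k hk c
    have h1 := hT n hn k hk c
    have key : (T (PR n k) (Let.X L1.length :: w) (fun _ => 1)) c =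
        if c (pt n L1.length) = c (pt n (L1.length + 1)) then 0 else
          (T (PR n k) w (fun _ => 1)) c := by
      have : T (PR n k) (Let.X L1.length :: w) =
          (1 - (PR n k).e (2 * L1.length + 1)) * T (PR n k) w := by
        simp [T, ev]
      rw [this, PR_odd, Module.End.mul_apply, LinearMap.sub_apply, Module.End.one_apply]
      show T (PR n k) w (fun _ => 1) c - Jop _ _ (T (PR n k) w (fun _ => 1)) c = _
      rw [Jop_apply]
      split_ifs <;> simp
    have hcl : cl (fun i => i) (L1 ++ u :: v :: L2).length c =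
        cl (fun i => i) L1.length c ++ c (pt n L1.length) :: c (pt n (L1.length + 1)) ::
          cl (fun i => L1.length + (i + 1 + 1)) L2.length c := by
      rw [hlen, good_edge_cl_add, good_edge_cl_succ, good_edge_cl_succ]
      rfl
    rw [key, hcl, cnt_edge k L1 L2 E u v _ _ _ _ (by simp [cl])]
    rw [hcl] at h1
    split_ifs with hc
    · simp
    · exact h1

end Pool.Agent.H110R3.BP
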