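import Pool.Agent.H110R3.BP.Stubs

/-! T23: good_drop (helper473). -/

set_option autoImplicit false
namespace Pool.Agent.H110R3.BP
open Polynomial Pool.Agent.H207R2.BL

theorem good_drop_cl {n k : ℕ} (p d : ℕ) (c : Fin (n + 1) → Fin k) :
    cl (fun i => i) (p + d) c = cl (fun i => i) p c ++ cl (fun i => p + i) d c := by
  unfold cl
  rw [List.range_add, List.map_append, List.map_map]
  rfl

theorem good_drop_pf {V : Type} [Fintype V] (col : V → Bool) (L1 L2 : List V) (E : Set (Sym2 V))
    (v : V) (h : Good col (L1 ++ v :: L2) E) : Good col (L1 ++ L2) E := by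
  obtain ⟨w, κ, N, a, b, hok, hκ, hin, hlen, hid⟩ := h
  have hl : (L1 ++ v :: L2).length = L1.length + 1 + L2.length := by
    simp only [List.length_append, List.length_cons]; omega
  rw [hl] at hlen
  obtain ⟨κ', hok', hκ1, hκ2⟩ := ok_del w κ hok L1.length L2.length
  refine ⟨delW L1.length L2.length ++ w, κ', N, a, b + L2.length, hok', ?_, ?_, ?_, ?_⟩
  · intro i hi
    rw [List.length_append] at hi
    rcases lt_or_ge i L1.length with h1 | h1
    · rw [hκ1 i h1, hκ i (by rw [hl]; omega), List.getElem_append_left h1,
        List.getElem_append_left h1]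
    · rw [hκ2 i h1 hi, hκ (i + 1) (by rw [hl]; omega), List.getElem_append_right h1,
        List.getElem_append_right (by omega)]
      congr 1
      have h2 : i + 1 - L1.length = (i - L1.length) + 1 := by omega
      simp only [h2, List.getElem_cons_succ]
  · intro l hl'
    rcases List.mem_append.1 hl' with h1 | h1
    · exact inr_del N L1.length L2.length (by omega) l h1
    · exact hin l h1
  · rw [List.length_append]; omega
  · intro n hn k hk c
    have hd := del_act n k L1.length L2.length (by omega)
      (fun l => (k : ℝ) ^ b * cnt k (L1 ++ v :: L2) E l) c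
    have hg : (fun c : Fin (n + 1) → Fin k => (k : ℝ) ^ b * cnt k (L1 ++ v :: L2) E
        (cl (fun i => i) (L1.length + 1 + L2.length) c)) =
        (k : ℝ) ^ a • (T (PR n k) w (fun _ => 1)) := by
      funext c'
      rw [← hl]
      exact (hid n hn k hk c').symm
    rw [hg, map_smul] at hd
    rw [T_append, Module.End.mul_apply]
    have hd' : (k : ℝ) ^ a * (T (PR n k) (delW L1.length L2.length))
        ((T (PR n k) w) (fun _ => 1)) c = _ := hd
    rw [hd', List.length_append, good_drop_cl]
    rw [← cnt_drop k L1 L2 E v (cl (fun i => i) L1.length c)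
      (cl (fun i => L1.length + i) L2.length c) (by simp [cl])]
    rw [← Finset.mul_sum, pow_add]
    ring

end Pool.Agent.H110R3.BP
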