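import Pool.Agent.H110R3.BP.Stubs

set_option autoImplicit false

namespace Pool.Agent.H110R3.BP

open Polynomial Pool.Agent.H207R2.BL

theorem good_of_proc_pf {V : Type} [Fintype V] (col : V → Bool) {L : List V} {U : Set V}
    {E : Set (Sym2 V)} (h : Proc L U E) (hb : Bip col E) : Good col L E := by
  induction h with
  | nil => exact good_nil col
  | new L1 L2 U E v h hv ih =>
    have hi := proc_inv h
    refine good_new col L1 L2 E v ?_ ?_ ?_ (ih hb)
    · intro hm
      exact hv (hi.1 v (List.mem_append_left _ hm))
    · intro hm
      exact hv (hi.1 v (List.mem_append_right _ hm))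
    · intro u hu
      exact hv (hi.2 u v hu).2.1
  | dup L1 L2 U E v h ih => exact good_dup col L1 L2 E v (ih hb)
  | edge L1 L2 U E u v h huv ih =>
    refine good_edge col L1 L2 E u v ?_ (ih ?_)
    · exact hb u v (Set.mem_insert _ _)
    · intro a b hab
      exact hb a b (Set.mem_insert_of_mem _ hab)
  | drop L1 L2 U E v h ih => exact good_drop col L1 L2 E v (ih hb)

end Pool.Agent.H110R3.BP
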