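import Pool.Agent.H110R3.BP.Defs

/-! V1, V6: gauge positivity of the product of cups -/

set_option autoImplicit false

namespace Pool.Agent.H110R3.BP

open Polynomial Pool.Agent.H207R2.BL

theorem T25_om_s0 (n : ℕ) (w : Bool → ℝ) (hw : ∀ x, 0 < w x) : 0 < om n w (s0 n) := by
  unfold om
  apply Finset.prod_pos
  intro i hi
  have hi' : i < n + 1 := Finset.mem_range.1 hi
  have h2 : s0 n (st n (2 * i)) = true := by
    simp only [s0]
    rw [st_val n _ (by omega)]
    simp
  have h3 : s0 n (st n (2 * i + 1)) = false := by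
    simp only [s0]
    rw [st_val n _ (by omega)]
    simp
  rw [h2, h3]
  simpa [cup] using hw _

theorem T25_om_nonneg (n : ℕ) (w : Bool → ℝ) (hw : ∀ x, 0 < w x)
    (s : Fin (2 * n + 2) → Bool) : 0 ≤ om n w s := by
  unfold om
  apply Finset.prod_nonneg
  intro i _
  unfold cup
  split_ifs
  · exact (hw _).le
  · exact le_rfl

theorem T25_U (n : ℕ) (κ : ℕ → Bool) (w : Bool → ℝ) (s : Fin (2 * n + 2) → Bool)
    (h : om n w s ≠ 0) : U n κ s = 1 := by
  unfold U
  apply Finset.prod_eq_one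
  intro i hi
  have h1 := Finset.prod_ne_zero_iff.1 h i hi
  unfold sg
  split_ifs with h2 h3
  · exfalso
    apply h1
    simp [cup, h3]
  · rfl
  · rfl

-- V1
theorem gpos_om (n : ℕ) (κ : ℕ → Bool) (w : Bool → ℝ) (hw : ∀ x, 0 < w x) :
    GPos n κ (om n w) := by
  refine ⟨fun s => ?_, T25_om_s0 n w hw⟩
  by_cases h : om n w s = 0
  · rw [h, mul_zero]
  · rw [T25_U n κ w s h, one_mul]
    exact T25_om_nonneg n w hw s

-- V6
theorem gpos_ip (n : ℕ) (κ : ℕ → Bool) (w : Bool → ℝ) (hw : ∀ x, 0 < w x)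
    (g : Fn (Fin (2 * n + 2)) Bool) (hg : GPos n κ g) : 0 < ip (om n w) g := by
  unfold ip
  refine Finset.sum_pos' (fun s _ => ?_) ⟨s0 n, Finset.mem_univ _, mul_pos (T25_om_s0 n w hw) hg.2⟩
  by_cases h : om n w s = 0
  · rw [h, zero_mul]
  · have h1 := hg.1 s
    rw [T25_U n κ w s h, one_mul] at h1
    exact mul_nonneg (T25_om_nonneg n w hw s) h1

end Pool.Agent.H110R3.BP
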