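import Pool.Agent.H110R3.BP.Defs

set_option autoImplicit false

namespace Pool.Agent.H110R3.BP

open Polynomial Pool.Agent.H207R2.BL Function

theorem T26_ne (n a b : ℕ) (ha : a ≤ 2 * n + 1) (hb : b ≤ 2 * n + 1) (h : a ≠ b) :
    st n a ≠ st n b := fun h' => h (st_inj n a b ha hb h')

/-- changing the column `i` (whose two spins differ) and its class -/
theorem T26_U (n : ℕ) (κ : ℕ → Bool) (i : ℕ) (hi : i ≤ n) (b x : Bool)
    (s : Fin (2 * n + 2) → Bool) (hs : s (st n (2 * i + 1)) = !(s (st n (2 * i)))) :
    U n (update κ i b) s = U n κ (update (update s (st n (2 * i)) x) (st n (2 * i + 1)) (!x)) := by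
  set s' := update (update s (st n (2 * i)) x) (st n (2 * i + 1)) (!x) with hs'
  have hother : ∀ j, j ≤ 2 * n + 1 → j ≠ 2 * i → j ≠ 2 * i + 1 → s' (st n j) = s (st n j) := by
    intro j hj h1 h2
    rw [hs', update_of_ne (T26_ne n _ _ hj (by omega) h2),
      update_of_ne (T26_ne n _ _ hj (by omega) h1)]
  have ha : s' (st n (2 * i)) = x := by
    rw [hs', update_of_ne (T26_ne n _ _ (by omega) (by omega) (by omega)), update_self]
  have hb : s' (st n (2 * i + 1)) = !x := by
    rw [hs', update_self]
  unfold U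
  refine Finset.prod_congr rfl fun j hj => ?_
  have hjn : j ≤ n := Nat.lt_succ_iff.1 (Finset.mem_range.1 hj)
  by_cases h1 : j = i
  · subst h1
    have e1 : sg n s j = 1 := by
      unfold sg
      rw [hs]
      cases s (st n (2 * j)) <;> simp
    have e2 : sg n s' j = 1 := by
      unfold sg
      rw [ha, hb]
      cases x <;> simp
    rw [e1, e2]
    simp
  · rw [update_of_ne h1]
    unfold sg
    rw [hother (2 * j) (by omega) (by omega) (by omega),
      hother (2 * j + 1) (by omega) (by omega) (by omega)]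

theorem T26_U0 (n : ℕ) (κ : ℕ → Bool) : U n κ (s0 n) = 1 := by
  unfold U
  refine Finset.prod_eq_one fun j hj => ?_
  have hjn : j ≤ n := Nat.lt_succ_iff.1 (Finset.mem_range.1 hj)
  have : sg n (s0 n) j = 1 := by
    unfold sg s0
    rw [st_val n _ (by omega), st_val n _ (by omega)]
    simp
  rw [this]
  simp

theorem gpos_C (n : ℕ) (κ : ℕ → Bool) (w : Bool → ℝ) (hw : ∀ x, 0 < w x) (i : ℕ) (hi : i ≤ n)
    (b : Bool) (g : Fn (Fin (2 * n + 2)) Bool) (hg : GPos n κ g) :
    GPos n (Function.update κ i b) (Eop w (st n (2 * i)) (st n (2 * i + 1)) g) := by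
  constructor
  · intro s
    rw [Eop_apply]
    unfold cup
    split_ifs with hs
    · unfold Bf
      rw [mul_left_comm, Finset.mul_sum]
      refine mul_nonneg (hw _).le (Finset.sum_nonneg fun x _ => ?_)
      rw [mul_left_comm, T26_U n κ i hi b x s hs]
      exact mul_nonneg (hw _).le (hg.1 _)
    · rw [zero_mul, mul_zero]
  · have h1 : s0 n (st n (2 * i)) = true := by
      unfold s0
      rw [st_val n _ (by omega)]
      simp
    have h2 : s0 n (st n (2 * i + 1)) = false := by
      unfold s0
      rw [st_val n _ (by omega)]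
      simp
    rw [Eop_apply]
    unfold cup
    rw [if_pos (by rw [h1, h2]; rfl)]
    refine mul_pos (hw _) ?_
    unfold Bf
    rw [Fintype.sum_bool]
    have e1 : update (update (s0 n) (st n (2 * i)) true) (st n (2 * i + 1)) (!true) = s0 n := by
      rw [← h1, update_eq_self, h1, Bool.not_true, ← h2, update_eq_self]
    rw [e1]
    refine add_pos_of_pos_of_nonneg (mul_pos (hw _) hg.2) (mul_nonneg (hw _).le ?_)
    have h3 := hg.1 (update (update (s0 n) (st n (2 * i)) false) (st n (2 * i + 1)) (!false))
    rw [← T26_U n κ i hi b false (s0 n) (by rw [h1, h2]; rfl), T26_U0, one_mul] at h3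
    exact h3

end Pool.Agent.H110R3.BP
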