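import Pool.Agent.H110R3.BP.Stubs

set_option autoImplicit false

namespace Pool.Agent.H110R3.BP

open Polynomial Pool.Agent.H207R2.BL

theorem gpos_J_ne (n a b : ℕ) (ha : a ≤ 2 * n + 1) (hb : b ≤ 2 * n + 1) (h : a ≠ b) :
    st n a ≠ st n b := fun h' => h (st_inj n a b ha hb h')

/-- flipping the two inner sites of two columns of equal class does not change the gauge sign -/
theorem gpos_J_U (n : ℕ) (κ : ℕ → Bool) (i : ℕ) (hi : i < n) (hκ : κ i = κ (i + 1))
    (s : Fin (2 * n + 2) → Bool) (hs : s (st n (2 * i + 2)) = !s (st n (2 * i + 1))) (x : Bool) :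
    U n κ (Function.update (Function.update s (st n (2 * i + 1)) x) (st n (2 * i + 2)) (!x)) =
      U n κ s := by
  set s' := Function.update (Function.update s (st n (2 * i + 1)) x) (st n (2 * i + 2)) (!x)
    with hs'
  have e1 : s' (st n (2 * i + 1)) = x := by
    rw [hs', Function.update_of_ne (gpos_J_ne n _ _ (by omega) (by omega) (by omega)),
      Function.update_self]
  have e2 : s' (st n (2 * i + 2)) = !x := by
    rw [hs', Function.update_self]
  have e3 : ∀ j, j ≤ 2 * n + 1 → j ≠ 2 * i + 1 → j ≠ 2 * i + 2 → s' (st n j) = s (st n j) := by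
    intro j hj h1 h2
    rw [hs', Function.update_of_ne (gpos_J_ne n _ _ hj (by omega) h2),
      Function.update_of_ne (gpos_J_ne n _ _ hj (by omega) h1)]
  have hrest : ∀ j ∈ ((Finset.range (n + 1)).erase i).erase (i + 1),
      (if κ j then sg n s' j else 1) = (if κ j then sg n s j else 1) := by
    intro j hj
    rw [Finset.mem_erase, Finset.mem_erase, Finset.mem_range] at hj
    have h1 : sg n s' j = sg n s j := by
      unfold sg
      rw [e3 (2 * j) (by omega) (by omega) (by omega),
        e3 (2 * j + 1) (by omega) (by omega) (by omega)]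
    rw [h1]
  have hmem : i ∈ Finset.range (n + 1) := Finset.mem_range.2 (by omega)
  have hmem' : i + 1 ∈ (Finset.range (n + 1)).erase i := by
    rw [Finset.mem_erase, Finset.mem_range]
    omega
  have hsplit : ∀ t : Fin (2 * n + 2) → Bool, U n κ t =
      (if κ i then sg n t i else 1) * ((if κ (i + 1) then sg n t (i + 1) else 1) *
        ∏ j ∈ ((Finset.range (n + 1)).erase i).erase (i + 1), if κ j then sg n t j else 1) := by
    intro t
    unfold U
    rw [← Finset.mul_prod_erase _ _ hmem, ← Finset.mul_prod_erase _ _ hmem']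
  rw [hsplit s', hsplit s, Finset.prod_congr rfl hrest, ← hκ]
  by_cases hk : κ i = true
  · have f1 : s' (st n (2 * i)) = s (st n (2 * i)) := e3 _ (by omega) (by omega) (by omega)
    have f2 : s' (st n (2 * (i + 1) + 1)) = s (st n (2 * (i + 1) + 1)) :=
      e3 _ (by omega) (by omega) (by omega)
    have g1 : sg n s' i * sg n s' (i + 1) = sg n s i * sg n s (i + 1) := by
      unfold sg
      have k1 : 2 * (i + 1) = 2 * i + 2 := by ring
      rw [f1, f2, k1, e1, e2, hs]
      generalize s (st n (2 * i)) = A
      generalize s (st n (2 * i + 1)) = B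
      generalize s (st n (2 * i + 2 + 1)) = D
      cases A <;> cases B <;> cases D <;> cases x <;> norm_num
    simp only [hk, if_true]
    rw [← mul_assoc, ← mul_assoc, g1]
  · simp only [hk, Bool.false_eq_true, if_false]

theorem gpos_J_pf (n : ℕ) (κ : ℕ → Bool) (w : Bool → ℝ) (hw : ∀ x, 0 < w x) (i : ℕ) (hi : i < n)
    (hκ : κ i = κ (i + 1)) (g : Fn (Fin (2 * n + 2)) Bool) (hg : GPos n κ g) :
    GPos n κ (Eop w (st n (2 * i + 1)) (st n (2 * i + 2)) g) := by
  have key : ∀ s, s (st n (2 * i + 2)) = !s (st n (2 * i + 1)) →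
      0 ≤ U n κ s * Bf w (st n (2 * i + 1)) (st n (2 * i + 2)) g s := by
    intro s hs
    unfold Bf
    rw [Finset.mul_sum]
    refine Finset.sum_nonneg (fun x _ => ?_)
    have h1 := hg.1 (Function.update (Function.update s (st n (2 * i + 1)) x)
      (st n (2 * i + 2)) (!x))
    rw [gpos_J_U n κ i hi hκ s hs x] at h1
    have h2 := mul_nonneg (hw x).le h1
    calc (0 : ℝ) ≤ _ := h2
      _ = _ := by ring
  refine ⟨fun s => ?_, ?_⟩
  · rw [Eop_apply]
    by_cases hs : s (st n (2 * i + 2)) = !s (st n (2 * i + 1))
    · have h1 := key s hs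
      have h2 := mul_nonneg (hw (s (st n (2 * i + 1)))).le h1
      simp only [cup, hs, if_true]
      calc (0 : ℝ) ≤ _ := h2
        _ = _ := by ring
    · simp only [cup, hs, if_false, zero_mul, mul_zero, le_refl]
  · rw [Eop_apply]
    have v1 : (st n (2 * i + 1)).val = 2 * i + 1 := st_val n _ (by omega)
    have v2 : (st n (2 * i + 2)).val = 2 * i + 2 := st_val n _ (by omega)
    have a1 : s0 n (st n (2 * i + 1)) = false := by
      simp [s0, v1]
    have a2 : s0 n (st n (2 * i + 2)) = true := by
      simp [s0, v2]
    have hs : s0 n (st n (2 * i + 2)) = !s0 n (st n (2 * i + 1)) := by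
      rw [a1, a2]
      rfl
    have hU : U n κ (s0 n) = 1 := by
      unfold U
      refine Finset.prod_eq_one (fun j hj => ?_)
      rw [Finset.mem_range] at hj
      have w1 : (st n (2 * j)).val = 2 * j := st_val n _ (by omega)
      have w2 : (st n (2 * j + 1)).val = 2 * j + 1 := st_val n _ (by omega)
      have b1 : s0 n (st n (2 * j)) = true := by
        simp [s0, w1]
      have b2 : s0 n (st n (2 * j + 1)) = false := by
        simp [s0, w2]
      unfold sg
      rw [b1, b2]
      simp
    have hcup : cup w (s0 n (st n (2 * i + 1))) (s0 n (st n (2 * i + 2))) = w false := by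
      rw [a1, a2]
      simp [cup]
    rw [hcup]
    refine mul_pos (hw false) ?_
    unfold Bf
    rw [Fintype.sum_bool]
    have c1 : Function.update (Function.update (s0 n) (st n (2 * i + 1)) false)
        (st n (2 * i + 2)) (!false) = s0 n := by
      have d1 : Function.update (s0 n) (st n (2 * i + 1)) false = s0 n := by
        rw [← a1, Function.update_eq_self]
      have d2 : (!false) = s0 n (st n (2 * i + 2)) := by
        rw [a2]
        rfl
      rw [d1, d2, Function.update_eq_self]
    have c2 := hg.1 (Function.update (Function.update (s0 n) (st n (2 * i + 1)) true)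
      (st n (2 * i + 2)) (!true))
    rw [gpos_J_U n κ i hi hκ (s0 n) hs true, hU, one_mul] at c2
    rw [c1]
    have c3 := mul_nonneg (hw true).le c2
    have c4 := mul_pos (hw false) hg.2
    linarith

end Pool.Agent.H110R3.BP
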