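import Pool.Agent.H110R3.BP.Defs

set_option autoImplicit false

namespace Pool.Agent.H110R3.BP

open Polynomial Pool.Agent.H207R2.BL Function

theorem T28_r (p q : Bool) : (if p = !q then (-1:ℝ) else 1) = -1 * (if p = q then -1 else 1) := by
  cases p <;> cases q <;> simp

theorem T28_l (p q : Bool) : (if (!p) = q then (-1:ℝ) else 1) = -1 * (if p = q then -1 else 1) := by
  cases p <;> cases q <;> simp

theorem T28_ne (n a b : ℕ) (ha : a ≤ 2 * n + 1) (hb : b ≤ 2 * n + 1) (h : a ≠ b) :
    st n a ≠ st n b := fun h' => h (st_inj n a b ha hb h')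

theorem T28_U (n : ℕ) (κ : ℕ → Bool) (i : ℕ) (hi : i < n) (hκ : κ i ≠ κ (i + 1))
    (s : Fin (2 * n + 2) → Bool) :
    U n κ (update (update s (st n (2 * i + 1)) (!(s (st n (2 * i + 1)))))
      (st n (2 * i + 2)) (!(s (st n (2 * i + 2))))) = - U n κ s := by
  set s' := update (update s (st n (2 * i + 1)) (!(s (st n (2 * i + 1)))))
      (st n (2 * i + 2)) (!(s (st n (2 * i + 2)))) with hs'
  have hother : ∀ j, j ≤ 2 * n + 1 → j ≠ 2 * i + 1 → j ≠ 2 * i + 2 → s' (st n j) = s (st n j) := by
    intro j hj h1 h2
    rw [hs', update_of_ne (T28_ne n _ _ hj (by omega) h2),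
      update_of_ne (T28_ne n _ _ hj (by omega) h1)]
  have ha : s' (st n (2 * i + 1)) = !(s (st n (2 * i + 1))) := by
    rw [hs', update_of_ne (T28_ne n _ _ (by omega) (by omega) (by omega)), update_self]
  have hb : s' (st n (2 * i + 2)) = !(s (st n (2 * i + 2))) := by
    rw [hs', update_self]
  unfold U
  have hfac : ∀ j ∈ Finset.range (n + 1), (if κ j then sg n s' j else 1) =
      ((if j = i then (if κ i then (-1:ℝ) else 1) else 1) *
        (if j = i + 1 then (if κ (i + 1) then (-1:ℝ) else 1) else 1)) *
        (if κ j then sg n s j else 1) := by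
    intro j hj
    have hjn : j ≤ n := Nat.lt_succ_iff.1 (Finset.mem_range.1 hj)
    by_cases h1 : j = i
    · subst h1
      rw [if_pos rfl, if_neg (by omega : ¬ j = j + 1), mul_one]
      by_cases h3 : κ j = true
      · rw [if_pos h3, if_pos h3, if_pos h3]
        unfold sg
        rw [ha, hother (2 * j) (by omega) (by omega) (by omega)]
        exact T28_r _ _
      · rw [if_neg h3, if_neg h3, if_neg h3, mul_one]
    by_cases h2 : j = i + 1
    · subst h2
      rw [if_neg h1, if_pos rfl, one_mul]
      by_cases h3 : κ (i + 1) = true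
      · rw [if_pos h3, if_pos h3, if_pos h3]
        unfold sg
        have e1 : 2 * (i + 1) = 2 * i + 2 := by ring
        rw [e1, hb, hother (2 * i + 2 + 1) (by omega) (by omega) (by omega)]
        exact T28_l _ _
      · rw [if_neg h3, if_neg h3, if_neg h3, mul_one]
    · rw [if_neg h1, if_neg h2, one_mul, one_mul]
      unfold sg
      rw [hother (2 * j) (by omega) (by omega) (by omega),
        hother (2 * j + 1) (by omega) (by omega) (by omega)]
  rw [Finset.prod_congr rfl hfac, Finset.prod_mul_distrib, Finset.prod_mul_distrib,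
    Finset.prod_ite_eq', Finset.prod_ite_eq', if_pos (Finset.mem_range.2 (by omega)),
    if_pos (Finset.mem_range.2 (by omega))]
  have h4 : (if κ i then (-1:ℝ) else 1) * (if κ (i + 1) then (-1:ℝ) else 1) = -1 := by
    revert hκ
    cases κ i <;> cases κ (i + 1) <;> simp
  rw [h4]
  ring

theorem gpos_X (n : ℕ) (κ : ℕ → Bool) (w : Bool → ℝ) (hw : ∀ x, 0 < w x)
    (hw1 : w true * w false = 1) (i : ℕ) (hi : i < n)
    (hκ : κ i ≠ κ (i + 1)) (g : Fn (Fin (2 * n + 2)) Bool) (hg : GPos n κ g) :
    GPos n κ (g - (w true ^ 2 + w false ^ 2)⁻¹ • Eop w (st n (2 * i + 1)) (st n (2 * i + 2)) g) := by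
  set a := st n (2 * i + 1) with ha
  set b := st n (2 * i + 2) with hb
  have hab : a ≠ b := T28_ne n _ _ (by omega) (by omega) (by omega)
  set δ := w true ^ 2 + w false ^ 2 with hδ
  have hδ0 : 0 < δ := by
    have := hw true
    have := hw false
    positivity
  have hval : ∀ s : Fin (2 * n + 2) → Bool, s b = !(s a) →
      (g - δ⁻¹ • Eop w a b g) s =
        w (!(s a)) ^ 2 / δ * g s - δ⁻¹ * g (update (update s a (!(s a))) b (!(s b))) := by
    intro s hs
    have e1 : Bf w a b g s = w (s a) * g s +
        w (!(s a)) * g (update (update s a (!(s a))) b (!(s b))) := by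
      have hself : update (update s a (s a)) b (!(s a)) = s := by
        rw [update_eq_self, ← hs, update_eq_self]
      have hsb : (!(s b)) = !(!(s a)) := by rw [hs]
      unfold Bf
      rw [Fintype.sum_bool, hsb]
      generalize hx : s a = x at *
      cases x
      · simp only [Bool.not_false, Bool.not_true] at hself ⊢
        rw [hself]
        ring
      · simp only [Bool.not_false, Bool.not_true] at hself ⊢
        rw [hself]
    have e2 : cup w (s a) (s b) = w (s a) := by
      unfold cup
      rw [if_pos hs]
    have e3 : w (s a) * w (!(s a)) = 1 := w_mul_not w hw1 _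
    have e4 : w (s a) ^ 2 + w (!(s a)) ^ 2 = δ := by
      rw [hδ]
      cases s a
      · simp only [Bool.not_false]
        ring
      · simp only [Bool.not_true]
    show g s - δ⁻¹ * (Eop w a b g s) = _
    rw [Eop_apply, e1, e2]
    have e5 : δ⁻¹ * (w (s a) * (w (s a) * g s +
        w (!(s a)) * g (update (update s a (!(s a))) b (!(s b))))) =
        w (s a) ^ 2 / δ * g s + δ⁻¹ * g (update (update s a (!(s a))) b (!(s b))) := by
      have : δ⁻¹ * (w (s a) * (w (s a) * g s +
        w (!(s a)) * g (update (update s a (!(s a))) b (!(s b))))) =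
        w (s a) ^ 2 / δ * g s + (w (s a) * w (!(s a))) *
          (δ⁻¹ * g (update (update s a (!(s a))) b (!(s b)))) := by ring
      rw [this, e3, one_mul]
    rw [e5]
    have e6 : w (!(s a)) ^ 2 / δ = 1 - w (s a) ^ 2 / δ := by
      field_simp
      linarith
    rw [e6]
    ring
  constructor
  · intro s
    by_cases hs : s b = !(s a)
    · rw [hval s hs]
      have h1 := hg.1 s
      have h2 := hg.1 (update (update s a (!(s a))) b (!(s b)))
      rw [T28_U n κ i hi hκ s] at h2
      have h3 : 0 ≤ w (!(s a)) ^ 2 / δ := by positivity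
      have h4 : 0 ≤ δ⁻¹ := by positivity
      have h5 := mul_nonneg h3 h1
      have h6 := mul_nonneg h4 h2
      nlinarith
    · have : (g - δ⁻¹ • Eop w a b g) s = g s := by
        show g s - δ⁻¹ * (Eop w a b g s) = _
        rw [Eop_apply]
        unfold cup
        rw [if_neg hs]
        ring
      rw [this]
      exact hg.1 s
  · have hsa : s0 n a = false := by
      simp only [s0, ha]
      rw [st_val n _ (by omega)]
      simp
    have hsb : s0 n b = true := by
      simp only [s0, hb]
      rw [st_val n _ (by omega)]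
      simp
    rw [hval (s0 n) (by rw [hsa, hsb]; rfl)]
    have hU : U n κ (s0 n) = 1 := by
      unfold U
      refine Finset.prod_eq_one fun j hj => ?_
      have hjn : j ≤ n := Nat.lt_succ_iff.1 (Finset.mem_range.1 hj)
      have : sg n (s0 n) j = 1 := by
        unfold sg s0
        rw [st_val n _ (by omega), st_val n _ (by omega)]
        simp
      rw [this]
      simp
    have h2 := hg.1 (update (update (s0 n) a (!(s0 n a))) b (!(s0 n b)))
    rw [T28_U n κ i hi hκ (s0 n), hU] at h2
    have h3 : 0 < w (!(s0 n a)) ^ 2 / δ := by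
      have := hw (!(s0 n a))
      positivity
    have h4 : 0 < δ⁻¹ := by positivity
    have h5 := mul_pos h3 hg.2
    nlinarith

end Pool.Agent.H110R3.BP
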