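import Pool.Agent.H110R3.BP.Stubs
set_option autoImplicit false
namespace Pool.Agent.H110R3.BP
open Polynomial Pool.Agent.H207R2.BL

theorem gpos_word_smul (n : ℕ) (κ : ℕ → Bool) (g : Fn (Fin (2 * n + 2)) Bool) (c : ℝ)
    (hc : 0 < c) (hg : GPos n κ g) : GPos n κ (c • g) := by
  refine ⟨fun s => ?_, ?_⟩
  · have h := mul_nonneg hc.le (hg.1 s)
    have e : U n κ s * (c • g) s = c * (U n κ s * g s) := by
      show U n κ s * (c * g s) = _
      ring
    rw [e]
    exact h
  · show 0 < c * g (s0 n)
    exact mul_pos hc hg.2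

theorem gpos_word_pf (n : ℕ) (w : Bool → ℝ) (hw : w true * w false = 1) (hpos : ∀ x, 0 < w x)
    (q : ℝ) (hδ0 : w true ^ 2 + w false ^ 2 ≠ 0) (hq : q = (w true ^ 2 + w false ^ 2) ^ 2)
    (wd : List Let) (κ : ℕ → Bool) (hok : OK wd κ) (hr : ∀ l ∈ wd, InR n l) :
    GPos n κ (T (vert n (st n) (st_inj n) w hw (w true ^ 2 + w false ^ 2) q rfl hδ0 hq) wd
      (om n w)) := by
  have hδ : 0 < w true ^ 2 + w false ^ 2 := by
    have := hpos true
    positivity
  induction hok with
  | nil κ =>
    have h : T (vert n (st n) (st_inj n) w hw (w true ^ 2 + w false ^ 2) q rfl hδ0 hq) [] = 1 := by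
      simp [T]
    rw [h, Module.End.one_apply]
    exact gpos_om n κ w hpos
  | C i b wd κ h ih =>
    have hi : i ≤ n := hr _ List.mem_cons_self
    have ih' := ih (fun l hl => hr l (List.mem_cons_of_mem _ hl))
    have h1 : T (vert n (st n) (st_inj n) w hw (w true ^ 2 + w false ^ 2) q rfl hδ0 hq)
        (Let.C i :: wd) (om n w) = (w true ^ 2 + w false ^ 2) •
        Eop w (st n (2 * i)) (st n (2 * i + 1))
          (T (vert n (st n) (st_inj n) w hw (w true ^ 2 + w false ^ 2) q rfl hδ0 hq) wd
            (om n w)) := by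
      have h2 : T (vert n (st n) (st_inj n) w hw (w true ^ 2 + w false ^ 2) q rfl hδ0 hq)
        (Let.C i :: wd) = ((if Even (2 * i) then (w true ^ 2 + w false ^ 2) else
          (w true ^ 2 + w false ^ 2)⁻¹) • Eop w (st n (2 * i)) (st n (2 * i + 1))) *
          T (vert n (st n) (st_inj n) w hw (w true ^ 2 + w false ^ 2) q rfl hδ0 hq) wd := by
        unfold T
        rw [List.map_cons, List.prod_cons]
        rfl
      rw [h2, if_pos (even_two_mul i)]
      rfl
    rw [h1]
    exact gpos_word_smul n _ _ _ hδ (gpos_C n κ w hpos i hi b _ ih')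
  | J i wd κ h hκ ih =>
    have hi : i < n := hr _ List.mem_cons_self
    have ih' := ih (fun l hl => hr l (List.mem_cons_of_mem _ hl))
    have h1 : T (vert n (st n) (st_inj n) w hw (w true ^ 2 + w false ^ 2) q rfl hδ0 hq)
        (Let.J i :: wd) (om n w) = (w true ^ 2 + w false ^ 2)⁻¹ •
        Eop w (st n (2 * i + 1)) (st n (2 * i + 2))
          (T (vert n (st n) (st_inj n) w hw (w true ^ 2 + w false ^ 2) q rfl hδ0 hq) wd
            (om n w)) := by
      have h2 : T (vert n (st n) (st_inj n) w hw (w true ^ 2 + w false ^ 2) q rfl hδ0 hq)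
        (Let.J i :: wd) = ((if Even (2 * i + 1) then (w true ^ 2 + w false ^ 2) else
          (w true ^ 2 + w false ^ 2)⁻¹) • Eop w (st n (2 * i + 1)) (st n (2 * i + 1 + 1))) *
          T (vert n (st n) (st_inj n) w hw (w true ^ 2 + w false ^ 2) q rfl hδ0 hq) wd := by
        unfold T
        rw [List.map_cons, List.prod_cons]
        rfl
      have h3 : ¬ Even (2 * i + 1) := by
        rw [Nat.even_iff]
        omega
      rw [h2, if_neg h3]
      rfl
    rw [h1]
    exact gpos_word_smul n _ _ _ (inv_pos.mpr hδ) (gpos_J n κ w hpos i hi hκ _ ih')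
  | X i wd κ h hκ ih =>
    have hi : i < n := hr _ List.mem_cons_self
    have ih' := ih (fun l hl => hr l (List.mem_cons_of_mem _ hl))
    have h1 : T (vert n (st n) (st_inj n) w hw (w true ^ 2 + w false ^ 2) q rfl hδ0 hq)
        (Let.X i :: wd) (om n w) =
          T (vert n (st n) (st_inj n) w hw (w true ^ 2 + w false ^ 2) q rfl hδ0 hq) wd
            (om n w) - (w true ^ 2 + w false ^ 2)⁻¹ •
        Eop w (st n (2 * i + 1)) (st n (2 * i + 2))
          (T (vert n (st n) (st_inj n) w hw (w true ^ 2 + w false ^ 2) q rfl hδ0 hq) wd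
            (om n w)) := by
      have h2 : T (vert n (st n) (st_inj n) w hw (w true ^ 2 + w false ^ 2) q rfl hδ0 hq)
        (Let.X i :: wd) = (1 - ((if Even (2 * i + 1) then (w true ^ 2 + w false ^ 2) else
          (w true ^ 2 + w false ^ 2)⁻¹) • Eop w (st n (2 * i + 1)) (st n (2 * i + 1 + 1)))) *
          T (vert n (st n) (st_inj n) w hw (w true ^ 2 + w false ^ 2) q rfl hδ0 hq) wd := by
        unfold T
        rw [List.map_cons, List.prod_cons]
        rfl
      have h3 : ¬ Even (2 * i + 1) := by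
        rw [Nat.even_iff]
        omega
      rw [h2, if_neg h3]
      rfl
    rw [h1]
    exact gpos_X n κ w hpos hw i hi hκ _ ih'

end Pool.Agent.H110R3.BP
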