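import Mathlib

/-!
Splitting a sorted list by a rank.
-/

set_option autoImplicit false

namespace Pool.Agent.H110R3.BP

-- G5 (splitting a sorted list by a rank)
theorem split_rank {α : Type} (R : α → α → Prop) (l : List α) (hl : l.Pairwise R)
    (hasym : ∀ a b, R a b → ¬ R b a) (rk : α → ℕ) (hrk : ∀ a ∈ l, rk a ≤ 2)
    (hR : ∀ a ∈ l, ∀ b ∈ l, rk a < rk b → R a b) :
    l = l.filter (fun a => decide (rk a = 0)) ++ l.filter (fun a => decide (rk a = 1)) ++
      l.filter (fun a => decide (rk a = 2)) := by
  induction l with
  | nil => simp
  | cons a t ih =>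
    rw [List.pairwise_cons] at hl
    have ih' := ih hl.2 (fun b hb => hrk b (List.mem_cons_of_mem _ hb))
      (fun b hb c hc => hR b (List.mem_cons_of_mem _ hb) c (List.mem_cons_of_mem _ hc))
    have hge : ∀ b ∈ t, rk a ≤ rk b := by
      intro b hb
      by_contra h
      push Not at h
      exact hasym _ _ (hl.1 b hb) (hR b (List.mem_cons_of_mem _ hb) a List.mem_cons_self h)
    have e : ∀ m, m < rk a → t.filter (fun b => decide (rk b = m)) = [] := by
      intro m hm
      rw [List.filter_eq_nil_iff]
      intro b hb
      have := hge b hb
      simp only [decide_eq_true_eq]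
      omega
    have ha : rk a = 0 ∨ rk a = 1 ∨ rk a = 2 := by
      have := hrk a List.mem_cons_self
      omega
    rcases ha with h | h | h
    · rw [List.filter_cons_of_pos (by simp [h]), List.filter_cons_of_neg (by simp [h]),
        List.filter_cons_of_neg (by simp [h]), List.cons_append, List.cons_append, ← ih']
    · have e0 := e 0 (by omega)
      rw [e0, List.nil_append] at ih'
      rw [List.filter_cons_of_neg (by simp [h]), List.filter_cons_of_pos (by simp [h]),
        List.filter_cons_of_neg (by simp [h]), e0, List.nil_append, List.cons_append, ← ih']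
    · have e0 := e 0 (by omega)
      have e1 := e 1 (by omega)
      rw [e0, e1, List.nil_append, List.nil_append] at ih'
      rw [List.filter_cons_of_neg (by simp [h]), List.filter_cons_of_neg (by simp [h]),
        List.filter_cons_of_pos (by simp [h]), e0, e1, List.nil_append, List.nil_append, ← ih']

end Pool.Agent.H110R3.BP
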