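import Pool.Agent.H110R3.BP.Stubs
set_option autoImplicit false
namespace Pool.Agent.H110R3.BP
open Polynomial Pool.Agent.H207R2.BL

theorem state_T_aux (n : ℕ) (L : List (ℝ × List ℕ)) (hL : ∀ a ∈ L, ∀ j ∈ a.2, j < 2 * n + 1) :
    ∃ R : List (ℝ × ℤ), ∀ (q : ℝ), q ≠ 0 → ∀ (A : Type) [Ring A] [Algebra ℝ A]
      (S : TL (2 * n + 1) q A) (F : State S),
      F.φ ((L.map (fun a => a.1 • S.W a.2)).sum) =
        ((R.map (fun a => a.1 * q ^ a.2)).sum) * F.φ 1 := by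
  induction L with
  | nil =>
    refine ⟨[], ?_⟩
    intro q _ A _ _ S F
    simp
  | cons a L ih =>
    obtain ⟨R, hR⟩ := ih (fun b hb => hL b (List.mem_cons_of_mem _ hb))
    obtain ⟨N, hN⟩ := state_eval n (2 * n + 1) le_rfl a.2 (hL a List.mem_cons_self)
    refine ⟨(a.1, N) :: R, ?_⟩
    intro q hq A _ _ S F
    rw [List.map_cons, List.sum_cons, map_add, map_smul, hN q hq A S F, hR q hq A S F,
      List.map_cons, List.sum_cons, smul_eq_mul]
    ring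

theorem state_T_pf (n : ℕ) (w : List Let) (hw : ∀ l ∈ w, InR n l) :
    ∃ R : List (ℝ × ℤ), ∀ (q : ℝ), q ≠ 0 → ∀ (A : Type) [Ring A] [Algebra ℝ A]
      (S : TL (2 * n + 1) q A) (F : State S),
      F.φ (T S w) = ((R.map (fun a => a.1 * q ^ a.2)).sum) * F.φ 1 := by
  obtain ⟨R, hR⟩ := state_T_aux n (expd w) (expd_lt n w hw)
  refine ⟨R, ?_⟩
  intro q hq A _ _ S F
  rw [T_expd S w]
  exact hR q hq A S F

end Pool.Agent.H110R3.BP
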