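import Pool.Agent.H110R3.BP.Defs

/-! BP task T31 (helper666): `laurent_eq`. -/

set_option autoImplicit false
namespace Pool.Agent.H110R3.BP
open Polynomial Pool.Agent.H207R2.BL

namespace T31

lemma clear (R : List (ℝ × ℤ)) : ∃ (M : ℕ) (Q : ℝ[X]), ∀ x : ℝ, 0 < x →
    x ^ M * (R.map (fun r => r.1 * x ^ r.2)).sum = Q.eval x := by
  induction R with
  | nil => exact ⟨0, 0, fun x _ => by simp⟩
  | cons r R ih =>
    obtain ⟨M, Q, hQ⟩ := ih
    refine ⟨M + r.2.natAbs, C r.1 * X ^ (M + (r.2.natAbs + r.2).toNat) + X ^ r.2.natAbs * Q,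
      fun x hx => ?_⟩
    have h1 : x ^ (M + r.2.natAbs) * x ^ r.2 = x ^ (M + (r.2.natAbs + r.2).toNat) := by
      rw [← zpow_natCast, ← zpow_natCast, ← zpow_add₀ hx.ne']
      congr 1
      have h2 : (((r.2.natAbs : ℤ) + r.2).toNat : ℤ) = (r.2.natAbs : ℤ) + r.2 :=
        Int.toNat_of_nonneg (by omega)
      rw [Nat.cast_add, Nat.cast_add, h2]
      ring
    simp only [List.map_cons, List.sum_cons, eval_add, eval_mul, eval_C, eval_pow, eval_X]
    rw [← hQ x hx, ← h1, pow_add]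
    ring

end T31

theorem laurent_eq (p : ℝ[X]) (a b : ℕ) (R : List (ℝ × ℤ))
    (h : ∀ k : ℕ, 1 ≤ k → (k : ℝ) ^ b * p.eval (k : ℝ) =
      (k : ℝ) ^ a * (R.map (fun r => r.1 * (k : ℝ) ^ r.2)).sum) (q : ℝ) (hq : 0 < q) :
    q ^ b * p.eval q = q ^ a * (R.map (fun r => r.1 * q ^ r.2)).sum := by
  obtain ⟨M, Q, hQ⟩ := T31.clear R
  have hpoly : X ^ M * (X ^ b * p) = X ^ a * Q := by
    apply Polynomial.eq_of_infinite_eval_eq
    have hinf : (Set.range (fun k : ℕ => ((k + 1 : ℕ) : ℝ))).Infinite := by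
      apply Set.infinite_range_of_injective
      intro i j hij
      have : ((i + 1 : ℕ) : ℝ) = ((j + 1 : ℕ) : ℝ) := hij
      exact Nat.succ_injective (Nat.cast_injective this)
    refine hinf.mono ?_
    rintro _ ⟨k, rfl⟩
    have hk : (0 : ℝ) < ((k + 1 : ℕ) : ℝ) := by positivity
    simp only [Set.mem_ofPred_eq, eval_mul, eval_pow, eval_X]
    rw [h (k + 1) (by omega), ← hQ _ hk]
    ring
  have := congrArg (eval q) hpoly
  simp only [eval_mul, eval_pow, eval_X] at this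
  rw [← hQ q hq] at this
  have hM : q ^ M ≠ 0 := pow_ne_zero _ hq.ne'
  apply mul_left_cancel₀ hM
  rw [this]
  ring

end Pool.Agent.H110R3.BP
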