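import Pool.Agent.H110R3.BP.Stubs
set_option autoImplicit false
namespace Pool.Agent.H110R3.BP
open Polynomial Pool.Agent.H207R2.BL

theorem exists_weights_pf (q : ℝ) (hq : 4 ≤ q) : ∃ w : Bool → ℝ, w true * w false = 1 ∧
    (∀ x, 0 < w x) ∧ q = (w true ^ 2 + w false ^ 2) ^ 2 := by
  have h2 : 2 ≤ Real.sqrt q := by
    rw [show (2 : ℝ) = Real.sqrt 4 by
      rw [show (4 : ℝ) = 2 ^ 2 by norm_num, Real.sqrt_sq (by norm_num)]]
    exact Real.sqrt_le_sqrt hq
  set d := Real.sqrt q with hd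
  have hdd : d ^ 2 = q := Real.sq_sqrt (by linarith)
  set r := Real.sqrt (d ^ 2 - 4) with hr
  have hrr : r ^ 2 = d ^ 2 - 4 := Real.sq_sqrt (by nlinarith)
  have hr0 : 0 ≤ r := Real.sqrt_nonneg _
  set t := (d + r) / 2 with ht
  have ht0 : 0 < t := by positivity
  have htt : t * (d - t) = 1 := by
    rw [ht]; nlinarith
  have hdt : 0 < d - t := by
    by_contra h
    push Not at h
    nlinarith
  refine ⟨fun b => if b then Real.sqrt t else Real.sqrt (d - t), ?_, ?_, ?_⟩
  · simp only [if_true, Bool.false_eq_true, if_false]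
    rw [← Real.sqrt_mul ht0.le, htt, Real.sqrt_one]
  · intro x
    cases x
    · simpa using hdt
    · simpa using ht0
  · simp only [if_true, Bool.false_eq_true, if_false]
    rw [Real.sq_sqrt ht0.le, Real.sq_sqrt hdt.le, ← hdd]
    ring

end Pool.Agent.H110R3.BP
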