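import Pool.Agent.H110R3.BP.Stubs
set_option autoImplicit false
namespace Pool.Agent.H110R3.BP
open Polynomial Pool.Agent.H207R2.BL

/-- the integer values -/
theorem good_pos_nat {V : Type} [Fintype V] (G : SimpleGraph V) (p : ℝ[X])
    (hp : IsChrom G p) (w : List Let) (N a b : ℕ) (k : ℕ) (hk : 1 ≤ k)
    (h : ∀ c : Fin (N + 1) → Fin k,
      (k : ℝ) ^ a * (T (PR N k) w (fun _ => 1)) c =
        (k : ℝ) ^ b * cnt k ([] : List V) G.edgeSet (cl (fun i => i) 0 c))
    (r : ℝ) (hr : ∀ F : State (PR N k), F.φ (T (PR N k) w) = r * F.φ 1) :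
    (k : ℝ) ^ b * p.eval (k : ℝ) = (k : ℝ) ^ a * r := by
  have hP2 : ∀ j, j < 2 * N + 1 → ∀ f g : Fn (Fin (N + 1)) (Fin k),
      ip f ((PR N k).e j g) = ip ((PR N k).e j f) g :=
    fun j hj f g => potts_symm N (pt N) (pt_inj N) _ _ j f g
  have hP1 : ∀ j, j < 2 * N + 1 → Even j →
      (PR N k).e j (fun _ => 1) = (k : ℝ) • (fun _ => (1 : ℝ)) := by
    intro j hj he
    obtain ⟨i, rfl⟩ := even_iff_exists_two_mul.1 he
    rw [PR_even]
    funext c
    simp [Cop_apply]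
  have e1 := hr (vecState (PR N k) hP2 (fun _ => 1) hP1)
  change ip (fun _ => 1) (T (PR N k) w (fun _ => 1)) =
    r * ip (fun _ => 1) ((1 : Module.End ℝ (Fn (Fin (N + 1)) (Fin k))) (fun _ => 1)) at e1
  have e3 : ip (fun _ : Fin (N + 1) → Fin k => (1 : ℝ))
      ((1 : Module.End ℝ (Fn (Fin (N + 1)) (Fin k))) (fun _ => 1)) = (k : ℝ) ^ (N + 1) := by
    simp [ip]
  have e2 : (k : ℝ) ^ a * ip (fun _ => 1) (T (PR N k) w (fun _ => 1)) =
      (k : ℝ) ^ (N + 1) * ((k : ℝ) ^ b * p.eval (k : ℝ)) := by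
    unfold ip
    rw [Finset.mul_sum]
    have : ∀ c : Fin (N + 1) → Fin k, (k : ℝ) ^ a * (1 * (T (PR N k) w (fun _ => 1)) c) =
        (k : ℝ) ^ b * p.eval (k : ℝ) := by
      intro c
      rw [one_mul, h c, hp k, ← cnt_final G k]
      rfl
    rw [Finset.sum_congr rfl (fun c _ => this c)]
    simp
  rw [e1, e3] at e2
  have hk0 : (k : ℝ) ^ (N + 1) ≠ 0 := by
    have : (k : ℝ) ≠ 0 := by
      have : (1 : ℝ) ≤ (k : ℝ) := by exact_mod_cast hk
      linarith
    positivity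
  apply mul_left_cancel₀ hk0
  rw [← e2]
  ring

theorem good_pos_pf {V : Type} [Fintype V] (col : V → Bool) (G : SimpleGraph V)
    (h : Good col [] G.edgeSet) (p : ℝ[X]) (hp : IsChrom G p) (q : ℝ) (hq : 4 ≤ q) :
    0 < p.eval q := by
  obtain ⟨wd, κ, N, a, b, hok, -, hr, -, hw⟩ := h
  obtain ⟨R, hR⟩ := state_T N wd hr
  have hq0 : q ≠ 0 := by linarith
  have hqpos : 0 < q := by linarith
  have hL := laurent_eq p a b R (fun k hk => by
    have hk0 : (k : ℝ) ≠ 0 := by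
      have : (1 : ℝ) ≤ (k : ℝ) := by exact_mod_cast hk
      linarith
    exact good_pos_nat G p hp wd N a b k hk (hw N le_rfl k hk) _
      (fun F => hR (k : ℝ) hk0 _ (PR N k) F)) q hqpos
  obtain ⟨w, hw1, hwpos, hδ⟩ := exists_weights q hq
  have hδ0 : w true ^ 2 + w false ^ 2 ≠ 0 := by
    have := hwpos true
    positivity
  let S := vert N (st N) (st_inj N) w hw1 (w true ^ 2 + w false ^ 2) q rfl hδ0 hδ
  have hSsymm : ∀ j, j < 2 * N + 1 → ∀ f g : Fn (Fin (2 * N + 2)) Bool,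
      ip f (S.e j g) = ip (S.e j f) g :=
    fun j hj f g => vert_symm N (st N) (st_inj N) w hw1 _ q rfl hδ0 hδ j hj f g
  have hSom : ∀ j, j < 2 * N + 1 → Even j → S.e j (om N w) = q • om N w := by
    intro j hj he
    obtain ⟨i, rfl⟩ := even_iff_exists_two_mul.1 he
    change ((if Even (2 * i) then (w true ^ 2 + w false ^ 2) else (w true ^ 2 + w false ^ 2)⁻¹) •
      Eop w (st N (2 * i)) (st N (2 * i + 1)) : Module.End ℝ (Fn (Fin (2 * N + 2)) Bool))
        (om N w) = q • om N w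
    rw [if_pos (even_two_mul i), LinearMap.smul_apply, Eop_om N w i (by omega), smul_smul, hδ]
    congr 1
    ring
  have hFpos : 0 < ip (om N w) (om N w) := om_pos N w hwpos
  have f1 := hR q hq0 _ S (vecState S hSsymm (om N w) hSom)
  change ip (om N w) (T S wd (om N w)) = _ * ip (om N w)
    ((1 : Module.End ℝ (Fn (Fin (2 * N + 2)) Bool)) (om N w)) at f1
  rw [Module.End.one_apply] at f1
  have hg : GPos N κ (T S wd (om N w)) :=
    gpos_word N w hw1 hwpos q hδ0 hδ wd κ hok hr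
  have hip : 0 < ip (om N w) (T S wd (om N w)) := gpos_ip N κ w hwpos _ hg
  rw [f1] at hip
  have hRpos : 0 < (R.map (fun r => r.1 * q ^ r.2)).sum := (pos_iff_pos_of_mul_pos hip).2 hFpos
  have hprod : 0 < q ^ b * p.eval q := by
    rw [hL]
    positivity
  exact (pos_iff_pos_of_mul_pos hprod).1 (by positivity)

end Pool.Agent.H110R3.BP
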