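import Pool.Agent.H110R3.BP.Stubs

set_option autoImplicit false

namespace Pool.Agent.H110R3.BP

open Polynomial Pool.Agent.H207R2.BL

/-- MAIN -/
theorem main_pf {V : Type} [Fintype V] (G : SimpleGraph V) (hG : G.Colorable 2)
    (f : V → ℝ × ℝ) (hf : IsStraight G f) (p : ℝ[X]) (hp : IsChrom G p) (q : ℝ) (hq : 4 ≤ q) :
    0 < p.eval q := by
  classical
  obtain ⟨C⟩ := hG
  have hb : Bip (fun v => decide (C v = 0)) G.edgeSet := by
    intro a b hab hne
    have h1 : C a ≠ C b := C.valid (SimpleGraph.mem_edgeSet G |>.1 hab)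
    have h2 : (C a = 0) ↔ (C b = 0) := decide_eq_decide.1 hne
    apply h1
    have h3 : ∀ x y : Fin 2, (x = 0 ↔ y = 0) → x = y := by decide
    exact h3 _ _ h2
  exact good_pos _ G (good_of_proc _ (straight_proc f hf) hb) p hp q hq

end Pool.Agent.H110R3.BP
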