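import Pool.Agent.H110R3.BP.Stubs

set_option autoImplicit false

namespace Pool.Agent.H110R3.BP

open Polynomial Pool.Agent.H207R2.BL

theorem proc_event_in {V : Type} (P Q : List V) (v : V) (I : List V) :
    ∀ (U : Set V) (E : Set (Sym2 V)), Proc (P ++ I ++ v :: Q) U E → (∀ u ∈ I, u ≠ v) →
      Proc (P ++ v :: Q) U (E ∪ {e | ∃ u ∈ I, e = s(u, v)}) := by
  induction I using List.reverseRecOn with
  | nil =>
    intro U E h _
    have h1 : E ∪ {e | ∃ u ∈ ([] : List V), e = s(u, v)} = E := by
      ext e
      simp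
    rw [h1]
    simpa using h
  | append_singleton I u ih =>
    intro U E h hI
    have h1 : P ++ (I ++ [u]) ++ v :: Q = (P ++ I) ++ u :: v :: Q := by simp
    rw [h1] at h
    have h2 := Proc.edge (P ++ I) Q U E u v h (hI u (by simp))
    have h3 := Proc.drop (P ++ I) (v :: Q) U _ u h2
    have h4 := ih U _ h3 (fun w hw => hI w (by simp [hw]))
    have h5 : insert s(u, v) E ∪ {e | ∃ w ∈ I, e = s(w, v)} =
        E ∪ {e | ∃ w ∈ I ++ [u], e = s(w, v)} := by
      ext e
      simp only [Set.mem_union, Set.mem_insert_iff, Set.mem_ofPred_eq, List.mem_append,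
        List.mem_singleton]
      constructor
      · rintro ((he | he) | ⟨w, hw, he⟩)
        · exact Or.inr ⟨u, Or.inr rfl, he⟩
        · exact Or.inl he
        · exact Or.inr ⟨w, Or.inl hw, he⟩
      · rintro (he | ⟨w, hw | hw, he⟩)
        · exact Or.inl (Or.inr he)
        · exact Or.inr ⟨w, hw, he⟩
        · exact Or.inl (Or.inl (by rw [← hw]; exact he))
    rw [← h5]
    exact h4

theorem proc_event_rep {V : Type} (P Q : List V) (v : V) (U : Set V) (E : Set (Sym2 V))
    (h : Proc (P ++ v :: Q) U E) (b : ℕ) : Proc (P ++ v :: (List.replicate b v ++ Q)) U E := by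
  induction b with
  | zero => simpa using h
  | succ b ih =>
    have h1 := Proc.dup P (List.replicate b v ++ Q) U E v ih
    simpa [List.replicate_succ] using h1

-- P1
theorem proc_event_pf {V : Type} (P Q I : List V) (v : V) (b : ℕ) (U : Set V) (E : Set (Sym2 V))
    (h : Proc (P ++ I ++ Q) U E) (hv : v ∉ U) (hI : ∀ u ∈ I, u ≠ v) :
    Proc (P ++ List.replicate b v ++ Q) (insert v U) (E ∪ {e | ∃ u ∈ I, e = s(u, v)}) := by
  have h1 := Proc.new (P ++ I) Q U E v h hv
  have h2 := proc_event_in P Q v I (insert v U) E h1 hI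
  cases b with
  | zero =>
    have h3 := Proc.drop P Q _ _ v h2
    simpa using h3
  | succ b =>
    have h3 := proc_event_rep P Q v _ _ h2 b
    simpa [List.replicate_succ] using h3

end Pool.Agent.H110R3.BP
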