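import Pool.Agent.H110R3.BP.Stubs

/-!
# T6: mono_proc
-/

set_option autoImplicit false

namespace Pool.Agent.H110R3.BP

open Polynomial Pool.Agent.H207R2.BL

theorem mono_proc_t0 {V : Type} [Finite V] (x : V → ℝ) (a : ℝ) :
    ∃ t0 < a, ∀ z, x z < a → x z < t0 := by
  have h : ∀ᶠ t0 in nhdsWithin a (Set.Iio a), ∀ z, x z < a → x z < t0 := by
    rw [Filter.eventually_all]
    intro z
    by_cases hz : x z < a
    · have h1 : Set.Ioo (x z) a ∈ nhdsWithin a (Set.Iio a) := Ioo_mem_nhdsLT hz
      filter_upwards [h1] with t ht _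
      exact ht.1
    · exact Filter.Eventually.of_forall fun t h => absurd h hz
  obtain ⟨t0, h0, h1⟩ := (h.and self_mem_nhdsWithin).exists
  exact ⟨t0, h1, h0⟩

theorem mono_proc_aux {V : Type} [Finite V] {G : SimpleGraph V} {x y : V → ℝ}
    {g : V → V → ℝ → ℝ} (h : Mono G x y g) (n : ℕ) : ∀ (t : ℝ), Set.ncard {v | x v < t} = n →
    (∀ v, x v ≠ t) → ∀ (l : List (V × V)), IsList G x g t l →
    Proc (l.map Prod.fst) {v | x v < t}
      {e | ∃ u w, e = s(u, w) ∧ G.Adj u w ∧ x u < t ∧ x w < t} := by
  induction n using Nat.strong_induction_on with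
  | _ n ih =>
    intro t hn ht l hl
    rcases Set.eq_empty_or_nonempty {v | x v < t} with he | hne
    · have hno : ∀ v, ¬ x v < t := fun v hv => by
        have : v ∈ {v | x v < t} := hv
        rw [he] at this
        exact this
      have hl0 : l = [] := by
        rw [List.eq_nil_iff_forall_not_mem]
        intro e hel
        exact hno _ ((hl.mem e).1 hel).2.1
      have hE : {e : Sym2 V | ∃ u w, e = s(u, w) ∧ G.Adj u w ∧ x u < t ∧ x w < t} = ∅ := by
        ext e
        simp only [Set.mem_setOf_eq, Set.mem_empty_iff_false, iff_false]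
        rintro ⟨u, w, -, -, hu, -⟩
        exact hno u hu
      rw [hl0, he, hE]
      exact Proc.nil
    · obtain ⟨v, hv, hmax⟩ := Set.exists_max_image {v | x v < t} x (Set.toFinite _) hne
      obtain ⟨t0, ht0, hz⟩ := mono_proc_t0 x (x v)
      have hvt : x v < t := hv
      have hno : ∀ z, z ≠ v → x z < t0 ∨ t < x z := by
        intro z hzv
        rcases lt_or_gt_of_ne (ht z) with h1 | h1
        · refine Or.inl (hz z (lt_of_le_of_ne (hmax z h1) fun h2 => hzv (h.inj h2)))
        · exact Or.inr h1
      obtain ⟨P, O, Q, I, hPOQ, hO, hI, hl'⟩ := event_list h v t0 t ht0 hvt hno l hl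
      have hU : {z | x z < t} = insert v {z | x z < t0} := by
        ext z
        simp only [Set.mem_setOf_eq, Set.mem_insert_iff]
        constructor
        · intro h1
          by_cases hzv : z = v
          · exact Or.inl hzv
          · rcases hno z hzv with h2 | h2
            · exact Or.inr h2
            · exact absurd h1 (not_lt.2 h2.le)
        · rintro (rfl | h1)
          · exact hvt
          · exact h1.trans (ht0.trans hvt)
      have hvU : v ∉ {z | x z < t0} := fun h1 => absurd h1 (not_lt.2 (le_of_lt ht0))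
      have hlt : Set.ncard {z | x z < t0} < n := by
        rw [← hn, hU, Set.ncard_insert_of_notMem hvU (Set.toFinite _)]
        exact Nat.lt_succ_self _
      have ht0' : ∀ z, x z ≠ t0 := by
        intro z hz0
        by_cases hzv : z = v
        · subst hzv
          exact absurd hz0 ht0.ne'
        · rcases hno z hzv with h2 | h2
          · exact absurd hz0 h2.ne
          · linarith
      have hp := ih _ hlt t0 rfl ht0' _ hl'
      rw [List.map_append, List.map_append] at hp
      have hI' : ∀ u ∈ I.map Prod.fst, u ≠ v := by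
        intro u hu
        obtain ⟨e, he, rfl⟩ := List.mem_map.1 hu
        intro h2
        have h3 := ((hI e).1 he).2.2
        rw [h2] at h3
        exact lt_irrefl _ h3
      have hp' := proc_event (P.map Prod.fst) (Q.map Prod.fst) (I.map Prod.fst) v O.length _ _ hp
        hvU hI'
      have hOr : O.map Prod.fst = List.replicate O.length v := by
        rw [List.eq_replicate_iff]
        refine ⟨List.length_map _, ?_⟩
        intro u hu
        obtain ⟨e, he, rfl⟩ := List.mem_map.1 hu
        exact hO e he
      have hE : {e : Sym2 V | ∃ u w, e = s(u, w) ∧ G.Adj u w ∧ x u < t ∧ x w < t} =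
          {e | ∃ u w, e = s(u, w) ∧ G.Adj u w ∧ x u < t0 ∧ x w < t0} ∪
            {e | ∃ u ∈ I.map Prod.fst, e = s(u, v)} := by
        ext e
        simp only [Set.mem_setOf_eq, Set.mem_union]
        have hcase : ∀ z, x z < t → z = v ∨ x z < t0 := fun z hz => by
          have h1 : z ∈ {z | x z < t} := hz
          rw [hU] at h1
          exact h1
        constructor
        · rintro ⟨u, w, rfl, hadj, hu, hw⟩
          rcases hcase u hu with hu' | hu'
          · rcases hcase w hw with hw' | hw'
            · exact absurd (hu'.trans hw'.symm) hadj.ne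
            · subst hu'
              refine Or.inr ⟨w, ?_, Sym2.eq_swap⟩
              exact List.mem_map.2 ⟨(w, u), (hI (w, u)).2 ⟨hadj.symm, rfl, hw'.trans ht0⟩, rfl⟩
          · rcases hcase w hw with hw' | hw'
            · subst hw'
              refine Or.inr ⟨u, ?_, rfl⟩
              exact List.mem_map.2 ⟨(u, w), (hI (u, w)).2 ⟨hadj, rfl, hu'.trans ht0⟩, rfl⟩
            · exact Or.inl ⟨u, w, rfl, hadj, hu', hw'⟩
        · rintro (⟨u, w, rfl, hadj, hu, hw⟩ | ⟨u, hu, rfl⟩)
          · exact ⟨u, w, rfl, hadj, hu.trans (ht0.trans hvt), hw.trans (ht0.trans hvt)⟩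
          · obtain ⟨e, he, rfl⟩ := List.mem_map.1 hu
            obtain ⟨h1, -, h3⟩ := (hI e).1 he
            exact ⟨e.1, v, rfl, h1, h3.trans hvt, hvt⟩
      rw [hPOQ, List.map_append, List.map_append, hOr, hU, hE]
      exact hp'

theorem mono_proc_pf {V : Type} [Finite V] {G : SimpleGraph V} {x y : V → ℝ} {g : V → V → ℝ → ℝ}
    (h : Mono G x y g) (t : ℝ) (ht : ∀ v, x v ≠ t) (l : List (V × V)) (hl : IsList G x g t l) :
    Proc (l.map Prod.fst) {v | x v < t}
      {e | ∃ u w, e = s(u, w) ∧ G.Adj u w ∧ x u < t ∧ x w < t} :=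
  mono_proc_aux h _ t rfl ht l hl

end Pool.Agent.H110R3.BP
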