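import Pool.Agent.H110R3.BP.Defs
set_option autoImplicit false
namespace Pool.Agent.H110R3.BP
open Polynomial Pool.Agent.H207R2.BL

-- G8
theorem exists_shear {V : Type} [Finite V] (f : V → ℝ × ℝ) (hf : Function.Injective f) :
    ∃ ε : ℝ, Function.Injective (fun v => (f v).1 + ε * (f v).2) := by
  classical
  let bad : Set ℝ := Set.range (fun p : V × V => -((f p.1).1 - (f p.2).1) / ((f p.1).2 - (f p.2).2))
  have hfin : bad.Finite := Set.finite_range _
  obtain ⟨ε, hε⟩ := hfin.infinite_compl.nonempty
  refine ⟨ε, ?_⟩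
  intro u v huv
  by_contra hne
  simp only at huv
  by_cases h2 : (f u).2 = (f v).2
  · apply hne
    apply hf
    apply Prod.ext _ h2
    rw [h2] at huv
    linarith
  · apply hε
    refine ⟨(u, v), ?_⟩
    have h3 : (f u).2 - (f v).2 ≠ 0 := sub_ne_zero.2 h2
    simp only
    rw [div_eq_iff h3]
    linarith

end Pool.Agent.H110R3.BP
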