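import Pool.Agent.H110R3.BP.Stubs
set_option autoImplicit false
namespace Pool.Agent.H110R3.BP
open Polynomial Pool.Agent.H207R2.BL

/-- the shear -/
noncomputable def straight_shear_map (ε : ℝ) : ℝ × ℝ →ₗ[ℝ] ℝ × ℝ :=
  LinearMap.prod (LinearMap.fst ℝ ℝ ℝ + ε • LinearMap.snd ℝ ℝ ℝ) (LinearMap.snd ℝ ℝ ℝ)

theorem straight_shear_map_apply (ε : ℝ) (p : ℝ × ℝ) :
    straight_shear_map ε p = (p.1 + ε * p.2, p.2) := by
  simp [straight_shear_map]

theorem straight_shear_inj (ε : ℝ) : Function.Injective (straight_shear_map ε) := by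
  intro p q h
  rw [straight_shear_map_apply, straight_shear_map_apply, Prod.mk.injEq] at h
  obtain ⟨h1, h2⟩ := h
  rw [h2] at h1
  exact Prod.ext (by linarith) h2

theorem straight_shear_seg (ε : ℝ) (a b : ℝ × ℝ) :
    openSegment ℝ (straight_shear_map ε a) (straight_shear_map ε b) =
      straight_shear_map ε '' openSegment ℝ a b := by
  have := image_openSegment ℝ (straight_shear_map ε).toAffineMap a b
  simpa using this.symm

theorem straight_shear_pf {V : Type} {G : SimpleGraph V} (f : V → ℝ × ℝ) (h : IsStraight G f)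
    (ε : ℝ) : IsStraight G (fun v => ((f v).1 + ε * (f v).2, (f v).2)) := by
  have e : (fun v => ((f v).1 + ε * (f v).2, (f v).2)) = fun v => straight_shear_map ε (f v) := by
    funext v
    rw [straight_shear_map_apply]
  rw [e]
  obtain ⟨h1, h2, h3⟩ := h
  refine ⟨(straight_shear_inj ε).comp h1, ?_, ?_⟩
  · intro u v w huv
    rw [straight_shear_seg]
    rintro ⟨p, hp, hpw⟩
    exact h2 u v w huv (by rwa [straight_shear_inj ε hpw] at hp)
  · intro u v u' v' huv huv' hne
    rw [straight_shear_seg, straight_shear_seg]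
    exact (Set.disjoint_image_iff (straight_shear_inj ε)).mpr (h3 u v u' v' huv huv' hne)

end Pool.Agent.H110R3.BP
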