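import Pool.Agent.H110R3.BP.Stubs
set_option autoImplicit false
namespace Pool.Agent.H110R3.BP
open Polynomial Pool.Agent.H207R2.BL

theorem mono_of_straight_mem (a b : ℝ × ℝ) (t : ℝ) (h1 : a.1 < t) (h2 : t < b.1) :
    ((t, a.2 + (t - a.1) / (b.1 - a.1) * (b.2 - a.2)) : ℝ × ℝ) ∈ openSegment ℝ a b := by
  rw [openSegment_eq_image]
  have h3 : 0 < b.1 - a.1 := by linarith
  refine ⟨(t - a.1) / (b.1 - a.1), ⟨div_pos (by linarith) h3, ?_⟩, ?_⟩
  · rw [div_lt_one h3]
    linarith
  · ext
    · simp only [Prod.fst_add, Prod.smul_fst, smul_eq_mul]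
      field_simp
      ring
    · simp only [Prod.snd_add, Prod.smul_snd, smul_eq_mul]
      ring

theorem mono_of_straight_pf {V : Type} {G : SimpleGraph V} (f : V → ℝ × ℝ) (h : IsStraight G f)
    (hx : Function.Injective (fun v => (f v).1)) :
    Mono G (fun v => (f v).1) (fun v => (f v).2)
      (fun u w t => (f u).2 + (t - (f u).1) / ((f w).1 - (f u).1) * ((f w).2 - (f u).2)) where
  inj := hx
  cont u w := by fun_prop
  left u w _ _ := by simp
  right u w _ huw := by
    have h3 : (f w).1 - (f u).1 ≠ 0 := (sub_pos.2 huw).ne'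
    change (f u).2 + ((f w).1 - (f u).1) / ((f w).1 - (f u).1) * ((f w).2 - (f u).2) = (f w).2
    rw [div_self h3]
    ring
  vert u w z huw h1 h2 heq := by
    have h3 := mono_of_straight_mem (f u) (f w) (f z).1 h1 h2
    have e : (f u).2 + ((f z).1 - (f u).1) / ((f w).1 - (f u).1) * ((f w).2 - (f u).2) =
        (f z).2 := heq
    rw [e] at h3
    exact h.2.1 u w z huw h3
  disj u w u' w' t huw huw' hne h1 h2 h3 h4 heq := by
    have h5 := mono_of_straight_mem (f u) (f w) t h1 h2
    have h6 := mono_of_straight_mem (f u') (f w') t h3 h4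
    have e : (f u).2 + (t - (f u).1) / ((f w).1 - (f u).1) * ((f w).2 - (f u).2) =
        (f u').2 + (t - (f u').1) / ((f w').1 - (f u').1) * ((f w').2 - (f u').2) := heq
    rw [← e] at h6
    have hs : s(u, w) ≠ s(u', w') := by
      intro hs
      rcases Sym2.eq_iff.1 hs with ⟨rfl, rfl⟩ | ⟨rfl, rfl⟩
      · exact hne rfl
      · exact absurd (h1.trans h4) (lt_irrefl _)
    exact Set.disjoint_left.1 (h.2.2 u w u' w' huw huw' hs) h5 h6

end Pool.Agent.H110R3.BP
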