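import Pool.Agent.H110R3.BP.Defs
set_option autoImplicit false
namespace Pool.Agent.H110R3.BP
open Polynomial Pool.Agent.H207R2.BL

-- G1
theorem ivt_lt (g1 g2 : ℝ → ℝ) (h1 : Continuous g1) (h2 : Continuous g2) (s t : ℝ)
    (hne : ∀ r ∈ Set.uIcc s t, g1 r ≠ g2 r) (h : g1 s < g2 s) : g1 t < g2 t := by
  sorry

-- G2
theorem lt_right {V : Type} {G : SimpleGraph V} {x y : V → ℝ} {g : V → V → ℝ → ℝ}
    (h : Mono G x y g) (e e' : V × V) (a t : ℝ) (hat : a ≤ t) (he : G.Adj e.1 e.2)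
    (he' : G.Adj e'.1 e'.2) (h1 : x e.1 ≤ a) (h2 : t < x e.2) (h1' : x e'.1 ≤ a)
    (h2' : t < x e'.2) (hlt : g e.1 e.2 a < g e'.1 e'.2 a) : g e.1 e.2 t < g e'.1 e'.2 t := by
  sorry

-- G3
theorem lt_left {V : Type} {G : SimpleGraph V} {x y : V → ℝ} {g : V → V → ℝ → ℝ}
    (h : Mono G x y g) (e e' : V × V) (a t : ℝ) (hat : t ≤ a) (he : G.Adj e.1 e.2)
    (he' : G.Adj e'.1 e'.2) (h1 : x e.1 < t) (h2 : a ≤ x e.2) (h1' : x e'.1 < t)
    (h2' : a ≤ x e'.2) (hlt : g e.1 e.2 a < g e'.1 e'.2 a) : g e.1 e.2 t < g e'.1 e'.2 t := by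
  sorry

-- G4 (existence of the sorted list for any finite predicate)
theorem exists_sorted {α : Type} [Finite α] (P : α → Prop) (r : α → ℝ)
    (hr : ∀ a b, P a → P b → r a = r b → a = b) :
    ∃ l : List α, (∀ a, a ∈ l ↔ P a) ∧ l.Pairwise (fun a b => r a < r b) := by
  sorry

-- G5 (splitting a sorted list by a rank)
theorem split_rank {α : Type} (R : α → α → Prop) (l : List α) (hl : l.Pairwise R)
    (hasym : ∀ a b, R a b → ¬ R b a) (rk : α → ℕ) (hrk : ∀ a ∈ l, rk a ≤ 2)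
    (hR : ∀ a ∈ l, ∀ b ∈ l, rk a < rk b → R a b) :
    l = l.filter (fun a => decide (rk a = 0)) ++ l.filter (fun a => decide (rk a = 1)) ++
      l.filter (fun a => decide (rk a = 2)) := by
  sorry

-- G6 (one vertex `v` passes)
theorem event_list {V : Type} [Finite V] {G : SimpleGraph V} {x y : V → ℝ} {g : V → V → ℝ → ℝ}
    (h : Mono G x y g) (v : V) (t0 t : ℝ) (hv0 : t0 < x v) (hvt : x v < t)
    (hno : ∀ z, z ≠ v → x z < t0 ∨ t < x z) (l : List (V × V)) (hl : IsList G x g t l) :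
    ∃ P O Q I : List (V × V), l = P ++ O ++ Q ∧ (∀ e ∈ O, e.1 = v) ∧
      (∀ e, e ∈ I ↔ (G.Adj e.1 v ∧ e.2 = v ∧ x e.1 < x v)) ∧ IsList G x g t0 (P ++ I ++ Q) := by
  sorry

-- P1
theorem proc_event {V : Type} (P Q I : List V) (v : V) (b : ℕ) (U : Set V) (E : Set (Sym2 V))
    (h : Proc (P ++ I ++ Q) U E) (hv : v ∉ U) (hI : ∀ u ∈ I, u ≠ v) :
    Proc (P ++ List.replicate b v ++ Q) (insert v U) (E ∪ {e | ∃ u ∈ I, e = s(u, v)}) := by
  sorry

-- G7
theorem mono_proc {V : Type} [Finite V] {G : SimpleGraph V} {x y : V → ℝ} {g : V → V → ℝ → ℝ}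
    (h : Mono G x y g) (t : ℝ) (ht : ∀ v, x v ≠ t) (l : List (V × V)) (hl : IsList G x g t l) :
    Proc (l.map Prod.fst) {v | x v < t}
      {e | ∃ u w, e = s(u, w) ∧ G.Adj u w ∧ x u < t ∧ x w < t} := by
  sorry

-- G8
theorem exists_shear {V : Type} [Finite V] (f : V → ℝ × ℝ) (hf : Function.Injective f) :
    ∃ ε : ℝ, Function.Injective (fun v => (f v).1 + ε * (f v).2) := by
  sorry

-- G9
theorem straight_shear {V : Type} {G : SimpleGraph V} (f : V → ℝ × ℝ) (h : IsStraight G f)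
    (ε : ℝ) : IsStraight G (fun v => ((f v).1 + ε * (f v).2, (f v).2)) := by
  sorry

-- G10
theorem mono_of_straight {V : Type} {G : SimpleGraph V} (f : V → ℝ × ℝ) (h : IsStraight G f)
    (hx : Function.Injective (fun v => (f v).1)) :
    Mono G (fun v => (f v).1) (fun v => (f v).2)
      (fun u w t => (f u).2 + (t - (f u).1) / ((f w).1 - (f u).1) * ((f w).2 - (f u).2)) := by
  sorry

-- G11
theorem straight_proc {V : Type} [Finite V] {G : SimpleGraph V} (f : V → ℝ × ℝ)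
    (h : IsStraight G f) : Proc [] Set.univ G.edgeSet := by
  sorry

-- K1
theorem cnt_new {V : Type} [Fintype V] (k : ℕ) (L1 L2 : List V) (E : Set (Sym2 V)) (v : V)
    (hv1 : v ∉ L1) (hv2 : v ∉ L2) (hE : ∀ u, s(u, v) ∉ E) (l1 l2 : List (Fin k)) (x : Fin k)
    (hl : l1.length = L1.length) :
    (k : ℝ) * cnt k (L1 ++ v :: L2) E (l1 ++ x :: l2) = cnt k (L1 ++ L2) E (l1 ++ l2) := by
  sorry

-- K2
theorem cnt_drop {V : Type} [Fintype V] (k : ℕ) (L1 L2 : List V) (E : Set (Sym2 V)) (v : V)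
    (l1 l2 : List (Fin k)) (hl : l1.length = L1.length) :
    ∑ x : Fin k, cnt k (L1 ++ v :: L2) E (l1 ++ x :: l2) = cnt k (L1 ++ L2) E (l1 ++ l2) := by
  sorry

-- K3
theorem cnt_dup {V : Type} [Fintype V] (k : ℕ) (L1 L2 : List V) (E : Set (Sym2 V)) (v : V)
    (l1 l2 : List (Fin k)) (x y : Fin k) (hl : l1.length = L1.length) :
    cnt k (L1 ++ v :: v :: L2) E (l1 ++ x :: y :: l2) =
      if x = y then cnt k (L1 ++ v :: L2) E (l1 ++ x :: l2) else 0 := by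
  sorry

-- K4
theorem cnt_edge {V : Type} [Fintype V] (k : ℕ) (L1 L2 : List V) (E : Set (Sym2 V)) (u v : V)
    (l1 l2 : List (Fin k)) (x y : Fin k) (hl : l1.length = L1.length) :
    cnt k (L1 ++ u :: v :: L2) (insert s(u, v) E) (l1 ++ x :: y :: l2) =
      if x = y then 0 else cnt k (L1 ++ u :: v :: L2) E (l1 ++ x :: y :: l2) := by
  sorry

-- K5
theorem proc_inv {V : Type} {L : List V} {U : Set V} {E : Set (Sym2 V)} (h : Proc L U E) :
    (∀ v ∈ L, v ∈ U) ∧ (∀ a b, s(a, b) ∈ E → a ∈ U ∧ b ∈ U ∧ a ≠ b) := by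
  sorry

-- K6
theorem cnt_final {V : Type} [Fintype V] (G : SimpleGraph V) (k : ℕ) :
    cnt k [] G.edgeSet [] = (Nat.card (G.Coloring (Fin k)) : ℝ) := by
  sorry

-- W1
theorem shr_act (n k j : ℕ) (hj : j < n) (f : Fn (Fin (n + 1)) (Fin k))
    (hf : ∀ c x, f (Function.update c (pt n (j + 1)) x) = f c) (c : Fin (n + 1) → Fin k) :
    T (PR n k) (Shr j) f c = (k : ℝ) * f (Function.update c (pt n j) (c (pt n (j + 1)))) := by
  sorry

-- W2
theorem shl_act (n k j : ℕ) (hj : j < n) (f : Fn (Fin (n + 1)) (Fin k))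
    (hf : ∀ c x, f (Function.update c (pt n j) x) = f c) (c : Fin (n + 1) → Fin k) :
    T (PR n k) (Shl j) f c = (k : ℝ) * f (Function.update c (pt n (j + 1)) (c (pt n j))) := by
  sorry

-- W3
theorem ins_act (n k p d : ℕ) (h : p + d ≤ n) (F : List (Fin k) → ℝ)
    (c : Fin (n + 1) → Fin k) :
    T (PR n k) (insW p d) (fun c => F (cl (fun i => i) (p + d) c)) c =
      (k : ℝ) ^ (d + 1) * F (cl (up p) (p + d) c) := by
  sorry

-- W4
theorem del_act (n k p d : ℕ) (h : p + d ≤ n) (F : List (Fin k) → ℝ)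
    (c : Fin (n + 1) → Fin k) :
    T (PR n k) (delW p d) (fun c => F (cl (fun i => i) (p + 1 + d) c)) c =
      (k : ℝ) ^ d * ∑ x : Fin k, F (cl (fun i => i) p c ++ x :: cl (fun i => p + i) d c) := by
  sorry

-- W5
theorem ok_ins (w : List Let) (κ : ℕ → Bool) (h : OK w κ) (p d : ℕ) (b : Bool) :
    ∃ κ' : ℕ → Bool, OK (insW p d ++ w) κ' ∧ κ' p = b ∧ (∀ i, i < p → κ' i = κ i) ∧
      (∀ i, p ≤ i → i < p + d → κ' (i + 1) = κ i) := by
  sorry

-- W6
theorem ok_del (w : List Let) (κ : ℕ → Bool) (h : OK w κ) (p d : ℕ) :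
    ∃ κ' : ℕ → Bool, OK (delW p d ++ w) κ' ∧ (∀ i, i < p → κ' i = κ i) ∧
      (∀ i, p ≤ i → i < p + d → κ' i = κ (i + 1)) := by
  sorry

-- W7
theorem inr_ins (n p d : ℕ) (h : p + d ≤ n) : ∀ l ∈ insW p d, InR n l := by
  sorry

-- W8
theorem inr_del (n p d : ℕ) (h : p + d ≤ n) : ∀ l ∈ delW p d, InR n l := by
  sorry

-- W9
theorem T_append {M : ℕ} {q : ℝ} {A : Type} [Ring A] [Algebra ℝ A] (S : TL M q A)
    (v w : List Let) : T S (v ++ w) = T S v * T S w := by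
  simp [T]

-- W10
theorem good_nil {V : Type} [Fintype V] (col : V → Bool) : Good col ([] : List V) ∅ := by
  sorry

-- W11
theorem good_new {V : Type} [Fintype V] (col : V → Bool) (L1 L2 : List V) (E : Set (Sym2 V))
    (v : V) (hv1 : v ∉ L1) (hv2 : v ∉ L2) (hE : ∀ u, s(u, v) ∉ E)
    (h : Good col (L1 ++ L2) E) : Good col (L1 ++ v :: L2) E := by
  sorry

-- W12
theorem good_dup {V : Type} [Fintype V] (col : V → Bool) (L1 L2 : List V) (E : Set (Sym2 V))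
    (v : V) (h : Good col (L1 ++ v :: L2) E) : Good col (L1 ++ v :: v :: L2) E := by
  sorry

-- W13
theorem good_edge {V : Type} [Fintype V] (col : V → Bool) (L1 L2 : List V) (E : Set (Sym2 V))
    (u v : V) (huv : col u ≠ col v) (h : Good col (L1 ++ u :: v :: L2) E) :
    Good col (L1 ++ u :: v :: L2) (insert s(u, v) E) := by
  sorry

-- W14
theorem good_drop {V : Type} [Fintype V] (col : V → Bool) (L1 L2 : List V) (E : Set (Sym2 V))
    (v : V) (h : Good col (L1 ++ v :: L2) E) : Good col (L1 ++ L2) E := by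
  sorry

-- W15
theorem good_of_proc {V : Type} [Fintype V] (col : V → Bool) {L : List V} {U : Set V}
    {E : Set (Sym2 V)} (h : Proc L U E) (hb : Bip col E) : Good col L E := by
  sorry

-- V1
theorem gpos_om (n : ℕ) (κ : ℕ → Bool) (w : Bool → ℝ) (hw : ∀ x, 0 < w x) :
    GPos n κ (om n w) := by
  sorry

-- V2
theorem gpos_C (n : ℕ) (κ : ℕ → Bool) (w : Bool → ℝ) (hw : ∀ x, 0 < w x) (i : ℕ) (hi : i ≤ n)
    (b : Bool) (g : Fn (Fin (2 * n + 2)) Bool) (hg : GPos n κ g) :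
    GPos n (Function.update κ i b) (Eop w (st n (2 * i)) (st n (2 * i + 1)) g) := by
  sorry

-- V3
theorem gpos_J (n : ℕ) (κ : ℕ → Bool) (w : Bool → ℝ) (hw : ∀ x, 0 < w x) (i : ℕ) (hi : i < n)
    (hκ : κ i = κ (i + 1)) (g : Fn (Fin (2 * n + 2)) Bool) (hg : GPos n κ g) :
    GPos n κ (Eop w (st n (2 * i + 1)) (st n (2 * i + 2)) g) := by
  sorry

-- V4
theorem gpos_X (n : ℕ) (κ : ℕ → Bool) (w : Bool → ℝ) (hw : ∀ x, 0 < w x)
    (hw1 : w true * w false = 1) (i : ℕ) (hi : i < n)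
    (hκ : κ i ≠ κ (i + 1)) (g : Fn (Fin (2 * n + 2)) Bool) (hg : GPos n κ g) :
    GPos n κ (g - (w true ^ 2 + w false ^ 2)⁻¹ • Eop w (st n (2 * i + 1)) (st n (2 * i + 2)) g) := by
  sorry

-- V5
theorem gpos_word (n : ℕ) (w : Bool → ℝ) (hw : w true * w false = 1) (hpos : ∀ x, 0 < w x)
    (q : ℝ) (hδ0 : w true ^ 2 + w false ^ 2 ≠ 0) (hq : q = (w true ^ 2 + w false ^ 2) ^ 2)
    (wd : List Let) (κ : ℕ → Bool) (hok : OK wd κ) (hr : ∀ l ∈ wd, InR n l) :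
    GPos n κ (T (vert n (st n) (st_inj n) w hw (w true ^ 2 + w false ^ 2) q rfl hδ0 hq) wd
      (om n w)) := by
  sorry

-- V6
theorem gpos_ip (n : ℕ) (κ : ℕ → Bool) (w : Bool → ℝ) (hw : ∀ x, 0 < w x)
    (g : Fn (Fin (2 * n + 2)) Bool) (hg : GPos n κ g) : 0 < ip (om n w) g := by
  sorry

-- D1
theorem T_expd {M : ℕ} {q : ℝ} {A : Type} [Ring A] [Algebra ℝ A] (S : TL M q A)
    (w : List Let) : T S w = ((expd w).map (fun a => a.1 • S.W a.2)).sum := by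
  sorry

-- D2
theorem expd_lt (n : ℕ) (w : List Let) (hw : ∀ l ∈ w, InR n l) :
    ∀ a ∈ expd w, ∀ j ∈ a.2, j < 2 * n + 1 := by
  sorry

-- D3: the common value of all states on a word, up to the value at 1
theorem state_T (n : ℕ) (w : List Let) (hw : ∀ l ∈ w, InR n l) :
    ∃ R : List (ℝ × ℤ), ∀ (q : ℝ), q ≠ 0 → ∀ (A : Type) [Ring A] [Algebra ℝ A]
      (S : TL (2 * n + 1) q A) (F : State S),
      F.φ (T S w) = ((R.map (fun a => a.1 * q ^ a.2)).sum) * F.φ 1 := by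
  sorry

-- D4: Laurent polynomials agreeing at all positive integers agree at all positive reals
theorem laurent_eq (p : ℝ[X]) (a b : ℕ) (R : List (ℝ × ℤ))
    (h : ∀ k : ℕ, 1 ≤ k → (k : ℝ) ^ b * p.eval (k : ℝ) =
      (k : ℝ) ^ a * (R.map (fun r => r.1 * (k : ℝ) ^ r.2)).sum) (q : ℝ) (hq : 0 < q) :
    q ^ b * p.eval q = q ^ a * (R.map (fun r => r.1 * q ^ r.2)).sum := by
  sorry

-- D5
theorem exists_weights (q : ℝ) (hq : 4 ≤ q) : ∃ w : Bool → ℝ, w true * w false = 1 ∧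
    (∀ x, 0 < w x) ∧ q = (w true ^ 2 + w false ^ 2) ^ 2 := by
  sorry

-- D6
theorem good_pos {V : Type} [Fintype V] (col : V → Bool) (G : SimpleGraph V)
    (h : Good col [] G.edgeSet) (p : ℝ[X]) (hp : IsChrom G p) (q : ℝ) (hq : 4 ≤ q) :
    0 < p.eval q := by
  sorry

/-- MAIN -/
theorem main {V : Type} [Fintype V] (G : SimpleGraph V) (hG : G.Colorable 2)
    (f : V → ℝ × ℝ) (hf : IsStraight G f) (p : ℝ[X]) (hp : IsChrom G p) (q : ℝ) (hq : 4 ≤ q) :
    0 < p.eval q := by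
  sorry

end Pool.Agent.H110R3.BP
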