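import Pool.Agent.H110R3.BP.Core

/-!
The subgraph expansion of the chromatic polynomial.
-/

set_option autoImplicit false

namespace Pool.Agent.H110R3.BP

open Polynomial Pool.Agent.H207R2.BL

theorem isChrom_expansion {V : Type} [Fintype V] [DecidableEq V] (G : SimpleGraph V)
    [DecidableRel G.Adj] : IsChrom G (∑ S ∈ G.edgeFinset.powerset,
      (C ((-1 : ℝ) ^ S.card) *
        X ^ Nat.card (SimpleGraph.fromEdgeSet (S : Set (Sym2 V))).ConnectedComponent : ℝ[X])) := by
  classical
  intro k
  rw [card_coloring]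
  simp_rw [pr_expand]
  rw [Finset.sum_comm, Polynomial.eval_finsetSum]
  refine Finset.sum_congr rfl (fun S _ => ?_)
  rw [← Finset.mul_sum]
  simp only [Polynomial.eval_mul, Polynomial.eval_C, Polynomial.eval_pow, Polynomial.eval_X]
  congr 1
  have h := sum_ind (α := V) k (comp S) (comp S)
  have h2 : ∀ c : V → Fin k, ind (comp S) c * ind (comp S) c = ind (comp S) c := by
    intro c
    by_cases hc : ∀ x y, (comp S) x y → c x = c y
    · rw [ind_of _ c hc, one_mul]
    · rw [ind_not _ c hc, zero_mul]
  simp_rw [h2] at h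
  rw [h, sup_idem]
  rfl

theorem expansion_pos {V : Type} [Fintype V] [DecidableEq V] (G : SimpleGraph V)
    [DecidableRel G.Adj] (hG : G.Colorable 2) (f : V → ℝ × ℝ) (hf : IsStraight G f) (q : ℝ)
    (hq : 4 ≤ q) : 0 < ∑ S ∈ G.edgeFinset.powerset, (-1 : ℝ) ^ S.card *
        q ^ Nat.card (SimpleGraph.fromEdgeSet (S : Set (Sym2 V))).ConnectedComponent := by
  have h := main G hG f hf _ (isChrom_expansion G) q hq
  rw [Polynomial.eval_finsetSum] at h
  simpa only [Polynomial.eval_mul, Polynomial.eval_C, Polynomial.eval_pow,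
    Polynomial.eval_X] using h

end Pool.Agent.H110R3.BP
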